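import Pool.Agent.Helper76.Conway.TopComb

/-!
# Top coefficients of the Conway polynomial of positive braids: positivity

`Mk` is an abstract Markov functional on a tower of groups generated by `s n 0, ..., s n (n - 1)`.
`Mk.zero_of_missing`: the value at a positive word in which a generator is missing is `0`.
`Mk.pos`, `Mk.pos_inv`: the values at `w` and `w * s i⁻¹`, `w` a positive word, have non negative coefficients.
-/

set_option autoImplicit false

namespace Pool.Agent.Helper76.Conway.Top

open Polynomial

/-! ### coefficientwise order -/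

/-- coefficientwise order -/
def Le (p q : ℤ[X]) : Prop := ∀ j, p.coeff j ≤ q.coeff j

theorem Le.refl (p : ℤ[X]) : Le p p := fun _ => le_refl _

theorem Le.of_eq {p q : ℤ[X]} (h : p = q) : Le p q := h ▸ Le.refl p

theorem Le.trans {p q r : ℤ[X]} (h : Le p q) (h' : Le q r) : Le p r :=
  fun j => (h j).trans (h' j)

theorem Le.add {p q p' q' : ℤ[X]} (h : Le p q) (h' : Le p' q') : Le (p + p') (q + q') := by
  intro j
  rw [coeff_add, coeff_add]
  exact add_le_add (h j) (h' j)

theorem Le.X_mul {p q : ℤ[X]} (h : Le p q) : Le (X * p) (X * q) := by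
  intro j
  cases j with
  | zero => rw [mul_coeff_zero, mul_coeff_zero, coeff_X_zero, zero_mul, zero_mul]
  | succ j =>
    rw [coeff_X_mul, coeff_X_mul]
    exact h j

theorem Le.sub_nonneg {p q : ℤ[X]} (h : Le p q) : Le 0 (q - p) := by
  intro j
  rw [coeff_sub, coeff_zero]
  have := h j
  omega

theorem Le.mul_nonneg {p q : ℤ[X]} (hp : Le 0 p) (hq : Le 0 q) : Le 0 (p * q) := by
  intro j
  rw [coeff_zero, coeff_mul]
  refine Finset.sum_nonneg fun x _ => ?_
  have h1 := hp x.1
  have h2 := hq x.2
  rw [coeff_zero] at h1 h2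
  exact _root_.mul_nonneg h1 h2

theorem Le.mul_right {p q r : ℤ[X]} (h : Le p q) (hr : Le 0 r) : Le (p * r) (q * r) := by
  have h1 := Le.mul_nonneg h.sub_nonneg hr
  intro j
  have h2 := h1 j
  rw [sub_mul, coeff_sub, coeff_zero] at h2
  omega

theorem Le.mul_left {p q r : ℤ[X]} (h : Le p q) (hr : Le 0 r) : Le (r * p) (r * q) := by
  rw [mul_comm r, mul_comm r]
  exact h.mul_right hr

theorem Le.zero_X_mul {p : ℤ[X]} (h : Le 0 p) : Le 0 (X * p) := by
  have := h.X_mul
  rwa [mul_zero] at this

/-! ### words -/

/-- the product of a word -/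
def V {G : Type} [Group G] (σ : ℕ → G) (u : List ℕ) : G := (u.map σ).prod

section V
variable {G : Type} [Group G] (σ : ℕ → G)

@[simp] theorem V_nil : V σ [] = 1 := rfl

@[simp] theorem V_cons (a : ℕ) (u : List ℕ) : V σ (a :: u) = σ a * V σ u := rfl

@[simp] theorem V_append (u v : List ℕ) : V σ (u ++ v) = V σ u * V σ v := by
  unfold V
  rw [List.map_append, List.prod_append]

end V

/-- Markov functionals. -/
structure Mk (G : ℕ → Type) [∀ n, Group (G n)] (s : ∀ n, ℕ → G n) (N : ∀ n, G n → ℤ[X]) :
    Prop where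
  braid : ∀ n j, j + 1 < n → s n j * s n (j + 1) * s n j = s n (j + 1) * s n j * s n (j + 1)
  comm : ∀ n a b, a + 2 ≤ b → b < n → s n a * s n b = s n b * s n a
  one : N 0 1 = 1
  conj : ∀ n g h, N n (g * h) = N n (h * g)
  skein : ∀ n g i h, i < n → N n (g * s n i * h) - N n (g * (s n i)⁻¹ * h) = X * N n (g * h)
  stab : ∀ n u, (∀ a ∈ u, a < n) → N (n + 1) (V (s (n + 1)) u * s (n + 1) n) = N n (V (s n) u)
  stab_inv : ∀ n u, (∀ a ∈ u, a < n) →
    N (n + 1) (V (s (n + 1)) u * (s (n + 1) n)⁻¹) = N n (V (s n) u)

namespace Mk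

variable {G : ℕ → Type} [∀ n, Group (G n)] {s : ∀ n, ℕ → G n} {N : ∀ n, G n → ℤ[X]}

theorem quad (h : Mk G s N) {n i : ℕ} (hi : i < n) (g k : G n) :
    N n (g * s n i * s n i * k) = N n (g * k) + X * N n (g * s n i * k) := by
  have := h.skein n (g * s n i) i k hi
  have e : g * s n i * (s n i)⁻¹ * k = g * k := by group
  rw [e] at this
  linear_combination this

theorem inv_eq (h : Mk G s N) {n i : ℕ} (hi : i < n) (g k : G n) :
    N n (g * (s n i)⁻¹ * k) = N n (g * s n i * k) - X * N n (g * k) := by
  have := h.skein n g i k hi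
  linear_combination -this

theorem inv_eq' (h : Mk G s N) {n i : ℕ} (hi : i < n) (g : G n) :
    N n (g * (s n i)⁻¹) = N n (g * s n i) - X * N n g := by
  have := h.inv_eq hi g 1
  simpa using this

theorem top_zero (h : Mk G s N) {n : ℕ} {u : List ℕ} (hu : ∀ a ∈ u, a < n) :
    N (n + 1) (V (s (n + 1)) u) = 0 := by
  have h1 := h.inv_eq' (Nat.lt_succ_self n) (V (s (n + 1)) u)
  rw [h.stab n u hu, h.stab_inv n u hu] at h1
  have h2 : X * N (n + 1) (V (s (n + 1)) u) = 0 := by linear_combination h1
  exact (mul_eq_zero.1 h2).resolve_left X_ne_zero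

theorem V_eqv (h : Mk G s N) {n : ℕ} {u v : List ℕ} (e : Eqv n u v) :
    V (s n) u = V (s n) v := by
  induction e with
  | refl w => rfl
  | trans _ _ ih ih' => exact ih.trans ih'
  | symm _ ih => exact ih.symm
  | comm x y a b hab hb =>
    simp only [V_append, V_cons]
    rw [← mul_assoc (s n a), h.comm n a b hab hb, mul_assoc (s n b)]
  | braid x y j hj =>
    simp only [V_append, V_cons]
    rw [← mul_assoc (s n j), ← mul_assoc (s n j * s n (j + 1)), h.braid n j hj]
    simp only [mul_assoc]

theorem comm_s (h : Mk G s N) {n a b : ℕ} (ha : a < n) (hb : b < n) (hab : a + 2 ≤ b ∨ b + 2 ≤ a) :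
    s n a * s n b = s n b * s n a := by
  rcases hab with hab | hab
  · exact h.comm n a b hab hb
  · exact (h.comm n b a hab ha).symm

theorem comm_V (h : Mk G s N) {n b : ℕ} (hb : b < n) {u : List ℕ}
    (hu : ∀ a ∈ u, a < n ∧ (a + 2 ≤ b ∨ b + 2 ≤ a)) :
    V (s n) u * s n b = s n b * V (s n) u := by
  induction u with
  | nil => simp
  | cons a u ih =>
    rw [V_cons, mul_assoc, ih fun c hc => hu c (List.mem_cons_of_mem _ hc), ← mul_assoc,
      h.comm_s (hu a (by simp)).1 hb (hu a (by simp)).2, mul_assoc]

theorem comm_VV (h : Mk G s N) {n : ℕ} {u v : List ℕ}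
    (hu : ∀ a ∈ u, a < n) (hv : ∀ b ∈ v, b < n) (huv : ∀ a ∈ u, ∀ b ∈ v, a + 2 ≤ b) :
    V (s n) u * V (s n) v = V (s n) v * V (s n) u := by
  induction v with
  | nil => simp
  | cons b v ih =>
    rw [V_cons, ← mul_assoc, h.comm_V (hv b (by simp)) fun a ha =>
      ⟨hu a ha, Or.inl (huv a ha b (by simp))⟩, mul_assoc,
      ih (fun c hc => hv c (List.mem_cons_of_mem _ hc))
        (fun a ha c hc => huv a ha c (List.mem_cons_of_mem _ hc)), mul_assoc]

/-- destabilisation -/
theorem destab (h : Mk G s N) {n : ℕ} {u v : List ℕ} (hu : ∀ a ∈ u, a < n)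
    (hv : ∀ a ∈ v, a < n) :
    N (n + 1) (V (s (n + 1)) (u ++ n :: v)) = N n (V (s n) (u ++ v)) := by
  have h1 := h.stab n (v ++ u) (by
    intro a ha
    rcases List.mem_append.1 ha with ha | ha
    · exact hv a ha
    · exact hu a ha)
  rw [V_append, V_cons, ← mul_assoc, h.conj, ← mul_assoc, ← V_append, h1, V_append, V_append,
    h.conj]

theorem quad_word (h : Mk G s N) {n j : ℕ} (hj : j < n) (x y : List ℕ) :
    N n (V (s n) (x ++ j :: j :: y)) =
      N n (V (s n) (x ++ y)) + X * N n (V (s n) (x ++ j :: y)) := by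
  simp only [V_append, V_cons]
  rw [← mul_assoc, ← mul_assoc, h.quad hj, mul_assoc (V (s n) x) (s n j)]

theorem quad_word_right (h : Mk G s N) {n j : ℕ} (hj : j < n) (x y : List ℕ) (g : G n) :
    N n (V (s n) (x ++ j :: j :: y) * g) =
      N n (V (s n) (x ++ y) * g) + X * N n (V (s n) (x ++ j :: y) * g) := by
  simp only [V_append, V_cons]
  have := h.quad hj (V (s n) x) (V (s n) y * g)
  simpa only [mul_assoc] using this

/-- a positive word in which a generator is missing -/
theorem zero_of_missing (h : Mk G s N) : ∀ (n : ℕ) (w : List ℕ), (∀ a ∈ w, a < n) →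
    ∀ i < n, i ∉ w → N n (V (s n) w) = 0 := by
  intro n
  induction n with
  | zero => intro w _ i hi; omega
  | succ n ihn =>
    intro w hw i hi
    refine word_ind (Pr := fun w => i ∉ w → N (n + 1) (V (s (n + 1)) w) = 0) ?_ ?_ ?_ ?_ w hw
    · intro u v e hv hu
      rw [h.V_eqv e]
      exact hv fun h1 => hu ((e.mem_iff i).2 h1)
    · intro x j y hb h1 h2 h3
      simp only [List.mem_append, List.mem_cons, not_or] at h1 h2 h3
      rw [h.quad_word (hb j (by simp)), h1 ⟨h3.1, h3.2.2.2⟩, h2 ⟨h3.1, h3.2.1, h3.2.2.2⟩,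
        mul_zero, add_zero]
    · intro u hu _
      exact h.top_zero hu
    · intro u v hu hv h3
      simp only [List.mem_append, List.mem_cons, not_or] at h3
      rw [h.destab hu hv]
      refine ihn _ ?_ i (by omega) ?_
      · intro a ha
        rcases List.mem_append.1 ha with ha | ha
        · exact hu a ha
        · exact hv a ha
      · rw [List.mem_append, not_or]
        exact ⟨h3.1, h3.2.2⟩

theorem pos (h : Mk G s N) : ∀ (n : ℕ) (w : List ℕ), (∀ a ∈ w, a < n) →
    Le 0 (N n (V (s n) w)) := by
  intro n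
  induction n with
  | zero =>
    intro w hw
    have hw0 : w = [] := by
      cases w with
      | nil => rfl
      | cons a u => exact absurd (hw a (by simp)) (by omega)
    rw [hw0, V_nil, h.one]
    intro j
    rw [coeff_zero, coeff_one]
    split_ifs <;> simp
  | succ n ihn =>
    intro w hw
    refine word_ind (Pr := fun w => Le 0 (N (n + 1) (V (s (n + 1)) w))) ?_ ?_ ?_ ?_ w hw
    · intro u v e hv
      rw [h.V_eqv e]
      exact hv
    · intro x j y hb h1 h2
      rw [h.quad_word (hb j (by simp))]
      have := h1.add h2.zero_X_mul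
      rwa [add_zero] at this
    · intro u hu
      rw [h.top_zero hu]
      exact Le.refl 0
    · intro u v hu hv
      rw [h.destab hu hv]
      refine ihn _ ?_
      intro a ha
      rcases List.mem_append.1 ha with ha | ha
      · exact hu a ha
      · exact hv a ha

/-- destabilisation with an inverse letter -/
theorem destab_inv (h : Mk G s N) {n i : ℕ} (hi : i < n) {u v : List ℕ} (hu : ∀ a ∈ u, a < n)
    (hv : ∀ a ∈ v, a < n) :
    N (n + 1) (V (s (n + 1)) (u ++ n :: v) * (s (n + 1) i)⁻¹) =
      N n (V (s n) (u ++ v) * (s n i)⁻¹) := by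
  have hv' : ∀ a ∈ v ++ [i], a < n := by
    intro a ha
    rcases List.mem_append.1 ha with ha | ha
    · exact hv a ha
    · rw [List.mem_singleton.1 ha]
      exact hi
  rw [h.inv_eq' (by omega), h.inv_eq' hi, h.destab hu hv]
  have h1 := h.destab hu hv'
  have e1 : V (s (n + 1)) (u ++ n :: (v ++ [i])) = V (s (n + 1)) (u ++ n :: v) * s (n + 1) i := by
    simp [mul_assoc]
  have e2 : V (s n) (u ++ (v ++ [i])) = V (s n) (u ++ v) * s n i := by
    simp [mul_assoc]
  rw [e1, e2] at h1
  rw [h1]

/-- The key computation: a word with one top letter times the inverse of the top letter. -/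
theorem top_inv (h : Mk G s N) {k : ℕ} {u v w : List ℕ} (hu : ∀ a ∈ u, a < k + 1)
    (hv : ∀ a ∈ v, a < k) (hw : ∀ a ∈ w, a < k) :
    N (k + 2) (V (s (k + 2)) (u ++ (k + 1) :: (v ++ k :: w)) * (s (k + 2) (k + 1))⁻¹) =
      N (k + 1) (V (s (k + 1)) (u ++ (v ++ w))) := by
  have e1 : V (s (k + 2)) (u ++ (k + 1) :: (v ++ k :: w)) * s (k + 2) (k + 1) =
      V (s (k + 2)) ((u ++ v ++ [k]) ++ (k + 1) :: (k :: w)) := by
    have c1 : V (s (k + 2)) v * s (k + 2) (k + 1) = s (k + 2) (k + 1) * V (s (k + 2)) v :=
      h.comm_V (by omega) fun a ha => ⟨by have := hv a ha; omega, Or.inl (by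
        have := hv a ha; omega)⟩
    have c2 : V (s (k + 2)) w * s (k + 2) (k + 1) = s (k + 2) (k + 1) * V (s (k + 2)) w :=
      h.comm_V (by omega) fun a ha => ⟨by have := hw a ha; omega, Or.inl (by
        have := hw a ha; omega)⟩
    have b := h.braid (k + 2) k (by omega)
    simp only [V_append, V_cons, V_nil, mul_one, mul_assoc] at c1 c2 b ⊢
    rw [c2, ← mul_assoc (s (k + 2) (k + 1)) (V (s (k + 2)) v), ← c1]
    simp only [mul_assoc]
    rw [← mul_assoc (s (k + 2) (k + 1)) (s (k + 2) k) _,
      ← mul_assoc (s (k + 2) (k + 1) * s (k + 2) k), mul_assoc (s (k + 2) (k + 1)) (s (k + 2) k),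
      ← b]
    simp only [mul_assoc]
  have hw' : ∀ a ∈ v ++ k :: w, a < k + 1 := by
    intro a ha
    simp only [List.mem_append, List.mem_cons] at ha
    rcases ha with ha | ha | ha
    · have := hv a ha; omega
    · omega
    · have := hw a ha; omega
  rw [h.inv_eq' (by omega), e1, h.destab hu hw', h.destab (by
    intro a ha
    simp only [List.mem_append, List.mem_singleton] at ha
    rcases ha with (ha | ha) | ha
    · exact hu a ha
    · have := hv a ha; omega
    · omega) (by
    intro a ha
    rcases List.mem_cons.1 ha with ha | ha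
    · omega
    · have := hw a ha; omega)]
  have e2 : (u ++ v ++ [k]) ++ (k :: w) = (u ++ v) ++ k :: k :: w := by simp
  have e3 : u ++ (v ++ k :: w) = (u ++ v) ++ k :: w := by simp
  have e4 : u ++ (v ++ w) = (u ++ v) ++ w := by simp
  rw [e2, h.quad_word (by omega), e3, e4]
  ring

/-- the inverse of the top letter, no letter below it -/
theorem top_inv0 (h : Mk G s N) {k : ℕ} {u v : List ℕ} (hu : ∀ a ∈ u, a < k + 1)
    (hv : ∀ a ∈ v, a < k) :
    N (k + 2) (V (s (k + 2)) (u ++ (k + 1) :: v) * (s (k + 2) (k + 1))⁻¹) = 0 := by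
  have c1 : V (s (k + 2)) v * s (k + 2) (k + 1) = s (k + 2) (k + 1) * V (s (k + 2)) v :=
    h.comm_V (by omega) fun a ha => ⟨by have := hv a ha; omega, Or.inl (by
      have := hv a ha; omega)⟩
  have e1 : V (s (k + 2)) (u ++ (k + 1) :: v) * (s (k + 2) (k + 1))⁻¹ =
      V (s (k + 2)) (u ++ v) := by
    rw [V_append, V_cons, ← c1, V_append]
    group
  rw [e1]
  refine h.top_zero ?_
  intro a ha
  rcases List.mem_append.1 ha with ha | ha
  · exact hu a ha
  · have := hv a ha; omega

theorem pos_inv (h : Mk G s N) : ∀ (n : ℕ) (w : List ℕ), (∀ a ∈ w, a < n) → ∀ i < n,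
    Le 0 (N n (V (s n) w * (s n i)⁻¹)) := by
  intro n
  induction n with
  | zero => intro w _ i hi; omega
  | succ n ihn =>
    intro w hw i hi
    refine word_ind (Pr := fun w => Le 0 (N (n + 1) (V (s (n + 1)) w * (s (n + 1) i)⁻¹)))
      ?_ ?_ ?_ ?_ w hw
    · intro u v e hv
      rw [h.V_eqv e]
      exact hv
    · intro x j y hb h1 h2
      rw [h.quad_word_right (hb j (by simp))]
      have := h1.add h2.zero_X_mul
      rwa [add_zero] at this
    · intro u hu
      by_cases hin : i = n
      · subst hin
        rw [h.stab_inv i u hu]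
        exact h.pos i u hu
      · have e1 : N (n + 1) (V (s (n + 1)) u * (s (n + 1) i)⁻¹) = 0 := by
          rw [h.inv_eq' hi, h.top_zero hu, mul_zero, sub_zero]
          have e2 : V (s (n + 1)) u * s (n + 1) i = V (s (n + 1)) (u ++ [i]) := by simp
          rw [e2]
          refine h.top_zero ?_
          intro a ha
          rcases List.mem_append.1 ha with ha | ha
          · exact hu a ha
          · rw [List.mem_singleton.1 ha]; omega
        rw [e1]
        exact Le.refl 0
    · intro u v hu hv
      by_cases hin : i = n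
      · subst hin
        cases i with
        | zero =>
          have hu0 : u = [] := by
            cases u with
            | nil => rfl
            | cons a u => exact absurd (hu a (by simp)) (by omega)
          have hv0 : v = [] := by
            cases v with
            | nil => rfl
            | cons a u => exact absurd (hv a (by simp)) (by omega)
          subst hu0 hv0
          have e1 : V (s (0 + 1)) ([] ++ 0 :: []) * (s (0 + 1) 0)⁻¹ = V (s (0 + 1)) [] := by simp
          rw [e1, h.top_zero (by simp)]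
          exact Le.refl 0
        | succ k =>
          refine word_ind (n := k) (Pr := fun v => Le 0 (N (k + 1 + 1)
            (V (s (k + 1 + 1)) (u ++ (k + 1) :: v) * (s (k + 1 + 1) (k + 1))⁻¹)))
            ?_ ?_ ?_ ?_ v hv
          · intro v v' e hv'
            have e2 : V (s (k + 1 + 1)) v = V (s (k + 1 + 1)) v' := by
              apply h.V_eqv
              exact e.lift
            rw [V_append, V_cons, e2, ← V_cons, ← V_append]
            exact hv'
          · intro x j y hb h1 h2
            have hj := hb j (by simp)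
            have e2 : ∀ z : List ℕ, u ++ (k + 1) :: (x ++ z) = (u ++ (k + 1) :: x) ++ z := by
              intro z; simp
            rw [e2] at h1 h2 ⊢
            rw [h.quad_word_right (by omega)]
            have := h1.add h2.zero_X_mul
            rwa [add_zero] at this
          · intro v hv
            rw [h.top_inv0 hu hv]
            exact Le.refl 0
          · intro v w hv hw
            rw [h.top_inv hu hv hw]
            refine h.pos _ _ ?_
            intro a ha
            simp only [List.mem_append] at ha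
            rcases ha with ha | ha | ha
            · exact hu a ha
            · have := hv a ha; omega
            · have := hw a ha; omega
      · rw [h.destab_inv (by omega) hu hv]
        refine ihn _ ?_ i (by omega)
        intro a ha
        rcases List.mem_append.1 ha with ha | ha
        · exact hu a ha
        · exact hv a ha

/-- monotonicity: removing a letter -/
theorem mono (h : Mk G s N) {n i : ℕ} (hi : i < n) {x y : List ℕ} (hx : ∀ a ∈ x, a < n)
    (hy : ∀ a ∈ y, a < n) :
    Le (X * N n (V (s n) (x ++ y))) (N n (V (s n) (x ++ i :: y))) := by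
  have h1 := h.pos_inv n (y ++ x) (by
    intro a ha
    rcases List.mem_append.1 ha with ha | ha
    · exact hy a ha
    · exact hx a ha) i hi
  rw [h.inv_eq' hi] at h1
  have e1 : N n (V (s n) (y ++ x) * s n i) = N n (V (s n) (x ++ i :: y)) := by
    rw [V_append, mul_assoc, h.conj, V_append, V_cons, mul_assoc]
  have e2 : N n (V (s n) (y ++ x)) = N n (V (s n) (x ++ y)) := by
    rw [V_append, h.conj, V_append]
  rw [e1, e2] at h1
  intro j
  have := h1 j
  rw [coeff_zero, coeff_sub] at this
  omega

end Mk

end Pool.Agent.Helper76.Conway.Top
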