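import Mathlib

/-!
# Real polynomials with all roots in the sector of half angle 60 degrees are log-concave

If every complex root `u` of a real polynomial `Q` satisfies `Re u ≤ -|u|/2` (that is, `u = 0` or
`|arg(-u)| ≤ 60°`), then the coefficients of `Q`, divided by the leading one, are nonnegative and
form a log-concave sequence (all `2 × 2` minors of the Toeplitz matrix are nonnegative).
-/

namespace Pool.Agent.Helper76.Conway

open Polynomial

/-- Coefficients of a polynomial, indexed by all integers. -/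
noncomputable def cz {R : Type*} [Semiring R] (P : R[X]) (k : ℤ) : R :=
  if 0 ≤ k then P.coeff k.toNat else 0

theorem cz_natCast {R : Type*} [Semiring R] (P : R[X]) (n : ℕ) : cz P (n : ℤ) = P.coeff n := by
  simp [cz]

theorem cz_neg {R : Type*} [Semiring R] (P : R[X]) {k : ℤ} (hk : k < 0) : cz P k = 0 := by
  simp [cz, not_le.2 hk]

theorem cz_C_mul {R : Type*} [CommSemiring R] (P : R[X]) (a : R) (k : ℤ) :
    cz (C a * P) k = a * cz P k := by
  unfold cz; split_ifs <;> simp

theorem cz_X_mul {R : Type*} [CommSemiring R] (P : R[X]) (k : ℤ) :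
    cz (X * P) k = cz P (k - 1) := by
  rcases lt_trichotomy k 0 with h | h | h
  · rw [cz_neg _ h, cz_neg _ (by omega)]
  · subst h
    rw [cz_neg _ (show (0 : ℤ) - 1 < 0 by norm_num)]
    simp [cz]
  · obtain ⟨n, rfl⟩ : ∃ n : ℕ, k = ((n + 1 : ℕ) : ℤ) := ⟨(k - 1).toNat, by omega⟩
    rw [cz_natCast, coeff_X_mul]
    rw [show ((n + 1 : ℕ) : ℤ) - 1 = (n : ℤ) by push_cast; ring, cz_natCast]

theorem cz_add {R : Type*} [Semiring R] (P Q : R[X]) (k : ℤ) :
    cz (P + Q) k = cz P k + cz Q k := by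
  unfold cz; split_ifs <;> simp

/-- A nonnegative sequence all of whose relevant `2 × 2` Toeplitz minors are nonnegative. -/
def TP (a : ℤ → ℝ) : Prop :=
  (∀ i, 0 ≤ a i) ∧ ∀ i j, i ≤ j → a (i - 1) * a (j + 1) ≤ a i * a j

theorem TP.linear {a : ℤ → ℝ} (ha : TP a) {α : ℝ} (hα : 0 ≤ α) :
    TP (fun k => a (k - 1) + α * a k) := by
  obtain ⟨h0, h1⟩ := ha
  refine ⟨fun i => add_nonneg (h0 _) (mul_nonneg hα (h0 _)), fun i j hij => ?_⟩
  simp only
  have e1 := h1 (i - 1) (j - 1) (by omega)
  have e2 := h1 i j hij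
  -- a_i a_{j-1} ≥ a_{i-2} a_{j+1}
  have e3 : a (i - 2) * a (j + 1) ≤ a i * a (j - 1) := by
    rcases hij.lt_or_eq with h | h
    · have f1 := h1 i (j - 1) (by omega)
      have f2 := h1 (i - 1) j (by omega)
      ring_nf at f1 f2 ⊢
      linarith
    · subst h
      have f1 := h1 (i - 1) i (by omega)
      ring_nf at f1 ⊢
      linarith
  have e3' := mul_le_mul_of_nonneg_left e3 hα
  have e2' := mul_le_mul_of_nonneg_left e2 (mul_nonneg hα hα)
  ring_nf at e1 e2 e3 e2' e3' ⊢
  nlinarith

theorem TP.quadratic {a : ℤ → ℝ} (ha : TP a) {p q : ℝ} (hp : 0 ≤ p) (hq : 0 ≤ q)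
    (hpq : q ≤ p ^ 2) : TP (fun k => a (k - 2) + p * a (k - 1) + q * a k) := by
  obtain ⟨h0, h1⟩ := ha
  refine ⟨fun i => add_nonneg (add_nonneg (h0 _) (mul_nonneg hp (h0 _))) (mul_nonneg hq (h0 _)),
    fun i j hij => ?_⟩
  simp only
  -- squares
  have e1 := h1 (i - 2) (j - 2) (by omega)
  have e2 := h1 (i - 1) (j - 1) (by omega)
  have e3 := h1 i j hij
  -- skipping minors
  have key : ∀ i j : ℤ, i ≤ j → a (i - 2) * a (j + 1) ≤ a i * a (j - 1) := by
    intro i j hij
    rcases hij.lt_or_eq with h | h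
    · have f1 := h1 i (j - 1) (by omega)
      have f2 := h1 (i - 1) j (by omega)
      ring_nf at f1 f2 ⊢
      linarith
    · subst h
      have f1 := h1 (i - 1) i (by omega)
      ring_nf at f1 ⊢
      linarith
  have e4 := key i j hij
  have e5 := key (i - 1) (j - 1) (by omega)
  have e6 := h1 (i - 2) j (by omega)
  have e4' := mul_le_mul_of_nonneg_left e4 (mul_nonneg hq hp)
  have e5' := mul_le_mul_of_nonneg_left e5 hp
  have e6' := mul_le_mul_of_nonneg_left e6 hq
  have e2' := mul_le_mul_of_nonneg_left e2 (sq_nonneg p)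
  have e3' := mul_le_mul_of_nonneg_left e3 (mul_nonneg hq hq)
  have e7 : q * (a (i - 1) * a (j - 1)) + p ^ 2 * (a (i - 2) * a j) ≤
      q * (a i * a (j - 2)) + p ^ 2 * (a (i - 1) * a (j - 1)) := by
    rcases hij.lt_or_eq with h | h
    · rcases (show i = j - 1 ∨ i ≤ j - 2 by omega) with h' | h'
      · subst h'
        have : a (j - 1 - 2) * a j ≤ a (j - 1 - 1) * a (j - 1) := by
          have := h1 (j - 1 - 1) (j - 1) (by omega)
          ring_nf at this ⊢
          linarith
        have := mul_le_mul_of_nonneg_left this (sq_nonneg p)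
        ring_nf at this ⊢
        linarith
      · have g1 := h1 i (j - 2) (by omega)
        have g1' := mul_le_mul_of_nonneg_left g1 hq
        have g2 := h1 (i - 1) (j - 1) (by omega)
        have g2' := mul_le_mul_of_nonneg_left g2 (sq_nonneg p)
        ring_nf at g1' g2' ⊢
        linarith
    · subst h
      have g1 := h1 (i - 1) (i - 1) le_rfl
      have g2 := mul_le_mul_of_nonneg_left g1 (sub_nonneg.2 hpq)
      ring_nf at g2 ⊢
      linarith
  ring_nf at e1 e2' e3' e4' e5' e6' e7 ⊢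
  nlinarith

theorem tp_one : TP (cz (1 : ℝ[X])) := by
  have hc : ∀ k : ℤ, cz (1 : ℝ[X]) k = if k = 0 then 1 else 0 := by
    intro k
    unfold cz
    split_ifs with h1 h2 h2
    · subst h2; simp
    · rw [coeff_one, if_neg]; omega
    · omega
    · rfl
  refine ⟨fun i => ?_, fun i j hij => ?_⟩
  · rw [hc]; split_ifs <;> norm_num
  · simp only [hc]
    have : ¬ (i - 1 = 0 ∧ j + 1 = 0) := by omega
    by_cases h1 : i - 1 = 0
    · have h2 : ¬ (j + 1 = 0) := fun h => this ⟨h1, h⟩
      rw [if_neg h2, mul_zero]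
      split_ifs <;> norm_num
    · rw [if_neg h1, zero_mul]
      split_ifs <;> norm_num

theorem tp_of_sector : ∀ (n : ℕ) (Q : ℝ[X]), Q.natDegree = n → Q.Monic →
    (∀ u : ℂ, aeval u Q = 0 → u.re ≤ -‖u‖ / 2) → TP (cz Q) := by
  intro n
  induction n using Nat.strong_induction_on with
  | _ n ih =>
  intro Q hn hQ hroot
  rcases Nat.eq_zero_or_pos n with h0 | hpos
  · rw [h0] at hn
    have : Q = 1 := hQ.natDegree_eq_zero.1 hn
    rw [this]
    exact tp_one
  · have hdeg : 0 < Q.degree := by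
      rw [← natDegree_pos_iff_degree_pos]; omega
    obtain ⟨u, hu⟩ : ∃ u : ℂ, aeval u Q = 0 := by
      have hd : (Q.map (algebraMap ℝ ℂ)).degree ≠ 0 := by
        rw [degree_map]; exact hdeg.ne'
      obtain ⟨u, hu⟩ := IsAlgClosed.exists_root (Q.map (algebraMap ℝ ℂ)) hd
      refine ⟨u, ?_⟩
      rwa [IsRoot, eval_map_algebraMap] at hu
    have hure := hroot u hu
    by_cases him : u.im = 0
    · -- real root
      have hur : u = ((u.re : ℝ) : ℂ) := Complex.ext (by simp) (by simp [him])
      have hneg : u.re ≤ 0 := by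
        have := norm_nonneg u
        linarith
      have hr : Q.IsRoot u.re := by
        have h2 : aeval ((u.re : ℝ) : ℂ) Q = 0 := by rw [← hur]; exact hu
        have h3 : ((Q.eval u.re : ℝ) : ℂ) = 0 := by
          rw [← h2, aeval_def]
          exact (eval₂_at_apply (algebraMap ℝ ℂ) u.re).symm
        exact_mod_cast h3
      obtain ⟨Q1, hQ1⟩ := dvd_iff_isRoot.2 hr
      have hQ1m : Q1.Monic := by
        have := (monic_X_sub_C u.re).of_mul_monic_left (by rw [← hQ1]; exact hQ)
        exact this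
      have hd1 : Q1.natDegree < n := by
        have := (monic_X_sub_C u.re).natDegree_mul hQ1m
        rw [← hQ1, natDegree_X_sub_C, hn] at this
        omega
      have hTP := ih Q1.natDegree hd1 Q1 rfl hQ1m (fun v hv => hroot v (by
        rw [hQ1, map_mul, hv, mul_zero]))
      have := hTP.linear (α := -u.re) (by linarith)
      have hfun : cz Q = fun k => cz Q1 (k - 1) + -u.re * cz Q1 k := by
        funext k
        rw [hQ1, sub_mul, sub_eq_add_neg, cz_add, cz_X_mul, ← neg_mul, ← C_neg, cz_C_mul]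
      rw [hfun]
      exact this
    · -- pair of complex roots
      obtain ⟨Q1, hQ1⟩ := Polynomial.quadratic_dvd_of_aeval_eq_zero_im_ne_zero Q hu him
      set q : ℝ[X] := X ^ 2 - C (2 * u.re) * X + C (‖u‖ ^ 2) with hq
      have hqm : q.Monic := by
        rw [hq]; monicity!
      have hqd : q.natDegree = 2 := by
        rw [hq]; compute_degree!
      have hQ1m : Q1.Monic := hqm.of_mul_monic_left (by rw [← hQ1]; exact hQ)
      have hd1 : Q1.natDegree < n := by
        have := hqm.natDegree_mul hQ1m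
        rw [← hQ1, hqd, hn] at this
        omega
      have hTP := ih Q1.natDegree hd1 Q1 rfl hQ1m (fun v hv => hroot v (by
        rw [hQ1, map_mul, hv, mul_zero]))
      have hun := norm_nonneg u
      have := hTP.quadratic (p := -2 * u.re) (q := ‖u‖ ^ 2) (by linarith) (by positivity)
        (by nlinarith)
      have hfun : cz Q = fun k => cz Q1 (k - 2) + -2 * u.re * cz Q1 (k - 1) + ‖u‖ ^ 2 * cz Q1 k := by
        funext k
        have : q * Q1 = X * (X * Q1) + (C (-2 * u.re) * (X * Q1) + C (‖u‖ ^ 2) * Q1) := by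
          rw [hq]
          simp only [C_mul, C_neg, C_ofNat]
          ring
        rw [hQ1, this, cz_add, cz_add, cz_X_mul, cz_X_mul, cz_C_mul, cz_X_mul, cz_C_mul]
        rw [show k - 1 - 1 = k - 2 by ring]
        ring
      rw [hfun]
      exact this

theorem logConcave_of_sector {Q : ℝ[X]} (hQ : Q ≠ 0)
    (hroot : ∀ u : ℂ, aeval u Q = 0 → u.re ≤ -‖u‖ / 2) (k : ℤ) :
    cz Q (k + 1) * cz Q (k - 1) ≤ cz Q k ^ 2 := by
  set a := Q.leadingCoeff with ha
  have ha0 : a ≠ 0 := leadingCoeff_ne_zero.2 hQ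
  have hm : (C a⁻¹ * Q).Monic := by
    rw [Monic, leadingCoeff_mul, leadingCoeff_C, ← ha]
    exact inv_mul_cancel₀ ha0
  have h1 := tp_of_sector _ (C a⁻¹ * Q) rfl hm (fun u hu => hroot u (by
    rw [map_mul, aeval_C] at hu
    rcases mul_eq_zero.1 hu with h | h
    · exfalso
      have : (a⁻¹ : ℝ) ≠ 0 := inv_ne_zero ha0
      apply this
      exact (map_eq_zero (algebraMap ℝ ℂ)).1 h
    · exact h))
  have h2 := h1.2 k k le_rfl
  rw [cz_C_mul, cz_C_mul, cz_C_mul] at h2
  have h3 : 0 < a ^ 2 := by positivity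
  have e : a⁻¹ * a = 1 := inv_mul_cancel₀ ha0
  have h4 := mul_le_mul_of_nonneg_left h2 h3.le
  have l : a ^ 2 * (a⁻¹ * cz Q (k - 1) * (a⁻¹ * cz Q (k + 1))) = cz Q (k + 1) * cz Q (k - 1) := by
    field_simp
  have r : a ^ 2 * (a⁻¹ * cz Q k * (a⁻¹ * cz Q k)) = cz Q k ^ 2 := by
    field_simp
  rw [l, r] at h4
  exact h4

end Pool.Agent.Helper76.Conway
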