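import Mathlib
import Pool.Agent.Helper76.Conway.LogConc

/-!
# From zeros in `z` to log-concavity of every second coefficient
-/

namespace Pool.Agent.Helper76.Conway

open Polynomial

/-- Splitting off the parity: a polynomial with only exponents congruent to `e` modulo `2`. -/
theorem exists_half {P : ℝ[X]} {e : ℕ} (he : e < 2) (hpar : ∀ j, j % 2 ≠ e → P.coeff j = 0) :
    ∃ Q : ℝ[X], (∀ m, Q.coeff m = P.coeff (2 * m + e)) ∧
      ∀ z : ℂ, aeval z P = z ^ e * aeval (z ^ 2) Q := by
  have key : ∀ Q : ℝ[X], (∀ m, Q.coeff m = P.coeff (2 * m + e)) →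
      ∀ z : ℂ, aeval z P = z ^ e * aeval (z ^ 2) Q := by
    intro Q hQ z
    have hP : P = X ^ e * expand ℝ 2 Q := by
      ext j
      rw [coeff_X_pow_mul', coeff_expand (by norm_num)]
      split_ifs with h1 h2
      · rw [hQ]; congr 1; omega
      · apply hpar; omega
      · apply hpar; omega
    rw [hP, map_mul, map_pow, aeval_X, expand_aeval]
  interval_cases e
  · refine ⟨contract 2 P, fun m => ?_, key _ fun m => ?_⟩ <;>
      rw [coeff_contract (by norm_num)] <;> congr 1 <;> ring
  · refine ⟨contract 2 (divX P), fun m => ?_, key _ fun m => ?_⟩ <;>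
      rw [coeff_contract (by norm_num), coeff_divX] <;> congr 1 <;> ring

/-- If all exponents of `P` have the same parity and all complex zeros `z` of `P` satisfy
`3 (Re z)^2 ≤ (Im z)^2`, then every second coefficient gives a log-concave sequence. -/
theorem logConcave_main (P : ℤ[X]) (L : ℕ) (hpar : ∀ j, (j + L) % 2 = 1 → P.coeff j = 0)
    (hz : P ≠ 0 → ∀ z : ℂ, aeval z P = 0 → 3 * z.re ^ 2 ≤ z.im ^ 2) (j : ℤ) :
    cz P (j + 2) * cz P (j - 2) ≤ cz P j ^ 2 := by
  by_cases hP : P = 0
  · subst hP; simp [cz]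
  set PR : ℝ[X] := P.map (Int.castRingHom ℝ) with hPR
  have hPR0 : PR ≠ 0 := by
    rw [hPR, Ne, Polynomial.map_eq_zero_iff (RingHom.injective_int _)]; exact hP
  have hcz : ∀ k : ℤ, cz PR k = ((cz P k : ℤ) : ℝ) := by
    intro k; unfold cz; split_ifs <;> simp [hPR]
  set e := L % 2 with he
  obtain ⟨Q, hQ, hQe⟩ := exists_half (P := PR) (e := e) (Nat.mod_lt _ (by norm_num))
    (fun k hk => by
      rw [hPR, coeff_map, hpar k (by omega)]; simp)
  have hQ0 : Q ≠ 0 := by
    intro h
    apply hPR0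
    ext k
    rw [coeff_zero]
    by_cases hk : k % 2 = e
    · have := hQ (k / 2)
      rw [h, coeff_zero] at this
      rw [show k = 2 * (k / 2) + e by omega]
      exact this.symm
    · rw [hPR, coeff_map, hpar k (by omega)]; simp
  have hroot : ∀ u : ℂ, aeval u Q = 0 → u.re ≤ -‖u‖ / 2 := by
    intro u hu
    obtain ⟨z, hz2⟩ := IsAlgClosed.exists_pow_nat_eq u (n := 2) (by norm_num)
    have h1 : aeval z PR = 0 := by rw [hQe, hz2, hu, mul_zero]
    have h2 : aeval z P = 0 := by
      rw [← h1, hPR]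
      rw [aeval_def, aeval_def, eval₂_map]
      congr 1
    have h3 := hz hP z h2
    have h4 : ‖u‖ = z.re ^ 2 + z.im ^ 2 := by
      rw [← hz2, norm_pow, ← Complex.normSq_eq_norm_sq, Complex.normSq_apply]; ring
    have h5 : u.re = z.re ^ 2 - z.im ^ 2 := by
      rw [← hz2, sq, Complex.mul_re]; ring
    rw [h4, h5]; linarith
  have hQk : ∀ k : ℤ, cz Q k = ((cz P (2 * k + e) : ℤ) : ℝ) := by
    intro k
    rw [← hcz]
    by_cases hk : 0 ≤ k
    · obtain ⟨m, rfl⟩ := Int.eq_ofNat_of_zero_le hk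
      rw [show (2 * (m : ℤ) + (e : ℤ)) = ((2 * m + e : ℕ) : ℤ) by push_cast; ring,
        cz_natCast, cz_natCast, hQ]
    · rw [cz_neg _ (by omega), cz_neg _ (by omega)]
  by_cases hj : j % 2 = (e : ℤ)
  · have hj' : j = 2 * (j / 2) + e := by omega
    have := logConcave_of_sector hQ0 hroot (j / 2)
    rw [hQk, hQk, hQk] at this
    rw [show 2 * (j / 2 + 1) + (e : ℤ) = j + 2 by omega,
      show 2 * (j / 2 - 1) + (e : ℤ) = j - 2 by omega, ← hj'] at this
    exact_mod_cast this
  · have h0 : ∀ k : ℤ, k % 2 ≠ (e : ℤ) → cz P k = 0 := by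
      intro k hk
      by_cases hk0 : 0 ≤ k
      · obtain ⟨m, rfl⟩ := Int.eq_ofNat_of_zero_le hk0
        rw [cz_natCast]
        apply hpar
        omega
      · exact cz_neg _ (by omega)
    rw [h0 (j + 2) (by omega), zero_mul]
    positivity

end Pool.Agent.Helper76.Conway
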