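import Pool.Agent.Helper76.Conway.TopB

/-!
# Top coefficients of the Conway polynomial of positive braids: ratios of consecutive coefficients

`E P μ k` is the coefficient of `X ^ (μ - 2 k)`. `TopC P μ f`: the coefficients `E P μ k` start with `1, f` and satisfy
`(f - 7 k) * E k ≤ (k + 1) * E (k + 1) ≤ (f - k) * E k` for all `k`.
-/

set_option autoImplicit false

namespace Pool.Agent.Helper76.Conway.Top

open Polynomial

/-- the coefficient of `X ^ (μ - 2 k)` -/
noncomputable def E (P : ℤ[X]) (μ k : ℕ) : ℤ := if 2 * k ≤ μ then P.coeff (μ - 2 * k) else 0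

/-- The properties of the top coefficients. -/
structure TopC (P : ℤ[X]) (μ : ℕ) (f : ℤ) : Prop where
  deg : ∀ j, μ < j → P.coeff j = 0
  par : ∀ j, (j + μ) % 2 = 1 → P.coeff j = 0
  e0 : E P μ 0 = 1
  e1 : E P μ 1 = f
  up : ∀ k : ℕ, ((k : ℤ) + 1) * E P μ (k + 1) ≤ (f - k) * E P μ k
  lo : ∀ k : ℕ, (f - 7 * k) * E P μ k ≤ ((k : ℤ) + 1) * E P μ (k + 1)

theorem E_nonneg {P : ℤ[X]} (hP : Le 0 P) (μ k : ℕ) : 0 ≤ E P μ k := by
  unfold E
  split_ifs
  · have := hP (μ - 2 * k)
    rwa [coeff_zero] at this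
  · exact le_refl _

theorem E_quad {P Q : ℤ[X]} {μ : ℕ} (k : ℕ) :
    E (P + X * Q) (μ + 2) (k + 1) = E P μ k + E Q (μ + 1) (k + 1) := by
  unfold E
  by_cases h1 : 2 * k ≤ μ
  · rw [if_pos (by omega), if_pos h1, coeff_add]
    have e1 : μ + 2 - 2 * (k + 1) = μ - 2 * k := by omega
    rw [e1]
    by_cases h2 : 2 * (k + 1) ≤ μ + 1
    · rw [if_pos h2]
      obtain ⟨j, hj⟩ : ∃ j, μ - 2 * k = j + 1 := ⟨μ - 2 * k - 1, by omega⟩
      have e2 : μ + 1 - 2 * (k + 1) = j := by omega
      rw [hj, coeff_X_mul, e2]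
    · rw [if_neg h2]
      have e2 : μ - 2 * k = 0 := by omega
      rw [e2, mul_coeff_zero, coeff_X_zero, zero_mul]
  · rw [if_neg (by omega), if_neg h1, if_neg (by omega), add_zero]

theorem E_quad0 {P Q : ℤ[X]} {μ : ℕ} (hP : P.coeff (μ + 2) = 0) :
    E (P + X * Q) (μ + 2) 0 = E Q (μ + 1) 0 := by
  unfold E
  rw [if_pos (by omega), if_pos (by omega), coeff_add]
  change P.coeff (μ + 2) + (X * Q).coeff (μ + 1 + 1) = Q.coeff (μ + 1)
  rw [hP, coeff_X_mul, zero_add]

theorem E_X_mul {Q : ℤ[X]} {μ : ℕ} (k : ℕ) : E (X * Q) (μ + 1) k = E Q μ k := by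
  unfold E
  by_cases h1 : 2 * k ≤ μ
  · rw [if_pos (by omega), if_pos h1]
    have e1 : μ + 1 - 2 * k = (μ - 2 * k) + 1 := by omega
    rw [e1, coeff_X_mul]
  · rw [if_neg h1]
    split_ifs with h2
    · have e1 : μ + 1 - 2 * k = 0 := by omega
      rw [e1, mul_coeff_zero, coeff_X_zero, zero_mul]
    · rfl

/-- monotonicity of the top coefficients -/
theorem E_mono {P Q : ℤ[X]} {μ : ℕ} (hQ : Le 0 Q) (h : Le (X * P) Q) (k : ℕ) :
    E P μ k ≤ E Q (μ + 1) k := by
  rw [← E_X_mul]
  unfold E
  split_ifs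
  · exact h _
  · exact le_refl _

/-- bounded increments of the top coefficients -/
theorem E_incr {P Q : ℤ[X]} {μ : ℕ} (hP : Le 0 P) (h : Le (X * (Q - X * P)) (3 * P)) (k : ℕ) :
    E Q (μ + 1) (k + 1) ≤ E P μ (k + 1) + 3 * E P μ k := by
  have h0 := E_nonneg hP μ k
  have h1 := E_nonneg hP μ (k + 1)
  by_cases h2 : 2 * k + 1 ≤ μ
  · obtain ⟨j, hj⟩ : ∃ j, μ = 2 * k + 1 + j := ⟨μ - (2 * k + 1), by omega⟩
    have h3 := h (j + 1)
    rw [coeff_X_mul, coeff_sub] at h3
    have e1 : E Q (μ + 1) (k + 1) = Q.coeff j := by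
      unfold E
      rw [if_pos (by omega)]
      congr 1
      omega
    have e2 : E P μ k = P.coeff (j + 1) := by
      unfold E
      rw [if_pos (by omega)]
      congr 1
      omega
    have e3 : E P μ (k + 1) = (X * P).coeff j := by
      unfold E
      cases j with
      | zero => rw [if_neg (by omega), mul_coeff_zero, coeff_X_zero, zero_mul]
      | succ j =>
        rw [if_pos (by omega), coeff_X_mul]
        congr 1
        omega
    have e4 : (3 * P).coeff (j + 1) = 3 * P.coeff (j + 1) := by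
      have : (3 : ℤ[X]) = C 3 := rfl
      rw [this, coeff_C_mul]
    rw [e1, e2, e3]
    rw [e4] at h3
    omega
  · have e1 : E Q (μ + 1) (k + 1) = 0 := by
      unfold E
      rw [if_neg (by omega)]
    rw [e1]
    omega

theorem TopC.X_mul {Q : ℤ[X]} {μ : ℕ} {f : ℤ} (h : TopC Q μ f) : TopC (X * Q) (μ + 1) f := by
  refine ⟨?_, ?_, ?_, ?_, ?_, ?_⟩
  · intro j hj
    obtain ⟨i, rfl⟩ : ∃ i, j = i + 1 := ⟨j - 1, by omega⟩
    rw [coeff_X_mul]
    exact h.deg i (by omega)
  · intro j hj
    cases j with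
    | zero => rw [mul_coeff_zero, coeff_X_zero, zero_mul]
    | succ i =>
      rw [coeff_X_mul]
      exact h.par i (by omega)
  · rw [E_X_mul]; exact h.e0
  · rw [E_X_mul]; exact h.e1
  · intro k
    rw [E_X_mul, E_X_mul]
    exact h.up k
  · intro k
    rw [E_X_mul, E_X_mul]
    exact h.lo k

/-- The induction step. -/
theorem TopC.step {P Q : ℤ[X]} {μ : ℕ} {f F : ℤ} (hP0 : Le 0 P) (hQ0 : Le 0 Q)
    (hP : TopC P μ f) (hQ : TopC Q (μ + 1) F) (hm : Le (X * P) Q)
    (hb : Le (X * (Q - X * P)) (3 * P)) : TopC (P + X * Q) (μ + 2) (F + 1) := by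
  have mono := fun k => E_mono (μ := μ) hQ0 hm k
  have incr := fun k => E_incr (μ := μ) hP0 hb k
  have h1 : f ≤ F := by
    have := mono 1
    rwa [hP.e1, hQ.e1] at this
  have h2 : F ≤ f + 3 := by
    have := incr 0
    rw [zero_add, hP.e0, hP.e1, hQ.e1] at this
    omega
  have e0 : E (P + X * Q) (μ + 2) 0 = 1 := by
    rw [E_quad0 (hP.deg _ (by omega)), hQ.e0]
  have e1 : E (P + X * Q) (μ + 2) 1 = F + 1 := by
    have := E_quad (P := P) (Q := Q) (μ := μ) 0
    rw [zero_add] at this
    rw [this, hP.e0, hQ.e1]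
    ring
  refine ⟨?_, ?_, e0, e1, ?_, ?_⟩
  · intro j hj
    obtain ⟨i, rfl⟩ : ∃ i, j = i + 1 := ⟨j - 1, by omega⟩
    rw [coeff_add, coeff_X_mul, hP.deg _ (by omega), hQ.deg _ (by omega), add_zero]
  · intro j hj
    rw [coeff_add, hP.par j (by omega), zero_add]
    cases j with
    | zero => rw [mul_coeff_zero, coeff_X_zero, zero_mul]
    | succ i =>
      rw [coeff_X_mul]
      exact hQ.par i (by omega)
  · intro k
    cases k with
    | zero =>
      rw [zero_add, e0, e1]
      push_cast
      omega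
    | succ k =>
      rw [E_quad (k + 1), E_quad k]
      have a1 := hQ.up (k + 1)
      have a2 := hP.up k
      have a3 := mono (k + 1)
      have a4 := mul_nonneg (sub_nonneg.2 h1) (E_nonneg hP0 μ k)
      push_cast at a1 a2 ⊢
      nlinarith
  · intro k
    cases k with
    | zero =>
      rw [zero_add, e0, e1]
      push_cast
      omega
    | succ k =>
      rw [E_quad (k + 1), E_quad k]
      have a1 := hQ.lo (k + 1)
      have a2 := hP.lo k
      have a3 := incr k
      have a4 := mul_nonneg (sub_nonneg.2 h2) (E_nonneg hP0 μ k)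
      push_cast at a1 a2 ⊢
      nlinarith

namespace Mk

variable {G : ℕ → Type} [∀ n, Group (G n)] {s : ∀ n, ℕ → G n} {N : ∀ n, G n → ℤ[X]}

/-- **The top coefficients for a positive word containing all generators.** -/
theorem topC (h : Mk G s N) : ∀ (n : ℕ) (w : List ℕ), (∀ a ∈ w, a < n) → (∀ a < n, a ∈ w) →
    ∃ μ, μ + n = w.length ∧ TopC (N n (V (s n) w)) μ (FF n w) := by
  intro n
  induction n with
  | zero =>
    intro w hw _
    have hw0 : w = [] := by
      cases w with
      | nil => rfl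
      | cons a u => exact absurd (hw a (by simp)) (by omega)
    subst hw0
    refine ⟨0, rfl, ?_⟩
    rw [V_nil, h.one]
    have hf : (FF 0 [] : ℤ) = 0 := by simp [FF]
    rw [hf]
    have hE : ∀ k, E (1 : ℤ[X]) 0 (k + 1) = 0 := by
      intro k
      unfold E
      rw [if_neg (by omega)]
    have hE0 : E (1 : ℤ[X]) 0 0 = 1 := by
      unfold E
      simp
    refine ⟨?_, ?_, hE0, hE 0, ?_, ?_⟩
    · intro j hj
      rw [coeff_one, if_neg (by omega)]
    · intro j hj
      rw [coeff_one, if_neg (by omega)]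
    · intro k
      rw [hE]
      cases k with
      | zero => simp
      | succ k => rw [hE]; simp
    · intro k
      rw [hE]
      cases k with
      | zero => simp
      | succ k => rw [hE]; simp
  | succ n ihn =>
    intro w hw hf
    refine word_ind (Pr := fun w => (∀ a < n + 1, a ∈ w) →
      ∃ μ, μ + (n + 1) = w.length ∧ TopC (N (n + 1) (V (s (n + 1)) w)) μ (FF (n + 1) w))
      ?_ ?_ ?_ ?_ w hw hf
    · intro u v e hv hu
      rw [h.V_eqv e, e.length_eq, e.FF_eq]
      exact hv fun a ha => (e.mem_iff a).1 (hu a ha)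
    · intro x j y hb h1 h2 h3
      have hj := hb j (by simp)
      have hx : ∀ a ∈ x, a < n + 1 := fun a ha => hb a (by simp [ha])
      have hy : ∀ a ∈ y, a < n + 1 := fun a ha => hb a (by simp [ha])
      have hf1 : ∀ a < n + 1, a ∈ x ++ j :: y := by
        intro a ha
        have := h3 a ha
        simp only [List.mem_append, List.mem_cons] at this ⊢
        tauto
      obtain ⟨μ1, hμ1, hQ⟩ := h2 hf1
      have hFF : FF (n + 1) (x ++ j :: j :: y) = FF (n + 1) (x ++ j :: y) +
          if j ∈ x ++ y then 1 else 0 := by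
        rw [FF_append, FF_append _ x (j :: y), List.cons_append, List.cons_append, FF_dup _ hj]
        congr 1
        have e1 : j ∈ y ++ x ↔ j ∈ x ++ y := by
          simp only [List.mem_append]
          tauto
        simp only [e1]
      rw [h.quad_word hj]
      by_cases hjm : j ∈ x ++ y
      · have hf2 : ∀ a < n + 1, a ∈ x ++ y := by
          intro a ha
          by_cases haj : a = j
          · rw [haj]; exact hjm
          · have := h3 a ha
            simp only [List.mem_append, List.mem_cons] at this ⊢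
            tauto
        obtain ⟨μ, hμ, hP⟩ := h1 hf2
        have hμ' : μ1 = μ + 1 := by
          simp only [List.length_append, List.length_cons] at hμ hμ1
          omega
        subst hμ'
        refine ⟨μ + 2, ?_, ?_⟩
        · simp only [List.length_append, List.length_cons] at hμ ⊢
          omega
        · rw [hFF, if_pos hjm]
          push_cast
          have hbd := h.bound (n + 1) (y ++ x) (mem_app hy hx) (by
            intro a ha
            have := hf2 a ha
            simp only [List.mem_append] at this ⊢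
            tauto) j hj
          refine hP.step (h.pos _ _ (mem_app hx hy)) (h.pos _ _ ?_) hQ (h.mono hj hx hy) ?_
          · intro a ha
            simp only [List.mem_append, List.mem_cons] at ha
            exact hb a (by simp only [List.mem_append, List.mem_cons]; tauto)
          · have e1 : N (n + 1) (V (s (n + 1)) (y ++ x) * s (n + 1) j) =
                N (n + 1) (V (s (n + 1)) (x ++ j :: y)) := by
              rw [V_append, mul_assoc, h.conj, V_append, V_cons, mul_assoc]
            have e2 : N (n + 1) (V (s (n + 1)) (y ++ x)) =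
                N (n + 1) (V (s (n + 1)) (x ++ y)) := by
              rw [V_append, h.conj, V_append]
            rw [h.inv_eq' hj, e1, e2] at hbd
            exact hbd
      · have z := h.zero_of_missing (n + 1) (x ++ y) (mem_app hx hy) j hj hjm
        rw [z, zero_add, hFF, if_neg hjm, add_zero]
        refine ⟨μ1 + 1, ?_, hQ.X_mul⟩
        simp only [List.length_append, List.length_cons] at hμ1 ⊢
        omega
    · intro u hu hf
      exact absurd (hu n (hf n (Nat.lt_succ_self n))) (lt_irrefl n)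
    · intro u v hu hv hf
      rw [h.destab hu hv]
      obtain ⟨μ, hμ, hP⟩ := ihn (u ++ v) (mem_app hu hv) (by
        intro a ha
        have := hf a (by omega)
        simp only [List.mem_append, List.mem_cons] at this ⊢
        rcases this with h1 | h1 | h1
        · exact Or.inl h1
        · omega
        · exact Or.inr h1)
      have hFF : FF (n + 1) (u ++ n :: v) = FF n (u ++ v) := by
        rw [FF_append, List.cons_append, FF_destab (mem_app hv hu), FF_append]
      rw [hFF]
      refine ⟨μ, ?_, hP⟩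
      simp only [List.length_append, List.length_cons] at hμ ⊢
      omega

end Mk

/-- Log-concavity near the top. -/
theorem TopC.logConcave {P : ℤ[X]} {μ : ℕ} {f : ℤ} (h : TopC P μ f) (hP : Le 0 P) (k : ℕ)
    (hk : 6 * (k + 1 : ℤ) ^ 2 ≤ f + 7) :
    E P μ (k + 2) * E P μ k ≤ E P μ (k + 1) ^ 2 := by
  have hA := E_nonneg hP μ k
  have hB := E_nonneg hP μ (k + 1)
  have hC := E_nonneg hP μ (k + 2)
  have hf : 0 ≤ f := by
    have := E_nonneg hP μ 1
    rwa [h.e1] at this
  have h1 := h.up (k + 1)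
  have h2 := h.lo k
  push_cast at h1 h2
  cases k with
  | zero =>
    rw [h.e0, mul_one]
    have h3 := h.e1
    simp only [zero_add] at h1 h3 hB ⊢
    rw [h3] at h1 hB ⊢
    push_cast at h1
    nlinarith
  | succ k =>
    obtain ⟨A, hAe⟩ : ∃ A, A = E P μ (k + 1) := ⟨_, rfl⟩
    obtain ⟨B, hBe⟩ : ∃ B, B = E P μ (k + 1 + 1) := ⟨_, rfl⟩
    obtain ⟨C, hCe⟩ : ∃ C, C = E P μ (k + 1 + 2) := ⟨_, rfl⟩
    have h1' : ((k : ℤ) + 3) * C ≤ (f - (k + 2)) * B := by
      rw [hBe, hCe]
      push_cast at h1
      have e : k + 1 + 2 = k + 1 + 1 + 1 := rfl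
      rw [e]
      linarith
    have h2' : (f - 7 * (k + 1)) * A ≤ ((k : ℤ) + 2) * B := by
      rw [hAe, hBe]
      push_cast at h2
      linarith
    rw [← hAe] at hA
    rw [← hBe] at hB
    rw [← hCe] at hC
    rw [← hAe, ← hBe, ← hCe]
    push_cast at hk
    obtain ⟨t, ht⟩ : ∃ t : ℤ, t = k := ⟨_, rfl⟩
    rw [← ht] at h1' h2' hk
    have ht0 : 0 ≤ t := by rw [ht]; exact Int.natCast_nonneg k
    have hp : 0 < f - 7 * (t + 1) := by nlinarith
    have hq : 0 ≤ f - (t + 2) := by nlinarith
    have h3 : (f - 7 * (t + 1)) * A * ((t + 3) * C) ≤ (t + 2) * B * ((f - (t + 2)) * B) :=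
      mul_le_mul h2' h1' (mul_nonneg (by omega) hC) (mul_nonneg (by omega) hB)
    have h4 : (t + 2) * (f - (t + 2)) ≤ (t + 3) * (f - 7 * (t + 1)) := by nlinarith
    have h5 : (t + 3) * (f - 7 * (t + 1)) * (C * A) ≤ (t + 3) * (f - 7 * (t + 1)) * B ^ 2 := by
      have h6 := mul_le_mul_of_nonneg_right h4 (sq_nonneg B)
      nlinarith
    exact le_of_mul_le_mul_left h5 (mul_pos (by omega) hp)

end Pool.Agent.Helper76.Conway.Top
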