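import Mathlib

/-!
# Contraction for the reduced Burau matrices of the three-strand braid group

`A x 0`, `A x 1` are the reduced Burau matrices of the two generators, normalised so that
`A i ^ 2 = 1 + (x - 1/x) A i`. For `|x| > 1` and `x - 1/x` in the double sector
`(Im z)^2 < 3 (Re z)^2` a word using both letters has no eigenvalue `x ^ length`.
-/

namespace Pool.Agent.Helper76.Conway

open Matrix

/-- The two (normalised) reduced Burau matrices. -/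
noncomputable def A (x : ℂ) : Fin 2 → Matrix (Fin 2) (Fin 2) ℂ
  | 0 => !![-x⁻¹, -1; 0, x]
  | 1 => !![x, 0; -1, -x⁻¹]

/-- The Hermitian forms used as Lyapunov functions. -/
noncomputable def Hf (w : ℂ) (E : ℝ) : Fin 2 → (Fin 2 → ℂ) → ℝ
  | 0, v => ‖w * v 0 + v 1‖ ^ 2 + E * ‖v 1‖ ^ 2
  | 1, v => ‖w * v 1 + v 0‖ ^ 2 + E * ‖v 0‖ ^ 2

theorem A_sq {x : ℂ} (hx : x ≠ 0) (i : Fin 2) :
    A x i * A x i = 1 + (x - x⁻¹) • A x i := by
  fin_cases i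
  · ext a b; fin_cases a <;> fin_cases b <;> simp [A, Matrix.mul_apply, Fin.sum_univ_two] <;>
      field_simp <;> ring
  · ext a b; fin_cases a <;> fin_cases b <;> simp [A, Matrix.mul_apply, Fin.sum_univ_two] <;>
      field_simp <;> ring

theorem A_braid {x : ℂ} (hx : x ≠ 0) :
    A x 0 * A x 1 * A x 0 = A x 1 * A x 0 * A x 1 := by
  ext a b; fin_cases a <;> fin_cases b <;> simp [A, Matrix.mul_apply, Fin.sum_univ_two, hx]

theorem A_det {x : ℂ} (hx : x ≠ 0) (i : Fin 2) : (A x i).det = -1 := by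
  fin_cases i <;> simp [A, Matrix.det_fin_two, hx]

section contraction

variable {x : ℂ} {w : ℂ} {E : ℝ}

theorem Hf_zero_apply (hx : x ≠ 0) (hw : w = x + x⁻¹) (v : Fin 2 → ℂ) :
    Hf w E 0 (A x 0 *ᵥ v) =
      (‖x‖ ^ 2)⁻¹ * ‖w * v 0 + v 1‖ ^ 2 + ‖x‖ ^ 2 * (E * ‖v 1‖ ^ 2) := by
  have h0 : (A x 0 *ᵥ v) 0 = -x⁻¹ * v 0 - v 1 := by
    simp [A, Matrix.mulVec, dotProduct, Fin.sum_univ_two]; ring
  have h1 : (A x 0 *ᵥ v) 1 = x * v 1 := by
    simp [A, Matrix.mulVec, dotProduct, Fin.sum_univ_two]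
  have h2 : w * (-x⁻¹ * v 0 - v 1) + x * v 1 = -x⁻¹ * (w * v 0 + v 1) := by
    rw [hw]; field_simp; ring
  simp only [Hf, h0, h1, h2, norm_mul, norm_neg, norm_inv, mul_pow, inv_pow]
  ring

theorem Hf_one_apply (hx : x ≠ 0) (hw : w = x + x⁻¹) (v : Fin 2 → ℂ) :
    Hf w E 1 (A x 1 *ᵥ v) =
      (‖x‖ ^ 2)⁻¹ * ‖w * v 1 + v 0‖ ^ 2 + ‖x‖ ^ 2 * (E * ‖v 0‖ ^ 2) := by
  have h0 : (A x 1 *ᵥ v) 1 = -x⁻¹ * v 1 - v 0 := by
    simp [A, Matrix.mulVec, dotProduct, Fin.sum_univ_two]; ring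
  have h1 : (A x 1 *ᵥ v) 0 = x * v 0 := by
    simp [A, Matrix.mulVec, dotProduct, Fin.sum_univ_two]
  have h2 : w * (-x⁻¹ * v 1 - v 0) + x * v 0 = -x⁻¹ * (w * v 1 + v 0) := by
    rw [hw]; field_simp; ring
  simp only [Hf, h0, h1, h2, norm_mul, norm_neg, norm_inv, mul_pow, inv_pow]
  ring

/-- The key Hermitian inequality in scalar form. -/
theorem key_scalar {q W : ℝ} (w y r : ℂ) (hW : W = ‖w‖ ^ 2) (hE : E = (W - 1) * (1 + q) / 2)
    (hc : 2 * ‖w - q * (starRingEnd ℂ) w‖ < (1 - q) * (W + 1)) (hne : y ≠ 0 ∨ r ≠ 0) :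
    q * ‖w * y + r‖ ^ 2 + E * ‖r‖ ^ 2 < ‖w * r + y‖ ^ 2 + E * ‖y‖ ^ 2 := by
  have e1 : ‖w * y + r‖ ^ 2 = W * ‖y‖ ^ 2 + ‖r‖ ^ 2 + 2 * (w * y * (starRingEnd ℂ) r).re := by
    rw [hW]
    simp only [← Complex.normSq_eq_norm_sq, Complex.normSq_add, Complex.normSq_mul]
  have e2 : ‖w * r + y‖ ^ 2 = W * ‖r‖ ^ 2 + ‖y‖ ^ 2 + 2 * (w * r * (starRingEnd ℂ) y).re := by
    rw [hW]
    simp only [← Complex.normSq_eq_norm_sq, Complex.normSq_add, Complex.normSq_mul]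
  have e3 : (w * y * (starRingEnd ℂ) r).re = ((starRingEnd ℂ) w * (r * (starRingEnd ℂ) y)).re := by
    simp [Complex.mul_re, Complex.mul_im]; ring
  have e4 : (w * r * (starRingEnd ℂ) y).re - q * (w * y * (starRingEnd ℂ) r).re =
      ((w - q * (starRingEnd ℂ) w) * (r * (starRingEnd ℂ) y)).re := by
    rw [e3]
    simp [Complex.mul_re, Complex.mul_im]; ring
  have e5 : |((w - q * (starRingEnd ℂ) w) * (r * (starRingEnd ℂ) y)).re| ≤
      ‖w - q * (starRingEnd ℂ) w‖ * (‖r‖ * ‖y‖) := by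
    refine (Complex.abs_re_le_norm _).trans ?_
    rw [norm_mul, norm_mul, RCLike.norm_conj]
  have e6 := (abs_le.1 e5).1
  have hyr : 0 < ‖y‖ ^ 2 + ‖r‖ ^ 2 := by
    rcases hne with h | h
    · have := norm_pos_iff.2 h; positivity
    · have := norm_pos_iff.2 h; positivity
  have e7 : 2 * (‖r‖ * ‖y‖) ≤ ‖y‖ ^ 2 + ‖r‖ ^ 2 := by nlinarith [sq_nonneg (‖r‖ - ‖y‖)]
  have e8 := mul_le_mul_of_nonneg_left e7 (norm_nonneg (w - q * (starRingEnd ℂ) w))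
  have e9 := mul_lt_mul_of_pos_right hc hyr
  rw [e1, e2, hE]
  nlinarith

theorem Hf_nonneg (hE : 0 ≤ E) (i : Fin 2) (v : Fin 2 → ℂ) : 0 ≤ Hf w E i v := by
  fin_cases i <;> simp only [Hf] <;> positivity

theorem step_le (hx : 1 < ‖x‖) (hw : w = x + x⁻¹) (i : Fin 2) (v : Fin 2 → ℂ) :
    Hf w E i (A x i *ᵥ v) ≤ ‖x‖ ^ 2 * Hf w E i v := by
  have hx0 : x ≠ 0 := norm_pos_iff.1 (by linarith)
  have h1 : (‖x‖ ^ 2)⁻¹ ≤ ‖x‖ ^ 2 := by
    have : 1 ≤ ‖x‖ ^ 2 := by nlinarith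
    exact (inv_le_one_of_one_le₀ this).trans this
  fin_cases i
  · change Hf w E 0 (A x 0 *ᵥ v) ≤ ‖x‖ ^ 2 * Hf w E 0 v
    rw [Hf_zero_apply hx0 hw]
    simp only [Hf]
    have := mul_le_mul_of_nonneg_right h1 (sq_nonneg ‖w * v 0 + v 1‖)
    nlinarith
  · change Hf w E 1 (A x 1 *ᵥ v) ≤ ‖x‖ ^ 2 * Hf w E 1 v
    rw [Hf_one_apply hx0 hw]
    simp only [Hf]
    have := mul_le_mul_of_nonneg_right h1 (sq_nonneg ‖w * v 1 + v 0‖)
    nlinarith

theorem step_lt (hx : 1 < ‖x‖) (hw : w = x + x⁻¹)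
    (hE : E = (‖w‖ ^ 2 - 1) * (1 + (‖x‖ ^ 4)⁻¹) / 2)
    (hc : 2 * ‖w - ((‖x‖ ^ 4)⁻¹ : ℝ) * (starRingEnd ℂ) w‖ < (1 - (‖x‖ ^ 4)⁻¹) * (‖w‖ ^ 2 + 1))
    {i j : Fin 2} (hij : i ≠ j) {v : Fin 2 → ℂ} (hv : v ≠ 0) :
    Hf w E i (A x i *ᵥ v) < ‖x‖ ^ 2 * Hf w E j v := by
  have hx0 : x ≠ 0 := norm_pos_iff.1 (by linarith)
  have hN : 0 < ‖x‖ ^ 2 := by nlinarith
  have hq : (‖x‖ ^ 2)⁻¹ = ‖x‖ ^ 2 * (‖x‖ ^ 4)⁻¹ := by
    field_simp
  have hne : v 0 ≠ 0 ∨ v 1 ≠ 0 := by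
    by_contra h
    push Not at h
    apply hv
    ext k; fin_cases k <;> simp [h.1, h.2]
  fin_cases i <;> fin_cases j
  · exact absurd rfl hij
  · change Hf w E 0 (A x 0 *ᵥ v) < ‖x‖ ^ 2 * Hf w E 1 v
    rw [Hf_zero_apply hx0 hw, hq]
    simp only [Hf]
    have := key_scalar w (v 0) (v 1) rfl hE hc hne
    nlinarith
  · change Hf w E 1 (A x 1 *ᵥ v) < ‖x‖ ^ 2 * Hf w E 0 v
    rw [Hf_one_apply hx0 hw, hq]
    simp only [Hf]
    have := key_scalar w (v 1) (v 0) rfl hE hc hne.symm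
    nlinarith
  · exact absurd rfl hij

theorem A_mulVec_ne_zero (hx : x ≠ 0) (i : Fin 2) {v : Fin 2 → ℂ} (hv : v ≠ 0) :
    A x i *ᵥ v ≠ 0 := by
  intro h
  have : (A x i).det = 0 := Matrix.exists_mulVec_eq_zero_iff.1 ⟨v, hv, h⟩
  rw [A_det hx] at this
  norm_num at this

/-- Contraction along a word. -/
theorem word_contract (hx : 1 < ‖x‖) (hw : w = x + x⁻¹)
    (hE : E = (‖w‖ ^ 2 - 1) * (1 + (‖x‖ ^ 4)⁻¹) / 2)
    (hc : 2 * ‖w - ((‖x‖ ^ 4)⁻¹ : ℝ) * (starRingEnd ℂ) w‖ < (1 - (‖x‖ ^ 4)⁻¹) * (‖w‖ ^ 2 + 1))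
    (j : Fin 2) {v : Fin 2 → ℂ} (hv : v ≠ 0) (l : List (Fin 2)) :
    (l.map (A x)).prod *ᵥ v ≠ 0 ∧
    Hf w E (l.headD j) ((l.map (A x)).prod *ᵥ v) ≤ (‖x‖ ^ 2) ^ l.length * Hf w E j v ∧
    ((∃ a ∈ l, a ≠ j) →
      Hf w E (l.headD j) ((l.map (A x)).prod *ᵥ v) < (‖x‖ ^ 2) ^ l.length * Hf w E j v) := by
  have hx0 : x ≠ 0 := norm_pos_iff.1 (by linarith)
  have hN : 0 < ‖x‖ ^ 2 := by nlinarith
  induction l with
  | nil => simp [hv]
  | cons a l ih =>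
    obtain ⟨h1, h2, h3⟩ := ih
    have hprod : ((a :: l).map (A x)).prod *ᵥ v = A x a *ᵥ ((l.map (A x)).prod *ᵥ v) := by
      rw [List.map_cons, List.prod_cons, Matrix.mulVec_mulVec]
    have hhead : (a :: l).headD j = a := rfl
    rw [hprod, hhead, List.length_cons, pow_succ']
    set u := (l.map (A x)).prod *ᵥ v with hu
    have hstep : Hf w E a (A x a *ᵥ u) ≤ ‖x‖ ^ 2 * Hf w E (l.headD j) u := by
      by_cases h : a = l.headD j
      · rw [← h]; exact step_le hx hw a u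
      · exact (step_lt hx hw hE hc h h1).le
    refine ⟨A_mulVec_ne_zero hx0 a h1, ?_, ?_⟩
    · have := mul_le_mul_of_nonneg_left h2 hN.le
      rw [mul_assoc]
      exact hstep.trans this
    · rintro ⟨b, hb, hbj⟩
      rw [mul_assoc]
      by_cases hl : ∃ c ∈ l, c ≠ j
      · have := mul_lt_mul_of_pos_left (h3 hl) hN
        exact hstep.trans_lt this
      · push Not at hl
        have hh : l.headD j = j := by
          cases l with
          | nil => rfl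
          | cons c l => exact hl c (by simp)
        have hab : a ≠ l.headD j := by
          rw [hh]
          rcases List.mem_cons.1 hb with h | h
          · rw [← h]; exact hbj
          · exact absurd (hl b h) hbj
        have := mul_le_mul_of_nonneg_left h2 hN.le
        exact (step_lt hx hw hE hc hab h1).trans_le this

theorem Hf_smul (i : Fin 2) (c : ℂ) (v : Fin 2 → ℂ) :
    Hf w E i (c • v) = ‖c‖ ^ 2 * Hf w E i v := by
  fin_cases i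
  · change Hf w E 0 (c • v) = ‖c‖ ^ 2 * Hf w E 0 v
    simp only [Hf, Pi.smul_apply, smul_eq_mul]
    rw [show w * (c * v 0) + c * v 1 = c * (w * v 0 + v 1) by ring, norm_mul, norm_mul]
    ring
  · change Hf w E 1 (c • v) = ‖c‖ ^ 2 * Hf w E 1 v
    simp only [Hf, Pi.smul_apply, smul_eq_mul]
    rw [show w * (c * v 1) + c * v 0 = c * (w * v 1 + v 0) by ring, norm_mul, norm_mul]
    ring

/-- No eigenvalue `x ^ length` for a word using both letters. -/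
theorem no_eigen (hx : 1 < ‖x‖) (hw : w = x + x⁻¹)
    (hc : 2 * ‖w - ((‖x‖ ^ 4)⁻¹ : ℝ) * (starRingEnd ℂ) w‖ < (1 - (‖x‖ ^ 4)⁻¹) * (‖w‖ ^ 2 + 1))
    {l : List (Fin 2)} (hl : ∃ a ∈ l, ∃ b ∈ l, a ≠ b) {v : Fin 2 → ℂ} (hv : v ≠ 0) :
    (l.map (A x)).prod *ᵥ v ≠ x ^ l.length • v := by
  intro heq
  obtain ⟨a, ha, b, hb, hab⟩ := hl
  have hne : l ≠ [] := by rintro rfl; simp at ha
  set j := l.head hne with hj
  have hex : ∃ c ∈ l, c ≠ j := by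
    by_cases h : a = j
    · exact ⟨b, hb, fun h' => hab (h.trans h'.symm)⟩
    · exact ⟨a, ha, h⟩
  have := (word_contract hx hw rfl hc j hv l).2.2 hex
  have hh : l.headD j = j := by
    cases l with
    | nil => exact absurd rfl hne
    | cons c l => rfl
  have e : ‖x ^ l.length‖ ^ 2 = (‖x‖ ^ 2) ^ l.length := by
    rw [norm_pow, ← pow_mul, ← pow_mul, mul_comm]
  rw [heq, Hf_smul, hh, e] at this
  exact lt_irrefl _ this

end contraction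

/-- The real inequality behind the sector condition. -/
theorem real_main {N k K : ℝ} (hN1 : 1 < N) (hK2 : K ^ 2 = k ^ 2)
    (hE : 4 * k ^ 2 * (N ^ 2 - N + 1) < 3 * N * (N - 1) ^ 2) :
    4 * K * N < (N + 1) * (N ^ 2 + N + 1 - 4 * k ^ 2) := by
  have hN0 : 0 < N := by linarith
  have hE0 : 0 < N ^ 2 - N + 1 := by nlinarith
  have hk3 : 4 * k ^ 2 < 3 * N := by
    by_contra h
    push Not at h
    have := mul_le_mul_of_nonneg_right h hE0.le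
    nlinarith
  have a1 : (2.46 : ℝ) * N ≤ N ^ 2 + N + 1 - 4 * k ^ 2 := by
    by_contra h
    push Not at h
    have h2 := mul_lt_mul_of_pos_right h hE0
    nlinarith [sq_nonneg (N ^ 2 - N + 1 - 1.73 * N)]
  have a2 : K ≤ 0.8661 * Real.sqrt N := by
    have : K ^ 2 ≤ (0.8661 * Real.sqrt N) ^ 2 := by
      rw [mul_pow, Real.sq_sqrt hN0.le, hK2]; nlinarith
    exact (abs_le_of_sq_le_sq' this (by positivity)).2
  have a3 : 2 * Real.sqrt N ≤ N + 1 := by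
    nlinarith [Real.sq_sqrt hN0.le, sq_nonneg (Real.sqrt N - 1)]
  have a4 : 4 * K ≤ 1.7322 * (N + 1) := by nlinarith
  have a5 : 4 * K * N ≤ 1.7322 * (N + 1) * N := mul_le_mul_of_nonneg_right a4 hN0.le
  have a6 : (N + 1) * (2.46 * N) ≤ (N + 1) * (N ^ 2 + N + 1 - 4 * k ^ 2) :=
    mul_le_mul_of_nonneg_left a1 (by linarith)
  nlinarith

theorem real_final {N k K q W c d : ℝ} (hN1 : 1 < N) (hK0 : 0 ≤ K) (hK2 : K ^ 2 = k ^ 2)
    (hqN : q * N ^ 2 = 1) (hWcd : W = c ^ 2 + d ^ 2) (hWv : W * N = (N + 1) ^ 2 - 4 * k ^ 2)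
    (hd2 : d ^ 2 * N ^ 2 = k ^ 2 * (N - 1) ^ 2)
    (main : 4 * K * N < (N + 1) * (N ^ 2 + N + 1 - 4 * k ^ 2)) :
    0 ≤ (1 - q) * (W + 1) ∧
      4 * ((1 - q) ^ 2 * c ^ 2 + (1 + q) ^ 2 * d ^ 2) < ((1 - q) * (W + 1)) ^ 2 := by
  have hN0 : 0 < N := by linarith
  have hN2 : 1 < N ^ 2 := by nlinarith
  have hq0 : 0 < q := by
    by_contra h
    push Not at h
    nlinarith
  have hq1 : q < 1 := by
    by_contra h
    push Not at h
    nlinarith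
  have f1 : 4 * K < (N + 1) * (W - 1) := by
    have e : (N + 1) * (W - 1) * N = (N + 1) * (N ^ 2 + N + 1 - 4 * k ^ 2) := by
      have : (N + 1) * (W - 1) * N = (N + 1) * (W * N - N) := by ring
      rw [this, hWv]; ring
    have : 4 * K * N < (N + 1) * (W - 1) * N := by rw [e]; exact main
    exact lt_of_mul_lt_mul_right this hN0.le
  have hW1 : 0 < W - 1 := by
    by_contra h
    push Not at h
    nlinarith
  refine ⟨mul_nonneg (by linarith) (by linarith), ?_⟩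
  have f2 : (4 * K) ^ 2 < ((N + 1) * (W - 1)) ^ 2 :=
    pow_lt_pow_left₀ f1 (by positivity) (by norm_num)
  have f3 : 16 * q * d ^ 2 < (1 - q) ^ 2 * (W - 1) ^ 2 := by
    have g2 : (1 - q) * N ^ 2 = N ^ 2 - 1 := by linear_combination -hqN
    have g3 : 16 * q * d ^ 2 * N ^ 4 = 16 * k ^ 2 * (N - 1) ^ 2 := by
      calc 16 * q * d ^ 2 * N ^ 4 = 16 * (q * N ^ 2) * (d ^ 2 * N ^ 2) := by ring
        _ = 16 * k ^ 2 * (N - 1) ^ 2 := by rw [hqN, hd2]; ring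
    have g4 : (1 - q) ^ 2 * (W - 1) ^ 2 * N ^ 4 = (N ^ 2 - 1) ^ 2 * (W - 1) ^ 2 := by
      calc (1 - q) ^ 2 * (W - 1) ^ 2 * N ^ 4 = ((1 - q) * N ^ 2) ^ 2 * (W - 1) ^ 2 := by ring
        _ = _ := by rw [g2]
    have h1 : 0 < (N - 1) ^ 2 := by
      have : 0 < N - 1 := by linarith
      positivity
    have h2 := mul_lt_mul_of_pos_right f2 h1
    have g5 : 16 * q * d ^ 2 * N ^ 4 < (1 - q) ^ 2 * (W - 1) ^ 2 * N ^ 4 := by
      rw [g3, g4, ← hK2]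
      calc 16 * K ^ 2 * (N - 1) ^ 2 = (4 * K) ^ 2 * (N - 1) ^ 2 := by ring
        _ < ((N + 1) * (W - 1)) ^ 2 * (N - 1) ^ 2 := h2
        _ = (N ^ 2 - 1) ^ 2 * (W - 1) ^ 2 := by ring
    exact lt_of_mul_lt_mul_right g5 (by positivity)
  have e1 : 4 * ((1 - q) ^ 2 * c ^ 2 + (1 + q) ^ 2 * d ^ 2) =
      4 * (1 - q) ^ 2 * W + 16 * q * d ^ 2 := by rw [hWcd]; ring
  have e2 : ((1 - q) * (W + 1)) ^ 2 = 4 * (1 - q) ^ 2 * W + (1 - q) ^ 2 * (W - 1) ^ 2 := by ring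
  rw [e1, e2]
  linarith

/-- The sector condition implies the contraction condition. -/
theorem sector_cond {x : ℂ} (hx : 1 < ‖x‖)
    (hs : (x - x⁻¹).im ^ 2 < 3 * (x - x⁻¹).re ^ 2) :
    2 * ‖(x + x⁻¹) - ((‖x‖ ^ 4)⁻¹ : ℝ) * (starRingEnd ℂ) (x + x⁻¹)‖ <
      (1 - (‖x‖ ^ 4)⁻¹) * (‖x + x⁻¹‖ ^ 2 + 1) := by
  set p := x.re with hp
  set k := x.im with hk
  set N := ‖x‖ ^ 2 with hN
  have hN1 : 1 < N := by rw [hN]; nlinarith
  have hN0 : 0 < N := by linarith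
  have hpk : p ^ 2 + k ^ 2 = N := by
    rw [hN, ← Complex.normSq_eq_norm_sq, Complex.normSq_apply]; ring
  have hinv_re : (x⁻¹).re = p / N := by
    rw [Complex.inv_re, Complex.normSq_eq_norm_sq]
  have hinv_im : (x⁻¹).im = -k / N := by
    rw [Complex.inv_im, Complex.normSq_eq_norm_sq]
  have hx4 : ‖x‖ ^ 4 = N ^ 2 := by rw [hN]; ring
  rw [hx4]
  simp only [Complex.sub_re, Complex.sub_im, hinv_re, hinv_im, ← hp, ← hk] at hs
  -- sector inequality cleared of denominators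
  have hs' : k ^ 2 * (N + 1) ^ 2 < 3 * p ^ 2 * (N - 1) ^ 2 := by
    have e1 : (k - -k / N) ^ 2 = k ^ 2 * (N + 1) ^ 2 / N ^ 2 := by field_simp; ring
    have e2 : 3 * (p - p / N) ^ 2 = 3 * p ^ 2 * (N - 1) ^ 2 / N ^ 2 := by field_simp
    rw [e1, e2] at hs
    have hN2 : 0 < N ^ 2 := by positivity
    exact (div_lt_div_iff_of_pos_right hN2).1 hs
  have hE : 4 * k ^ 2 * (N ^ 2 - N + 1) < 3 * N * (N - 1) ^ 2 := by
    have : p ^ 2 = N - k ^ 2 := by linarith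
    rw [this] at hs'
    nlinarith
  -- main polynomial inequality
  set K := |k| with hK
  have hK0 : 0 ≤ K := abs_nonneg _
  have hK2 : K ^ 2 = k ^ 2 := sq_abs k
  have main : 4 * K * N < (N + 1) * (N ^ 2 + N + 1 - 4 * k ^ 2) := real_main hN1 hK2 hE
  -- translate back
  set c := (x + x⁻¹).re with hc
  set d := (x + x⁻¹).im with hd
  have hcv : c = p * (N + 1) / N := by
    rw [hc, Complex.add_re, hinv_re, ← hp]; field_simp
  have hdv : d = k * (N - 1) / N := by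
    rw [hd, Complex.add_im, hinv_im, ← hk]; field_simp; ring
  set W := ‖x + x⁻¹‖ ^ 2 with hW
  have hWcd : W = c ^ 2 + d ^ 2 := by
    rw [hW, ← Complex.normSq_eq_norm_sq, Complex.normSq_apply]; ring
  have hWv : W * N = (N + 1) ^ 2 - 4 * k ^ 2 := by
    have h1 : p ^ 2 = N - k ^ 2 := by linarith
    have h2 : c ^ 2 * N ^ 2 = p ^ 2 * (N + 1) ^ 2 := by rw [hcv]; field_simp
    have h3 : d ^ 2 * N ^ 2 = k ^ 2 * (N - 1) ^ 2 := by rw [hdv]; field_simp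
    have h4 : W * N * N = ((N + 1) ^ 2 - 4 * k ^ 2) * N := by
      calc W * N * N = c ^ 2 * N ^ 2 + d ^ 2 * N ^ 2 := by rw [hWcd]; ring
        _ = (N - k ^ 2) * (N + 1) ^ 2 + k ^ 2 * (N - 1) ^ 2 := by rw [h2, h3, h1]
        _ = ((N + 1) ^ 2 - 4 * k ^ 2) * N := by ring
    exact mul_right_cancel₀ hN0.ne' h4
  have hd2 : d ^ 2 * N ^ 2 = k ^ 2 * (N - 1) ^ 2 := by rw [hdv]; field_simp
  set q := (N ^ 2)⁻¹ with hq
  have hqN : q * N ^ 2 = 1 := by rw [hq]; field_simp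
  have hnorm : ‖(x + x⁻¹) - (q : ℝ) * (starRingEnd ℂ) (x + x⁻¹)‖ ^ 2 =
      (1 - q) ^ 2 * c ^ 2 + (1 + q) ^ 2 * d ^ 2 := by
    rw [← Complex.normSq_eq_norm_sq, Complex.normSq_apply]
    have e1 : ((x + x⁻¹) - (q : ℝ) * (starRingEnd ℂ) (x + x⁻¹)).re = (1 - q) * c := by
      simp only [Complex.sub_re, Complex.mul_re, Complex.conj_re, Complex.conj_im,
        Complex.ofReal_re, Complex.ofReal_im, ← hc]
      ring
    have e2 : ((x + x⁻¹) - (q : ℝ) * (starRingEnd ℂ) (x + x⁻¹)).im = (1 + q) * d := by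
      simp only [Complex.sub_im, Complex.mul_im, Complex.conj_re, Complex.conj_im,
        Complex.ofReal_re, Complex.ofReal_im, ← hd]
      ring
    rw [e1, e2]; ring
  obtain ⟨g1, g2⟩ := real_final hN1 hK0 hK2 hqN hWcd hWv hd2 main
  have hsq : (2 * ‖(x + x⁻¹) - (q : ℝ) * (starRingEnd ℂ) (x + x⁻¹)‖) ^ 2 <
      ((1 - q) * (W + 1)) ^ 2 := by
    rw [mul_pow, hnorm]
    linarith
  exact lt_of_pow_lt_pow_left₀ 2 g1 hsq

end Pool.Agent.Helper76.Conway
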