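import Mathlib
import Pool.Agent.Helper76.Conway.Burau3
import Pool.Agent.Helper76.Conway.LogConc

/-!
# Functionals on words in two letters that factor through the Hecke algebra of `S_3`
-/

namespace Pool.Agent.Helper76.Conway

open Matrix

/-- A functional on words in two letters satisfying the quadratic relation `s² = 1 + z s` and the
braid relation. -/
structure IsHecke {R : Type*} [CommRing R] (z : R) (F : List (Fin 2) → R) : Prop where
  quad : ∀ l₁ l₂ i, F (l₁ ++ i :: i :: l₂) = F (l₁ ++ l₂) + z * F (l₁ ++ i :: l₂)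
  braid : ∀ l₁ l₂, F (l₁ ++ 0 :: 1 :: 0 :: l₂) = F (l₁ ++ 1 :: 0 :: 1 :: l₂)

namespace IsHecke

variable {R : Type*} [CommRing R] {z : R} {F G : List (Fin 2) → R}

theorem append_right (hF : IsHecke z F) (s : Fin 2) : IsHecke z (fun l => F (l ++ [s])) where
  quad l₁ l₂ i := by
    have := hF.quad l₁ (l₂ ++ [s]) i
    simpa [List.append_assoc] using this
  braid l₁ l₂ := by
    have := hF.braid l₁ (l₂ ++ [s])
    simpa [List.append_assoc] using this

theorem sub (hF : IsHecke z F) (hG : IsHecke z G) : IsHecke z (fun l => F l - G l) where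
  quad l₁ l₂ i := by rw [hF.quad, hG.quad]; ring
  braid l₁ l₂ := by rw [hF.braid, hG.braid]

theorem const_mul (hF : IsHecke z F) (c : R) : IsHecke z (fun l => c * F l) where
  quad l₁ l₂ i := by rw [hF.quad]; ring
  braid l₁ l₂ := by rw [hF.braid]

theorem eq_zero (l : List (Fin 2)) : ∀ {F : List (Fin 2) → R}, IsHecke z F →
    F [] = 0 → F [0] = 0 → F [1] = 0 → F [0, 1] = 0 → F [1, 0] = 0 → F [0, 1, 0] = 0 →
    F l = 0 := by
  induction l using List.reverseRecOn with
  | nil => intro F _ h _ _ _ _ _; exact h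
  | append_singleton l s ih =>
    intro F hF h0 h1 h2 h3 h4 h5
    have hG := hF.append_right s
    refine ih hG ?_ ?_ ?_ ?_ ?_ ?_
    · fin_cases s
      · exact h1
      · exact h2
    · fin_cases s
      · have := hF.quad [] [] 0
        simp only [List.nil_append] at this
        change F [0, 0] = 0
        rw [this, h0, h1]; ring
      · exact h3
    · fin_cases s
      · exact h4
      · have := hF.quad [] [] 1
        simp only [List.nil_append] at this
        change F [1, 1] = 0
        rw [this, h0, h2]; ring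
    · fin_cases s
      · exact h5
      · have := hF.quad [0] [] 1
        simp only [List.cons_append, List.nil_append] at this
        change F [0, 1, 1] = 0
        rw [this, h1, h3]; ring
    · fin_cases s
      · have := hF.quad [1] [] 0
        simp only [List.cons_append, List.nil_append] at this
        change F [1, 0, 0] = 0
        rw [this, h2, h4]; ring
      · have := hF.braid [] []
        simp only [List.nil_append] at this
        change F [1, 0, 1] = 0
        rw [← this, h5]
    · fin_cases s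
      · have := hF.quad [0, 1] [] 0
        simp only [List.cons_append, List.nil_append] at this
        change F [0, 1, 0, 0] = 0
        rw [this, h3, h5]; ring
      · have h6 := hF.braid [0] []
        have h7 := hF.quad [] [1, 0] 0
        simp only [List.cons_append, List.nil_append] at h6 h7
        change F [0, 1, 0, 1] = 0
        rw [← h6, h7, h4, h5]; ring

end IsHecke

/-- The trace functional of the reduced Burau representation. -/
noncomputable def Phi (x : ℂ) (l : List (Fin 2)) : ℂ :=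
  x ^ l.length + (-x⁻¹) ^ l.length - ((l.map (A x)).prod).trace

theorem Phi_isHecke {x : ℂ} (hx : x ≠ 0) : IsHecke (x - x⁻¹) (Phi x) where
  quad l₁ l₂ i := by
    have hxx : x * x⁻¹ = 1 := mul_inv_cancel₀ hx
    have e1 : ((l₁ ++ i :: i :: l₂).map (A x)).prod =
        (l₁.map (A x)).prod * (l₂.map (A x)).prod +
          (x - x⁻¹) • ((l₁.map (A x)).prod * (A x i * (l₂.map (A x)).prod)) := by
      simp only [List.map_append, List.map_cons, List.prod_append, List.prod_cons]
      rw [← Matrix.mul_assoc (A x i) (A x i), A_sq hx, Matrix.add_mul, Matrix.mul_add,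
        Matrix.one_mul, Matrix.smul_mul, Matrix.mul_smul]
    have e2 : ((l₁ ++ l₂).map (A x)).prod = (l₁.map (A x)).prod * (l₂.map (A x)).prod := by
      simp
    have e3 : ((l₁ ++ i :: l₂).map (A x)).prod =
        (l₁.map (A x)).prod * (A x i * (l₂.map (A x)).prod) := by
      simp
    unfold Phi
    rw [e1, e2, e3, Matrix.trace_add, Matrix.trace_smul]
    simp only [List.length_append, List.length_cons, smul_eq_mul]
    have e4 : x ^ (l₁.length + (l₂.length + 1 + 1)) =
        x ^ (l₁.length + l₂.length) + (x - x⁻¹) * x ^ (l₁.length + (l₂.length + 1)) := by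
      have : x ^ 2 = 1 + (x - x⁻¹) * x := by field_simp; ring
      calc x ^ (l₁.length + (l₂.length + 1 + 1)) = x ^ (l₁.length + l₂.length) * x ^ 2 := by ring
        _ = _ := by rw [this]; ring
    have e5 : (-x⁻¹) ^ (l₁.length + (l₂.length + 1 + 1)) =
        (-x⁻¹) ^ (l₁.length + l₂.length) +
          (x - x⁻¹) * (-x⁻¹) ^ (l₁.length + (l₂.length + 1)) := by
      have : (-x⁻¹) ^ 2 = 1 + (x - x⁻¹) * (-x⁻¹) := by field_simp; ring
      calc (-x⁻¹) ^ (l₁.length + (l₂.length + 1 + 1)) =
          (-x⁻¹) ^ (l₁.length + l₂.length) * (-x⁻¹) ^ 2 := by ring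
        _ = _ := by rw [this]; ring
    rw [e4, e5]; ring
  braid l₁ l₂ := by
    have e : ((l₁ ++ 0 :: 1 :: 0 :: l₂).map (A x)).prod =
        ((l₁ ++ 1 :: 0 :: 1 :: l₂).map (A x)).prod := by
      simp only [List.map_append, List.map_cons, List.prod_append, List.prod_cons]
      have hb := A_braid hx
      have h1 : A x 0 * (A x 1 * (A x 0 * (l₂.map (A x)).prod)) =
          A x 0 * A x 1 * A x 0 * (l₂.map (A x)).prod := by
        simp only [Matrix.mul_assoc]
      have h2 : A x 1 * (A x 0 * (A x 1 * (l₂.map (A x)).prod)) =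
          A x 1 * A x 0 * A x 1 * (l₂.map (A x)).prod := by
        simp only [Matrix.mul_assoc]
      rw [h1, h2, hb]
    unfold Phi
    rw [e]
    simp

theorem Phi_nil {x : ℂ} : Phi x [] = 0 := by
  simp [Phi]; norm_num

theorem Phi_single {x : ℂ} (i : Fin 2) : Phi x [i] = 0 := by
  fin_cases i
  · simp [Phi, A, Matrix.trace_fin_two]; ring
  · simp [Phi, A, Matrix.trace_fin_two]

theorem Phi_01 {x : ℂ} (hx : x ≠ 0) : Phi x [0, 1] = (x - x⁻¹) ^ 2 + 3 := by
  simp [Phi, A, Matrix.trace_fin_two]
  field_simp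
  ring

theorem Phi_10 {x : ℂ} (hx : x ≠ 0) : Phi x [1, 0] = (x - x⁻¹) ^ 2 + 3 := by
  simp [Phi, A, Matrix.trace_fin_two]
  field_simp
  ring

theorem Phi_010 {x : ℂ} (hx : x ≠ 0) :
    Phi x [0, 1, 0] = (x - x⁻¹) * ((x - x⁻¹) ^ 2 + 3) := by
  simp [Phi, A, Matrix.trace_fin_two]
  field_simp
  ring

theorem det_prod {x : ℂ} (hx : x ≠ 0) (l : List (Fin 2)) :
    ((l.map (A x)).prod).det = (-1) ^ l.length := by
  induction l with
  | nil => simp
  | cons a l ih => rw [List.map_cons, List.prod_cons, Matrix.det_mul, ih, A_det hx,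
      List.length_cons, pow_succ']

theorem exists_eigen {x : ℂ} (hx : x ≠ 0) {l : List (Fin 2)} (h : Phi x l = 0) :
    ∃ v : Fin 2 → ℂ, v ≠ 0 ∧ (l.map (A x)).prod *ᵥ v = x ^ l.length • v := by
  set P := (l.map (A x)).prod with hP
  have hdet : (x ^ l.length • (1 : Matrix (Fin 2) (Fin 2) ℂ) - P).det = 0 := by
    have e1 : (x ^ l.length • (1 : Matrix (Fin 2) (Fin 2) ℂ) - P).det =
        (x ^ l.length) ^ 2 - x ^ l.length * P.trace + P.det := by
      rw [Matrix.det_fin_two, Matrix.det_fin_two P, Matrix.trace_fin_two]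
      simp
      ring
    have e2 : P.det = x ^ l.length * (-x⁻¹) ^ l.length := by
      rw [hP, det_prod hx, ← mul_pow]
      congr 1
      field_simp
    have e3 : x ^ l.length + (-x⁻¹) ^ l.length - P.trace = 0 := h
    rw [e1, e2]
    linear_combination x ^ l.length * e3
  obtain ⟨v, hv, hv0⟩ := Matrix.exists_mulVec_eq_zero_iff.2 hdet
  refine ⟨v, hv, ?_⟩
  rw [Matrix.sub_mulVec, Matrix.smul_mulVec, Matrix.one_mulVec] at hv0
  exact (sub_eq_zero.1 hv0).symm

/-- `Phi` does not vanish for a word using both letters when `x - 1/x` is in the double sector. -/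
theorem Phi_ne_zero {x : ℂ} (hx : 1 < ‖x‖)
    (hs : (x - x⁻¹).im ^ 2 < 3 * (x - x⁻¹).re ^ 2) {l : List (Fin 2)}
    (hl : ∃ a ∈ l, ∃ b ∈ l, a ≠ b) : Phi x l ≠ 0 := by
  intro h
  have hx0 : x ≠ 0 := norm_pos_iff.1 (by linarith)
  obtain ⟨v, hv, he⟩ := exists_eigen hx0 h
  exact no_eigen hx rfl (sector_cond hx hs) hl hv he

/-- Every complex number `z` with nonzero real part is `x - 1/x` with `|x| > 1`. -/
theorem exists_x {z : ℂ} (hz : z.re ≠ 0) : ∃ x : ℂ, 1 < ‖x‖ ∧ x - x⁻¹ = z := by
  obtain ⟨d, hd⟩ := IsAlgClosed.exists_pow_nat_eq (z ^ 2 + 4) (n := 2) (by norm_num)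
  have h1 : ((z + d) / 2) * ((d - z) / 2) = 1 := by
    linear_combination (1 / 4) * hd
  have key : ∀ x y : ℂ, x * y = 1 → x - y = z → 1 ≤ ‖x‖ → 1 < ‖x‖ ∧ x - x⁻¹ = z := by
    intro x y hxy hz' hx
    have hx0 : x ≠ 0 := norm_pos_iff.1 (by linarith)
    have hy : y = x⁻¹ := eq_inv_of_mul_eq_one_right hxy
    rw [hy] at hz'
    refine ⟨lt_of_le_of_ne hx (fun h => hz ?_), hz'⟩
    rw [← hz', Complex.sub_re, Complex.inv_re, Complex.normSq_eq_norm_sq, ← h]
    norm_num
  by_cases h : 1 ≤ ‖(z + d) / 2‖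
  · exact ⟨_, key _ _ h1 (by ring) h⟩
  · push Not at h
    have h2 : 1 ≤ ‖(z - d) / 2‖ := by
      have hn : ‖(z + d) / 2‖ * ‖(z - d) / 2‖ = 1 := by
        have : ‖((z + d) / 2) * ((d - z) / 2)‖ = 1 := by rw [h1, norm_one]
        rw [norm_mul] at this
        rwa [show (d - z) / 2 = -((z - d) / 2) by ring, norm_neg] at this
      by_contra h3
      push Not at h3
      have := mul_lt_mul'' h h3 (norm_nonneg _) (norm_nonneg _)
      rw [hn] at this
      norm_num at this
    exact ⟨_, key ((z - d) / 2) (-((z + d) / 2)) (by linear_combination h1) (by ring) h2⟩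

end Pool.Agent.Helper76.Conway
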