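import Mathlib
import Pool.Agent.Helper76.Conway.Hecke3

/-!
# Zero-free sector for block triangular Seifert matrices with small diagonal blocks
-/

namespace Pool.Agent.Helper76.Conway

open Matrix

theorem exists_g_aux {κ T0 T1 : ℝ} (h0 : 0 ≤ T0) (h1 : 0 ≤ T1) (hs3 : T0 ≤ √3)
    (hk : 0 < κ) (hT0κ : 1 ≤ T0 * κ)
    (hmain : 0 < 2 * κ * (1 - T0 * T1) + (T0 + T1) * (1 - κ ^ 2)) :
    ∃ g : ℝ, T0 * |κ + g| < 1 - κ * g ∧ T1 * |κ - g| < 1 + κ * g := by
  have hT0pos : 0 < T0 := by
    by_contra h
    push Not at h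
    have : T0 = 0 := le_antisymm h h0
    rw [this] at hT0κ
    linarith
  have ha : 0 < κ + T0 := by linarith
  have hb : 0 < κ + T1 := by linarith
  set U := (1 - T0 * κ) / (κ + T0) with hU
  set L := -(1 - T1 * κ) / (κ + T1) with hL
  have hLU : L < U := by
    rw [hL, hU, div_lt_div_iff₀ hb ha]
    nlinarith
  set g := (L + U) / 2 with hg
  have hgU : g < U := by linarith
  have hgL : L < g := by linarith
  have hU0 : U ≤ 0 := div_nonpos_of_nonpos_of_nonneg (by linarith) ha.le
  have hg0 : g < 0 := by linarith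
  have c1 : g * (κ + T0) < 1 - T0 * κ := (lt_div_iff₀ ha).1 hgU
  have c2 : -(1 - T1 * κ) < g * (κ + T1) := (div_lt_iff₀ hb).1 hgL
  have c3 : T1 * (κ - g) < 1 + κ * g := by nlinarith
  have c4 : 0 ≤ T1 * (κ - g) := mul_nonneg h1 (by linarith)
  have c5 : 0 < 1 + κ * g := by linarith
  have c6 : 0 < 1 - κ * g := by nlinarith [mul_neg_of_pos_of_neg hk hg0]
  refine ⟨g, ?_, ?_⟩
  · rcases le_or_gt 0 (κ + g) with h | h
    · rw [abs_of_nonneg h]; nlinarith
    · rw [abs_of_neg h]
      rcases le_or_gt T0 κ with h2 | h2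
      · nlinarith
      · -- -g < 1/κ
        have key : T0 * (1 - κ ^ 2) ≤ 2 * κ := by
          by_cases h3 : 1 ≤ κ
          · nlinarith [mul_nonneg h0 (show 0 ≤ κ ^ 2 - 1 by nlinarith)]
          · push Not at h3
            have hs : (√3 : ℝ) ^ 2 = 3 := Real.sq_sqrt (by norm_num)
            have hs0 : 0 < √3 := Real.sqrt_pos.2 (by norm_num)
            have h4 : 1 ≤ √3 * κ := hT0κ.trans (mul_le_mul_of_nonneg_right hs3 hk.le)
            have h5 : 1 ≤ 3 * κ ^ 2 := by nlinarith
            have h6 : T0 * (1 - κ ^ 2) ≤ √3 * (2 / 3) :=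
              mul_le_mul hs3 (by linarith) (by nlinarith) hs0.le
            have h7 : √3 * (2 / 3) ≤ 2 * κ := by nlinarith
            linarith
        -- want T0 * -(κ+g) < 1 - κ g
        have h8 : (T0 - κ) * (-(κ * g)) < (T0 - κ) * 1 :=
          mul_lt_mul_of_pos_left (by linarith) (by linarith)
        have h9 : κ * (T0 * -(κ + g)) < κ * (1 - κ * g) := by nlinarith
        exact lt_of_mul_lt_mul_left h9 hk.le
  · rw [abs_of_pos (by linarith)]; exact c3

/-- Choice of the phase: `arctan g` is the angle by which the two classes of blocks are turned. -/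
theorem exists_g {κ T0 T1 : ℝ} (h0 : 0 ≤ T0) (h1 : 0 ≤ T1)
    (hT : T0 + T1 ≤ √3 * (1 - T0 * T1)) (hκ : κ ^ 2 < 3) :
    ∃ g : ℝ, T0 * |κ + g| < 1 - κ * g ∧ T1 * |κ - g| < 1 + κ * g := by
  -- reduce to κ ≥ 0
  wlog hk : 0 ≤ κ generalizing κ
  · obtain ⟨g, hg1, hg2⟩ := this (κ := -κ) (by nlinarith) (by linarith)
    refine ⟨-g, ?_, ?_⟩
    · rw [show κ + -g = -(-κ + g) by ring, abs_neg]; linarith
    · rw [show κ - -g = -(-κ - g) by ring, abs_neg]; linarith
  have hs : (√3 : ℝ) ^ 2 = 3 := Real.sq_sqrt (by norm_num)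
  have hs0 : 0 < √3 := Real.sqrt_pos.2 (by norm_num)
  have hks : κ < √3 := by
    by_contra h
    push Not at h
    nlinarith
  have hT01 : T0 * T1 ≤ 1 := by
    by_contra h
    push Not at h
    nlinarith
  -- the main inequality
  have hmain : 0 < 2 * κ * (1 - T0 * T1) + (T0 + T1) * (1 - κ ^ 2) ∨ (κ = 0 ∧ T0 + T1 = 0) := by
    by_cases h : κ ≤ 1
    · rcases hk.eq_or_lt with h' | h'
      · rcases (add_nonneg h0 h1).eq_or_lt with h'' | h''
        · right; exact ⟨h'.symm, h''.symm⟩
        · left; rw [← h']; nlinarith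
      · left
        rcases (add_nonneg h0 h1).eq_or_lt with h'' | h''
        · have e0 : T0 = 0 := by linarith
          have e1 : T1 = 0 := by linarith
          rw [e0, e1]; nlinarith
        · have : 0 < 1 - T0 * T1 := by
            by_contra hc
            push Not at hc
            nlinarith
          have h2 : 0 < 2 * κ * (1 - T0 * T1) := by positivity
          have h3 : 0 ≤ (T0 + T1) * (1 - κ ^ 2) := mul_nonneg h''.le (by nlinarith)
          linarith
    · push Not at h
      left
      have hpos : 0 < 1 - T0 * T1 := by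
        by_contra hc
        push Not at hc
        have e : T0 * T1 = 1 := le_antisymm hT01 (by linarith)
        rw [e] at hT
        have : T0 + T1 ≤ 0 := by nlinarith
        have e0 : T0 = 0 := by linarith
        rw [e0] at e
        linarith
      have h2 : (T0 + T1) * (κ ^ 2 - 1) ≤ √3 * (1 - T0 * T1) * (κ ^ 2 - 1) :=
        mul_le_mul_of_nonneg_right hT (by nlinarith)
      have h3 : √3 * (κ ^ 2 - 1) < 2 * κ := by nlinarith
      have h4 := mul_lt_mul_of_pos_left h3 hpos
      nlinarith
  have hT0s : T0 ≤ √3 := by nlinarith [mul_nonneg h0 h1]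
  have hT1s : T1 ≤ √3 := by nlinarith [mul_nonneg h0 h1]
  rcases hmain with hmain | ⟨hk0, ht⟩
  · rcases lt_or_ge (T0 * κ) 1 with c0 | c0
    · rcases lt_or_ge (T1 * κ) 1 with c1 | c1
      · exact ⟨0, by simp [abs_of_nonneg hk, c0], by simp [abs_of_nonneg hk, c1]⟩
      · have hkpos : 0 < κ := by
          rcases hk.eq_or_lt with h | h
          · rw [← h] at c1; linarith
          · exact h
        obtain ⟨g, hg1, hg2⟩ := exists_g_aux h1 h0 hT1s hkpos c1 (by nlinarith)
        refine ⟨-g, ?_, ?_⟩
        · rw [← sub_eq_add_neg]; linarith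
        · rw [sub_neg_eq_add]; linarith
    · have hkpos : 0 < κ := by
        rcases hk.eq_or_lt with h | h
        · rw [← h] at c0; linarith
        · exact h
      exact exists_g_aux h0 h1 hT0s hkpos c0 hmain
  · have e0 : T0 = 0 := by linarith
    have e1 : T1 = 0 := by linarith
    exact ⟨0, by rw [e0]; norm_num, by rw [e1]; norm_num⟩

variable {ι : Type*} [Fintype ι] [DecidableEq ι]

/-- The value `v* V v` of the sesquilinear form of a real matrix. -/
noncomputable def form (V : Matrix ι ι ℝ) (v : ι → ℂ) : ℂ :=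
  ∑ i, ∑ j, (starRingEnd ℂ) (v i) * (V i j : ℂ) * v j

theorem form_zero (V : Matrix ι ι ℝ) : form V (0 : ι → ℂ) = 0 := by simp [form]

/-- The part of a vector supported on a level. -/
def part (h : ι → ℤ) (u : ι → ℂ) (c : ℤ) : ι → ℂ := fun i => if h i = c then u i else 0

theorem conj_form (V : Matrix ι ι ℝ) (v : ι → ℂ) :
    (starRingEnd ℂ) (form V v) = ∑ i, ∑ j, (starRingEnd ℂ) (v i) * (V j i : ℂ) * v j := by
  unfold form
  rw [map_sum, Finset.sum_comm]
  simp only [map_sum, map_mul, Complex.conj_conj, Complex.conj_ofReal]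
  exact Finset.sum_congr rfl fun i _ => Finset.sum_congr rfl fun j _ => by ring

/-- Decomposition of the same-level part of the energy. -/
theorem sum_same_level (V : Matrix ι ι ℝ) (h : ι → ℤ) (u : ι → ℂ) (x : ℂ) (e : ℤ → ℂ) :
    (∑ i, ∑ j, if h i = h j then
      e (h i) * ((starRingEnd ℂ) (u i) * (x * (V i j : ℂ) - x⁻¹ * (V j i : ℂ)) * u j) else 0) =
    ∑ c ∈ Finset.univ.image h,
      e c * (x * form V (part h u c) - x⁻¹ * (starRingEnd ℂ) (form V (part h u c))) := by
  have h1 : ∀ c, e c * (x * form V (part h u c) - x⁻¹ * (starRingEnd ℂ) (form V (part h u c))) =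
      ∑ i, ∑ j, if h i = c ∧ h j = c then
        e c * ((starRingEnd ℂ) (u i) * (x * (V i j : ℂ) - x⁻¹ * (V j i : ℂ)) * u j) else 0 := by
    intro c
    rw [conj_form, form, Finset.mul_sum, Finset.mul_sum, ← Finset.sum_sub_distrib, Finset.mul_sum]
    refine Finset.sum_congr rfl fun i _ => ?_
    rw [Finset.mul_sum, Finset.mul_sum, ← Finset.sum_sub_distrib, Finset.mul_sum]
    refine Finset.sum_congr rfl fun j _ => ?_
    unfold part
    by_cases hi : h i = c
    · by_cases hj : h j = c
      · simp only [hi, hj, if_true, and_self]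
        ring
      · simp only [hi, hj, if_true, if_false, and_false]
        simp
    · simp [hi]
  simp only [h1]
  symm
  rw [Finset.sum_comm]
  refine Finset.sum_congr rfl fun i _ => ?_
  rw [Finset.sum_comm]
  refine Finset.sum_congr rfl fun j _ => ?_
  symm
  by_cases hij : h i = h j
  · rw [if_pos hij, Finset.sum_eq_single (h i)]
    · simp [hij]
    · intro c _ hc
      rw [if_neg]; rintro ⟨h2, -⟩; exact hc h2.symm
    · intro hc; exact absurd (Finset.mem_image_of_mem h (Finset.mem_univ i)) hc
  · rw [if_neg hij]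
    symm
    apply Finset.sum_eq_zero
    intro c _
    rw [if_neg]; rintro ⟨h2, h3⟩; exact hij (h2.trans h3.symm)

/-- The energy identity: the contribution of pairs on different levels is purely imaginary. -/
theorem energy (V : Matrix ι ι ℝ) (h : ι → ℤ)
    (tri : ∀ i j, V i j ≠ 0 → h i = h j ∨ h i = h j + 1) {x : ℂ} (hx : x ≠ 0)
    (u : ι → ℂ) (e : ℤ → ℂ) (he : ∀ c, e (c + 1) = (starRingEnd ℂ) (e c))
    (hu : ∀ i, ∑ j, x ^ (h j - h i) * (x * (V i j : ℂ) - x⁻¹ * (V j i : ℂ)) * u j = 0) :
    (∑ c ∈ Finset.univ.image h,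
      e c * (x * form V (part h u c) - x⁻¹ * (starRingEnd ℂ) (form V (part h u c)))).re = 0 := by
  rw [← sum_same_level]
  set F : ι → ι → ℂ := fun i j => e (h i) * ((starRingEnd ℂ) (u i) *
    (x ^ (h j - h i) * (x * (V i j : ℂ) - x⁻¹ * (V j i : ℂ))) * u j) with hF
  have hF0 : ∑ i, ∑ j, F i j = 0 := by
    apply Finset.sum_eq_zero
    intro i _
    have : ∑ j, F i j = e (h i) * (starRingEnd ℂ) (u i) *
        ∑ j, x ^ (h j - h i) * (x * (V i j : ℂ) - x⁻¹ * (V j i : ℂ)) * u j := by
      rw [Finset.mul_sum]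
      exact Finset.sum_congr rfl fun j _ => by rw [hF]; ring
    rw [this, hu, mul_zero]
  set D : ι → ι → ℂ := fun i j => if h i = h j then 0 else F i j with hD
  have hsplit : (∑ i, ∑ j, if h i = h j then
      e (h i) * ((starRingEnd ℂ) (u i) * (x * (V i j : ℂ) - x⁻¹ * (V j i : ℂ)) * u j) else 0) =
      ∑ i, ∑ j, F i j - ∑ i, ∑ j, D i j := by
    rw [← Finset.sum_sub_distrib]
    refine Finset.sum_congr rfl fun i _ => ?_
    rw [← Finset.sum_sub_distrib]
    refine Finset.sum_congr rfl fun j _ => ?_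
    by_cases hij : h i = h j
    · simp [hF, hD, hij]
    · simp [hD, hij]
  rw [hsplit, hF0, zero_sub, Complex.neg_re]
  have hpair : ∀ i j, (D i j + D j i).re = 0 := by
    intro i j
    by_cases hij : h i = h j
    · simp [hD, hij]
    · have key : ∀ i j, h i = h j + 1 → (F i j + F j i).re = 0 := by
        intro i j hh
        have hVji : V j i = 0 := by
          by_contra hne
          rcases tri j i hne with h' | h' <;> omega
        have e1 : F i j = e (h i) * (starRingEnd ℂ) (u i) * (V i j : ℂ) * u j := by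
          simp only [hF]
          rw [hVji, show h j - h i = -1 by omega, _root_.zpow_neg_one]
          simp only [Complex.ofReal_zero, mul_zero, sub_zero]
          field_simp
        have e2 : F j i = -(starRingEnd ℂ) (e (h i) * (starRingEnd ℂ) (u i) * (V i j : ℂ) * u j) := by
          simp only [hF]
          rw [hVji, show h i - h j = 1 by omega, zpow_one]
          simp only [Complex.ofReal_zero, mul_zero, zero_sub]
          have : (starRingEnd ℂ) (e (h i)) = e (h j) := by
            rw [hh, he, Complex.conj_conj]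
          simp only [map_mul, Complex.conj_conj, Complex.conj_ofReal, this]
          field_simp
        rw [e1, e2, Complex.add_re, Complex.neg_re, Complex.conj_re]
        ring
      by_cases h1 : h i = h j + 1
      · have := key i j h1
        simpa [hD, hij, Ne.symm hij] using this
      · by_cases h2 : h j = h i + 1
        · have := key j i h2
          rw [add_comm] at this
          simpa [hD, hij, Ne.symm hij] using this
        · have v1 : V i j = 0 := by
            by_contra hne
            rcases tri i j hne with h' | h'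
            · exact hij h'
            · exact h1 h'
          have v2 : V j i = 0 := by
            by_contra hne
            rcases tri j i hne with h' | h'
            · exact hij h'.symm
            · exact h2 h'
          simp [hD, hF, v1, v2]
  have h2 : (∑ i, ∑ j, D i j).re + (∑ i, ∑ j, D i j).re = 0 := by
    conv_lhs => rw [← Complex.add_re]
    conv_lhs => enter [1, 2]; rw [Finset.sum_comm]
    rw [← Finset.sum_add_distrib, Complex.re_sum]
    apply Finset.sum_eq_zero
    intro i _
    rw [← Finset.sum_add_distrib, Complex.re_sum]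
    exact Finset.sum_eq_zero fun j _ => hpair i j
  linarith

/-- The main nonvanishing statement. -/
theorem det_ne_zero_of_sector (V : Matrix ι ι ℝ) (h : ι → ℤ)
    (tri : ∀ i j, V i j ≠ 0 → h i = h j ∨ h i = h j + 1) {T0 T1 : ℝ} (h0 : 0 ≤ T0) (h1 : 0 ≤ T1)
    (hT : T0 + T1 ≤ √3 * (1 - T0 * T1))
    (hV : ∀ (c : ℤ) (v : ι → ℂ), (∀ i, v i ≠ 0 → h i = c) → v ≠ 0 →
      0 < (form V v).re ∧ |(form V v).im| ≤ (if Even c then T0 else T1) * (form V v).re)
    {x : ℂ} (hx : 1 < ‖x‖) (hs : (x - x⁻¹).im ^ 2 < 3 * (x - x⁻¹).re ^ 2) :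
    (x • V.map (fun a => (a : ℂ)) - x⁻¹ • (V.map (fun a => (a : ℂ)))ᵀ).det ≠ 0 := by
  intro hdet
  have hx0 : x ≠ 0 := norm_pos_iff.1 (by linarith)
  obtain ⟨v, hv, hv0⟩ := Matrix.exists_mulVec_eq_zero_iff.2 hdet
  set p := x.re with hp
  set k := x.im with hk
  set N := ‖x‖ ^ 2 with hN
  have hN1 : 1 < N := by rw [hN]; nlinarith
  have hN0 : 0 < N := by linarith
  have hinv : x⁻¹ = (starRingEnd ℂ) x / (N : ℂ) := by
    rw [Complex.inv_def, Complex.normSq_eq_norm_sq, ← hN, div_eq_mul_inv, Complex.ofReal_inv]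
  have hinv_re : (x⁻¹).re = p / N := by
    rw [Complex.inv_re, Complex.normSq_eq_norm_sq]
  have hinv_im : (x⁻¹).im = -k / N := by
    rw [Complex.inv_im, Complex.normSq_eq_norm_sq]
  simp only [Complex.sub_re, Complex.sub_im, hinv_re, hinv_im, ← hp, ← hk] at hs
  have hs' : k ^ 2 * (N + 1) ^ 2 < 3 * p ^ 2 * (N - 1) ^ 2 := by
    have e1 : (k - -k / N) ^ 2 = k ^ 2 * (N + 1) ^ 2 / N ^ 2 := by field_simp; ring
    have e2 : 3 * (p - p / N) ^ 2 = 3 * p ^ 2 * (N - 1) ^ 2 / N ^ 2 := by field_simp
    rw [e1, e2] at hs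
    exact (div_lt_div_iff_of_pos_right (by positivity : 0 < N ^ 2)).1 hs
  have hp0 : p ≠ 0 := by
    intro h'
    rw [h'] at hs'
    nlinarith [mul_nonneg (sq_nonneg k) (sq_nonneg (N + 1))]
  set κ := k / p with hκ
  have hkκ : k = κ * p := by rw [hκ]; field_simp
  have hκ3 : κ ^ 2 < 3 := by
    have hk3 : k ^ 2 < 3 * p ^ 2 := by
      have h3 : k ^ 2 * (N + 1) ^ 2 < 3 * p ^ 2 * (N + 1) ^ 2 := by
        have : (N - 1) ^ 2 ≤ (N + 1) ^ 2 := by nlinarith
        have h4 := mul_le_mul_of_nonneg_left this (by positivity : 0 ≤ 3 * p ^ 2)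
        linarith
      exact lt_of_mul_lt_mul_right h3 (by positivity)
    rw [hκ, div_pow, div_lt_iff₀ (by positivity)]
    exact hk3
  obtain ⟨g, hg1, hg2⟩ := exists_g h0 h1 hT hκ3
  set G : ℝ := g * (N - 1) / (N + 1) with hG
  set e : ℤ → ℂ := fun c => if Even c then (⟨1, G⟩ : ℂ) else ⟨1, -G⟩ with he
  have hec : ∀ c, e (c + 1) = (starRingEnd ℂ) (e c) := by
    intro c
    by_cases hc : Even c
    · have : ¬ Even (c + 1) := by rw [Int.even_add_one]; exact not_not.2 hc
      simp only [he, hc, this, if_true, if_false]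
      exact Complex.ext rfl rfl
    · have : Even (c + 1) := by rw [Int.even_add_one]; exact hc
      simp only [he, hc, this, if_true, if_false]
      exact Complex.ext rfl (by simp)
  set u : ι → ℂ := fun j => x ^ (-h j) * v j with hu
  have hvu : ∀ j, v j = x ^ h j * u j := by
    intro j
    simp only [hu]
    rw [← mul_assoc, ← zpow_add₀ hx0]; simp
  have hu0 : u ≠ 0 := by
    intro h'
    apply hv
    ext j
    rw [hvu, h']; simp
  have hueq : ∀ i, ∑ j, x ^ (h j - h i) * (x * (V i j : ℂ) - x⁻¹ * (V j i : ℂ)) * u j = 0 := by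
    intro i
    have h2 := congrFun hv0 i
    simp only [Matrix.mulVec, dotProduct, Matrix.sub_apply, Matrix.smul_apply, Matrix.map_apply,
      Matrix.transpose_apply, smul_eq_mul, Pi.zero_apply] at h2
    have h3 : ∑ j, x ^ (h j - h i) * (x * (V i j : ℂ) - x⁻¹ * (V j i : ℂ)) * u j =
        x ^ (-h i) * ∑ j, (x * (V i j : ℂ) - x⁻¹ * (V j i : ℂ)) * v j := by
      rw [Finset.mul_sum]
      refine Finset.sum_congr rfl fun j _ => ?_
      rw [hvu j, sub_eq_neg_add (h j), zpow_add₀ hx0]
      ring
    rw [h3, h2, mul_zero]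
  have hE := energy V h tri hx0 u e hec hueq
  -- real part of each term
  have hterm : ∀ (c : ℤ) (a : ℂ), (e c * (x * a - x⁻¹ * (starRingEnd ℂ) a)).re =
      (1 - 1 / N) * p * (a.re * (1 - κ * (if Even c then g else -g)) -
        a.im * (κ + (if Even c then g else -g))) := by
    intro c a
    have e0 : (e c).re = 1 := by
      simp only [he]; split_ifs <;> rfl
    have e1 : (e c).im = (if Even c then g else -g) * (N - 1) / (N + 1) := by
      simp only [he]
      split_ifs
      · rfl
      · change -G = _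
        rw [hG]; ring
    rw [Complex.mul_re, e0, e1]
    simp only [Complex.sub_re, Complex.sub_im, Complex.mul_re, Complex.mul_im, Complex.conj_re,
      Complex.conj_im, hinv_re, hinv_im, ← hp, ← hk]
    rw [hkκ]
    have : N + 1 ≠ 0 := by linarith
    field_simp
    ring
  rw [Complex.re_sum] at hE
  simp only [hterm] at hE
  rw [← Finset.mul_sum] at hE
  have hc0 : (1 - 1 / N) * p ≠ 0 := by
    apply mul_ne_zero _ hp0
    have : 1 / N < 1 := by rw [div_lt_one hN0]; exact hN1
    linarith
  have hE' := (mul_eq_zero.1 hE).resolve_left hc0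
  -- each summand is nonnegative, and positive unless the part vanishes
  have hpos : ∀ c : ℤ, part h u c ≠ 0 →
      0 < (form V (part h u c)).re * (1 - κ * (if Even c then g else -g)) -
        (form V (part h u c)).im * (κ + (if Even c then g else -g)) := by
    intro c hne
    obtain ⟨r1, r2⟩ := hV c (part h u c) (by
      intro i hi
      by_contra hcon
      exact hi (by simp [part, hcon])) hne
    set a := form V (part h u c) with ha
    have hab : ∀ (t T : ℝ), T * |κ + t| < 1 - κ * t → |a.im| ≤ T * a.re →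
        0 < a.re * (1 - κ * t) - a.im * (κ + t) := by
      intro t T ht1 ht2
      have h3 : a.im * (κ + t) ≤ |a.im| * |κ + t| := by
        rw [← abs_mul]; exact le_abs_self _
      have h4 : |a.im| * |κ + t| ≤ T * a.re * |κ + t| :=
        mul_le_mul_of_nonneg_right ht2 (abs_nonneg _)
      have h5 : a.re * (T * |κ + t|) < a.re * (1 - κ * t) := mul_lt_mul_of_pos_left ht1 r1
      nlinarith
    by_cases hc : Even c
    · simp only [hc, if_true] at r2 ⊢
      exact hab g T0 hg1 r2
    · simp only [hc, if_false] at r2 ⊢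
      exact hab (-g) T1 (by
        rw [← sub_eq_add_neg]; linarith) r2
  have hnn : ∀ c ∈ Finset.univ.image h,
      0 ≤ (form V (part h u c)).re * (1 - κ * (if Even c then g else -g)) -
        (form V (part h u c)).im * (κ + (if Even c then g else -g)) := by
    intro c _
    by_cases hne : part h u c = 0
    · rw [hne, form_zero]; simp
    · exact (hpos c hne).le
  have hz := (Finset.sum_eq_zero_iff_of_nonneg hnn).1 hE'
  apply hu0
  ext i
  have hpi : part h u (h i) = 0 := by
    by_contra hne
    exact (hpos _ hne).ne' (hz (h i) (Finset.mem_image_of_mem h (Finset.mem_univ i)))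
  have := congrFun hpi i
  simpa [part] using this

end Pool.Agent.Helper76.Conway
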