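import Mathlib
import Pool.Agent.Helper76.Conway.Sector
import Pool.Agent.Helper76.Conway.Parity

/-!
# Small special alternating pieces, and the passage to coefficients
-/

namespace Pool.Agent.Helper76.Conway

open Matrix Polynomial

variable {ι : Type*} [Fintype ι] [DecidableEq ι]

/-- `P` is the Conway polynomial of the Seifert matrix `V`:
`P (x - x⁻¹) = det (x V - x⁻¹ Vᵀ)` for all complex `x ≠ 0`. -/
def IsConwayOf (V : Matrix ι ι ℤ) (P : ℤ[X]) : Prop :=
  ∀ x : ℂ, x ≠ 0 → aeval (x - x⁻¹) P =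
    (x • V.map (fun a => (a : ℂ)) - x⁻¹ • (V.map (fun a => (a : ℂ)))ᵀ).det

theorem exists_sub_inv (z : ℂ) : ∃ x : ℂ, x ≠ 0 ∧ x - x⁻¹ = z := by
  obtain ⟨y, hy⟩ := IsAlgClosed.exists_pow_nat_eq (z ^ 2 + 4) (n := 2) (by norm_num)
  refine ⟨(z + y) / 2, ?_, ?_⟩
  · intro h
    have h1 : y = -z := by
      have h2 : z + y = 0 := by
        have := congrArg (fun a => a * 2) h
        simpa using this
      linear_combination h2
    rw [h1] at hy
    have : (4 : ℂ) = 0 := by linear_combination -hy
    norm_num at this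
  · have hne : (z + y) / 2 ≠ 0 := by
      intro h
      have h1 : y = -z := by
        have h2 : z + y = 0 := by
          have := congrArg (fun a => a * 2) h
          simpa using this
        linear_combination h2
      rw [h1] at hy
      have : (4 : ℂ) = 0 := by linear_combination -hy
      norm_num at this
    have hne2 : z + y ≠ 0 := fun h => hne (by rw [h]; simp)
    field_simp
    linear_combination hy

/-- The exponents of `P` have the parity of the size of `V`. -/
theorem IsConwayOf.parity {V : Matrix ι ι ℤ} {P : ℤ[X]} (hP : IsConwayOf V P) (j : ℕ)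
    (hj : (j + Fintype.card ι) % 2 = 1) : P.coeff j = 0 := by
  -- `P (-X) = (-1)^N P`
  have h1 : ∀ z : ℂ, aeval (-z) P = (-1) ^ Fintype.card ι * aeval z P := by
    intro z
    obtain ⟨x, hx, rfl⟩ := exists_sub_inv z
    have h2 := hP (-x) (neg_ne_zero.2 hx)
    have h3 := hP x hx
    rw [h3, ← Matrix.det_neg, show -(x - x⁻¹) = -x - (-x)⁻¹ by rw [inv_neg]; ring, h2]
    congr 1
    rw [inv_neg, neg_smul, neg_smul]
    abel
  have h2 : (P.comp (-X)).map (Int.castRingHom ℂ) =
      (C ((-1) ^ Fintype.card ι) * P).map (Int.castRingHom ℂ) := by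
    apply Polynomial.funext
    intro z
    have := h1 z
    rw [Polynomial.map_comp, Polynomial.eval_comp, Polynomial.map_mul, Polynomial.eval_mul,
      Polynomial.map_neg, Polynomial.map_X, Polynomial.eval_neg, Polynomial.eval_X,
      Polynomial.map_C, Polynomial.eval_C, Polynomial.eval_map, Polynomial.eval_map]
    rw [aeval_def, aeval_def] at this
    simpa using this
  have h3 : P.comp (-X) = C ((-1) ^ Fintype.card ι) * P :=
    Polynomial.map_injective _ (RingHom.injective_int _) h2
  have h4 := congrArg (fun Q => Q.coeff j) h3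
  simp only [Polynomial.coeff_C_mul] at h4
  have h5 : (P.comp (-X)).coeff j = (-1) ^ j * P.coeff j := by
    rw [show (-X : ℤ[X]) = C (-1) * X by simp, Polynomial.comp_C_mul_X_coeff, mul_comm]
  rw [h5] at h4
  have h6 : (-1 : ℤ) ^ j = -(-1) ^ Fintype.card ι := by
    rcases Nat.even_or_odd j with h | h
    · have : Odd (Fintype.card ι) := by
        rw [Nat.odd_iff]; rw [Nat.even_iff] at h; omega
      rw [h.neg_one_pow, this.neg_one_pow]; norm_num
    · have : Even (Fintype.card ι) := by
        rw [Nat.even_iff]; rw [Nat.odd_iff] at h; omega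
      rw [h.neg_one_pow, this.neg_one_pow]
  rw [h6] at h4
  have h7 : ((-1 : ℤ) ^ Fintype.card ι) * P.coeff j = 0 := by linarith
  rcases mul_eq_zero.1 h7 with h | h
  · exact absurd h (pow_ne_zero _ (by norm_num))
  · exact h

/-- General statement: log-concavity from a sector condition on the levels. -/
theorem main_of_levels (V : Matrix ι ι ℤ) (P : ℤ[X]) (hP : IsConwayOf V P) (h : ι → ℤ)
    (tri : ∀ i j, V i j ≠ 0 → h i = h j ∨ h i = h j + 1) {T0 T1 : ℝ} (h0 : 0 ≤ T0) (h1 : 0 ≤ T1)
    (hT : T0 + T1 ≤ √3 * (1 - T0 * T1))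
    (hV : ∀ (c : ℤ) (v : ι → ℂ), (∀ i, v i ≠ 0 → h i = c) → v ≠ 0 →
      0 < (form (V.map (fun a => (a : ℝ))) v).re ∧
        |(form (V.map (fun a => (a : ℝ))) v).im| ≤
          (if Even c then T0 else T1) * (form (V.map (fun a => (a : ℝ))) v).re) :
    (∀ j : ℤ, cz P (j + 2) * cz P (j - 2) ≤ cz P j ^ 2) ∧
      ∀ z : ℂ, aeval z P = 0 → 3 * z.re ^ 2 ≤ z.im ^ 2 := by
  have hz : ∀ z : ℂ, aeval z P = 0 → 3 * z.re ^ 2 ≤ z.im ^ 2 := by
    intro z hz
    by_contra hcon
    push Not at hcon
    have hre : z.re ≠ 0 := by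
      intro h'
      rw [h'] at hcon
      nlinarith [sq_nonneg z.im]
    obtain ⟨x, hx, hxz⟩ := exists_x hre
    have hx0 : x ≠ 0 := norm_pos_iff.1 (by linarith)
    have h2 := hP x hx0
    rw [hxz, hz] at h2
    refine det_ne_zero_of_sector (V.map (fun a => (a : ℝ))) h ?_ h0 h1 hT hV hx
      (by rw [hxz]; exact hcon) ?_
    · intro i j hij
      apply tri
      intro h'
      apply hij
      simp [h']
    · rw [Matrix.map_map]
      have e : ((fun a : ℝ => (a : ℂ)) ∘ fun a : ℤ => (a : ℝ)) = fun a : ℤ => (a : ℂ) := by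
        funext a; simp
      rw [e]
      exact h2.symm
  exact ⟨logConcave_main P (Fintype.card ι) (fun j hj => hP.parity j hj) (fun _ => hz), hz⟩

/-- The combinatorial structure of the Seifert matrix of a positive diagram. The index set (the
bounded complementary regions of the special alternating pieces) is divided into pieces by `p`; each
piece has a level `h`; on a piece, `V` is the Laplacian of a connected Eulerian digraph with the row
and column of one vertex deleted; entries between different pieces only occur from one level to the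
next one. -/
structure IsPositiveSeifert (V : Matrix ι ι ℤ) (p h : ι → ℤ) : Prop where
  level : ∀ i j, p i = p j → h i = h j
  tri : ∀ i j, V i j ≠ 0 → p i = p j ∨ h i = h j + 1
  off : ∀ i j, i ≠ j → p i = p j → V i j ≤ 0
  row : ∀ i, 0 ≤ ∑ j with p j = p i, V i j
  col : ∀ j, 0 ≤ ∑ i with p i = p j, V i j
  conn : ∀ A : Finset ι, A.Nonempty → (∀ i ∈ A, ∀ j ∈ A, p i = p j) →
    0 < ∑ i ∈ A, ∑ j ∈ A, V i j

/-- The form splits over pieces. -/
theorem form_eq_sum_part (V : Matrix ι ι ℝ) (p : ι → ℤ) (v : ι → ℂ)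
    (hv : ∀ i j, v i ≠ 0 → v j ≠ 0 → V i j ≠ 0 → p i = p j) :
    form V v = ∑ c ∈ Finset.univ.image p, form V (part p v c) := by
  have h1 : ∀ c, form V (part p v c) = ∑ i, ∑ j, if p i = c ∧ p j = c then
      (starRingEnd ℂ) (v i) * (V i j : ℂ) * v j else 0 := by
    intro c
    unfold form part
    refine Finset.sum_congr rfl fun i _ => Finset.sum_congr rfl fun j _ => ?_
    by_cases hi : p i = c
    · by_cases hj : p j = c
      · simp [hi, hj]
      · simp [hi, hj]
    · simp [hi]
  simp only [h1]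
  symm
  rw [Finset.sum_comm]
  unfold form
  refine Finset.sum_congr rfl fun i _ => ?_
  rw [Finset.sum_comm]
  refine Finset.sum_congr rfl fun j _ => ?_
  by_cases hij : p i = p j
  · rw [Finset.sum_eq_single (p i)]
    · simp [hij]
    · intro c _ hc
      rw [if_neg]; rintro ⟨h2, -⟩; exact hc h2.symm
    · intro hc; exact absurd (Finset.mem_image_of_mem p (Finset.mem_univ i)) hc
  · have h0 : (starRingEnd ℂ) (v i) * (V i j : ℂ) * v j = 0 := by
      by_contra hne
      apply hij
      apply hv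
      · intro h'; apply hne; simp [h']
      · intro h'; apply hne; simp [h']
      · intro h'; apply hne; simp [h']
    rw [h0]
    apply Finset.sum_eq_zero
    intro c _
    simp

/-- The inequality for pieces with two regions. -/
theorem two_ineq {a d b c : ℝ} (hb : 0 ≤ b) (hc : 0 ≤ c) (hab : b ≤ a) (hac : c ≤ a) (hdb : b ≤ d)
    (hdc : c ≤ d) (ha : 0 < a) (hd : 0 < d) (hconn : b + c < a + d) (x y : ℂ)
    (hxy : x ≠ 0 ∨ y ≠ 0) :
    0 < a * ‖x‖ ^ 2 + d * ‖y‖ ^ 2 - (b + c) * ((starRingEnd ℂ) x * y).re ∧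
      √3 * |(c - b) * ((starRingEnd ℂ) x * y).im| ≤
        a * ‖x‖ ^ 2 + d * ‖y‖ ^ 2 - (b + c) * ((starRingEnd ℂ) x * y).re := by
  set q := (starRingEnd ℂ) x * y with hq
  have hs : (√3 : ℝ) ^ 2 = 3 := Real.sq_sqrt (by norm_num)
  have hs0 : 0 < √3 := Real.sqrt_pos.2 (by norm_num)
  have hqn : q.re ^ 2 + q.im ^ 2 = ‖x‖ ^ 2 * ‖y‖ ^ 2 := by
    have : ‖q‖ ^ 2 = q.re ^ 2 + q.im ^ 2 := by
      rw [← Complex.normSq_eq_norm_sq, Complex.normSq_apply]; ring
    rw [← this, hq, norm_mul, RCLike.norm_conj]; ring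
  have hx0 := norm_nonneg x
  have hy0 := norm_nonneg y
  constructor
  · have h1 : q.re ≤ ‖x‖ * ‖y‖ := by
      have : q.re ^ 2 ≤ (‖x‖ * ‖y‖) ^ 2 := by rw [mul_pow, ← hqn]; nlinarith [sq_nonneg q.im]
      exact abs_le_of_sq_le_sq' this (by positivity) |>.2
    have h2 : (b + c) * q.re ≤ (b + c) * (‖x‖ * ‖y‖) :=
      mul_le_mul_of_nonneg_left h1 (by linarith)
    have h3 : 0 < a * ‖x‖ ^ 2 + d * ‖y‖ ^ 2 - (b + c) * (‖x‖ * ‖y‖) := by
      rcases hxy with h | h
      · have hx1 : 0 < ‖x‖ := norm_pos_iff.2 h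
        by_contra hcon
        push Not at hcon
        have e1 : a * ‖x‖ ^ 2 + d * ‖y‖ ^ 2 - (b + c) * (‖x‖ * ‖y‖) =
          (a - (b + c) / 2) * ‖x‖ ^ 2 + (d - (b + c) / 2) * ‖y‖ ^ 2 +
            (b + c) / 2 * (‖x‖ - ‖y‖) ^ 2 := by ring
        have p1 : 0 ≤ (a - (b + c) / 2) * ‖x‖ ^ 2 := mul_nonneg (by linarith) (by positivity)
        have p2 : 0 ≤ (d - (b + c) / 2) * ‖y‖ ^ 2 := mul_nonneg (by linarith) (by positivity)
        have p3 : 0 ≤ (b + c) / 2 * (‖x‖ - ‖y‖) ^ 2 := mul_nonneg (by linarith) (by positivity)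
        have z1 : (a - (b + c) / 2) * ‖x‖ ^ 2 = 0 := by linarith
        have z2 : (d - (b + c) / 2) * ‖y‖ ^ 2 = 0 := by linarith
        have z3 : (b + c) / 2 * (‖x‖ - ‖y‖) ^ 2 = 0 := by linarith
        have w1 : a = (b + c) / 2 := by
          rcases mul_eq_zero.1 z1 with h | h
          · linarith
          · exact absurd h (by positivity)
        have w3 : ‖x‖ = ‖y‖ := by
          rcases mul_eq_zero.1 z3 with h | h
          · linarith
          · have := pow_eq_zero_iff (two_ne_zero) |>.1 h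
            linarith
        have w2 : d = (b + c) / 2 := by
          rcases mul_eq_zero.1 z2 with h | h
          · linarith
          · rw [← w3] at h
            exact absurd h (by positivity)
        linarith
      · have hy1 : 0 < ‖y‖ := norm_pos_iff.2 h
        by_contra hcon
        push Not at hcon
        have e1 : a * ‖x‖ ^ 2 + d * ‖y‖ ^ 2 - (b + c) * (‖x‖ * ‖y‖) =
          (a - (b + c) / 2) * ‖x‖ ^ 2 + (d - (b + c) / 2) * ‖y‖ ^ 2 +
            (b + c) / 2 * (‖x‖ - ‖y‖) ^ 2 := by ring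
        have p1 : 0 ≤ (a - (b + c) / 2) * ‖x‖ ^ 2 := mul_nonneg (by linarith) (by positivity)
        have p2 : 0 ≤ (d - (b + c) / 2) * ‖y‖ ^ 2 := mul_nonneg (by linarith) (by positivity)
        have p3 : 0 ≤ (b + c) / 2 * (‖x‖ - ‖y‖) ^ 2 := mul_nonneg (by linarith) (by positivity)
        have z1 : (a - (b + c) / 2) * ‖x‖ ^ 2 = 0 := by linarith
        have z2 : (d - (b + c) / 2) * ‖y‖ ^ 2 = 0 := by linarith
        have z3 : (b + c) / 2 * (‖x‖ - ‖y‖) ^ 2 = 0 := by linarith
        have w2 : d = (b + c) / 2 := by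
          rcases mul_eq_zero.1 z2 with h | h
          · linarith
          · exact absurd h (by positivity)
        have w3 : ‖x‖ = ‖y‖ := by
          rcases mul_eq_zero.1 z3 with h | h
          · linarith
          · have := pow_eq_zero_iff (two_ne_zero) |>.1 h
            linarith
        have w1 : a = (b + c) / 2 := by
          rcases mul_eq_zero.1 z1 with h | h
          · linarith
          · rw [w3] at h
            exact absurd h (by positivity)
        linarith
    linarith
  · -- the sector inequality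
    obtain ⟨m, hm1, hm2, hm3, hm4, hm5⟩ : ∃ m : ℝ, 0 ≤ m ∧ m ≤ a ∧ m ≤ d ∧
        3 * (c - b) ^ 2 + (b + c) ^ 2 ≤ (2 * m) ^ 2 ∧ 0 ≤ m := by
      rcases le_total b c with hbc | hbc
      · exact ⟨c, hc, hac, hdc, by nlinarith [mul_nonneg hb (sub_nonneg.2 hbc)], hc⟩
      · exact ⟨b, hb, hab, hdb, by nlinarith [mul_nonneg hc (sub_nonneg.2 hbc)], hb⟩
    have h1 : √3 * |(c - b) * q.im| + (b + c) * q.re ≤ 2 * m * (‖x‖ * ‖y‖) := by
      have h2 : (√3 * |(c - b) * q.im| + (b + c) * q.re) ^ 2 ≤ (2 * m * (‖x‖ * ‖y‖)) ^ 2 := by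
        have e1 : |(c - b) * q.im| = |c - b| * |q.im| := abs_mul _ _
        rw [e1]
        have e2 : |c - b| ^ 2 = (c - b) ^ 2 := sq_abs _
        have e3 : |q.im| ^ 2 = q.im ^ 2 := sq_abs _
        have e4 : (√3 * (|c - b| * |q.im|) + (b + c) * q.re) ^ 2 +
            (√3 * |c - b| * q.re - (b + c) * |q.im|) ^ 2 =
            (√3 ^ 2 * |c - b| ^ 2 + (b + c) ^ 2) * (q.re ^ 2 + |q.im| ^ 2) := by ring
        rw [hs, e2, e3, hqn] at e4
        have e5 : (3 * (c - b) ^ 2 + (b + c) ^ 2) * (‖x‖ ^ 2 * ‖y‖ ^ 2) ≤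
            (2 * m) ^ 2 * (‖x‖ ^ 2 * ‖y‖ ^ 2) := mul_le_mul_of_nonneg_right hm4 (by positivity)
        have e6 : (2 * m * (‖x‖ * ‖y‖)) ^ 2 = (2 * m) ^ 2 * (‖x‖ ^ 2 * ‖y‖ ^ 2) := by ring
        rw [e6]
        nlinarith [sq_nonneg (√3 * |c - b| * q.re - (b + c) * |q.im|)]
      exact abs_le_of_sq_le_sq' h2 (by positivity) |>.2
    have h3 : 2 * m * (‖x‖ * ‖y‖) ≤ a * ‖x‖ ^ 2 + d * ‖y‖ ^ 2 := by
      nlinarith [mul_nonneg hm1 (sq_nonneg (‖x‖ - ‖y‖)),
        mul_le_mul_of_nonneg_right hm2 (sq_nonneg ‖x‖),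
        mul_le_mul_of_nonneg_right hm3 (sq_nonneg ‖y‖)]
    linarith

/-- The sector condition for a piece with at most two regions. -/
theorem piece_bound {V : Matrix ι ι ℤ} {p h : ι → ℤ} (hS : IsPositiveSeifert V p h) (c : ℤ)
    (hcard : (Finset.univ.filter (fun i => p i = c)).card ≤ 2) (v : ι → ℂ)
    (hv : ∀ i, v i ≠ 0 → p i = c) (hv0 : v ≠ 0) :
    0 < (form (V.map (fun a => (a : ℝ))) v).re ∧
      √3 * |(form (V.map (fun a => (a : ℝ))) v).im| ≤
        (form (V.map (fun a => (a : ℝ))) v).re := by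
  set s := Finset.univ.filter (fun i => p i = c) with hs
  have hmem : ∀ i, i ∈ s ↔ p i = c := fun i => by simp [hs]
  have hform : form (V.map (fun a => (a : ℝ))) v =
      ∑ i ∈ s, ∑ j ∈ s, (starRingEnd ℂ) (v i) * (V i j : ℂ) * v j := by
    unfold form
    rw [← Finset.sum_subset (Finset.subset_univ s)]
    · refine Finset.sum_congr rfl fun i _ => ?_
      rw [← Finset.sum_subset (Finset.subset_univ s)]
      · exact Finset.sum_congr rfl fun j _ => by simp
      · intro j _ hj
        have : v j = 0 := by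
          by_contra h'; exact hj ((hmem j).2 (hv j h'))
        simp [this]
    · intro i _ hi
      have : v i = 0 := by
        by_contra h'; exact hi ((hmem i).2 (hv i h'))
      simp [this]
  obtain ⟨i0, hi0⟩ := Function.ne_iff.1 hv0
  have hi0s : i0 ∈ s := (hmem i0).2 (hv i0 hi0)
  have hpos : 0 < s.card := Finset.card_pos.2 ⟨i0, hi0s⟩
  have hdiag : ∀ i, 0 < V i i := by
    intro i
    have := hS.conn {i} (Finset.singleton_nonempty i) (by simp)
    simpa using this
  rcases Nat.lt_or_ge s.card 2 with h1 | h1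
  · have h1' : s.card = 1 := by omega
    obtain ⟨a, ha⟩ := Finset.card_eq_one.1 h1'
    have hi0a : i0 = a := by rw [ha] at hi0s; exact Finset.mem_singleton.1 hi0s
    rw [hform, ha]
    simp only [Finset.sum_singleton]
    have e : (starRingEnd ℂ) (v a) * (V a a : ℂ) * v a = (((V a a : ℝ) * ‖v a‖ ^ 2 : ℝ) : ℂ) := by
      have : (starRingEnd ℂ) (v a) * v a = ((‖v a‖ ^ 2 : ℝ) : ℂ) := by
        rw [mul_comm, Complex.mul_conj, Complex.normSq_eq_norm_sq]
      calc (starRingEnd ℂ) (v a) * (V a a : ℂ) * v a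
          = (V a a : ℂ) * ((starRingEnd ℂ) (v a) * v a) := by ring
        _ = _ := by rw [this]; push_cast; ring
    rw [e, Complex.ofReal_re, Complex.ofReal_im]
    have hva : 0 < ‖v a‖ := norm_pos_iff.2 (hi0a ▸ hi0)
    have hVa : (0 : ℝ) < V a a := by exact_mod_cast hdiag a
    refine ⟨by positivity, ?_⟩
    rw [abs_zero, mul_zero]
    positivity
  · have h2 : s.card = 2 := le_antisymm hcard h1
    obtain ⟨a, b, hab, hsab⟩ := Finset.card_eq_two.1 h2
    have hpa : p a = c := (hmem a).1 (by rw [hsab]; simp)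
    have hpb : p b = c := (hmem b).1 (by rw [hsab]; simp)
    have r1 := hS.row a
    have r2 := hS.row b
    have c1 := hS.col a
    have c2 := hS.col b
    rw [hpa, ← hs, hsab, Finset.sum_pair hab] at r1 c1
    rw [hpb, ← hs, hsab, Finset.sum_pair hab] at r2 c2
    have o1 := hS.off a b hab (hpa.trans hpb.symm)
    have o2 := hS.off b a hab.symm (hpb.trans hpa.symm)
    have cn := hS.conn {a, b} (Finset.insert_nonempty a {b}) (by
      intro i hi j hj
      simp only [Finset.mem_insert, Finset.mem_singleton] at hi hj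
      rcases hi with rfl | rfl <;> rcases hj with rfl | rfl <;> simp [hpa, hpb])
    rw [Finset.sum_pair hab, Finset.sum_pair hab, Finset.sum_pair hab] at cn
    have key := two_ineq (a := (V a a : ℝ)) (d := (V b b : ℝ)) (b := -(V a b : ℝ))
      (c := -(V b a : ℝ)) (by exact_mod_cast neg_nonneg.2 o1) (by exact_mod_cast neg_nonneg.2 o2)
      (by have : (0 : ℝ) ≤ ((V a a + V a b : ℤ) : ℝ) := by exact_mod_cast r1
          push_cast at this; linarith)
      (by have : (0 : ℝ) ≤ ((V a a + V b a : ℤ) : ℝ) := by exact_mod_cast c1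
          push_cast at this; linarith)
      (by have : (0 : ℝ) ≤ ((V a b + V b b : ℤ) : ℝ) := by exact_mod_cast c2
          push_cast at this; linarith)
      (by have : (0 : ℝ) ≤ ((V b a + V b b : ℤ) : ℝ) := by exact_mod_cast r2
          push_cast at this; linarith)
      (by exact_mod_cast hdiag a) (by exact_mod_cast hdiag b)
      (by have : (0 : ℝ) < ((V a a + V a b + (V b a + V b b) : ℤ) : ℝ) := by exact_mod_cast cn
          push_cast at this; linarith) (v a) (v b)
      (by
        rw [hsab] at hi0s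
        simp only [Finset.mem_insert, Finset.mem_singleton] at hi0s
        rcases hi0s with rfl | rfl
        · exact Or.inl hi0
        · exact Or.inr hi0)
    rw [hform, hsab, Finset.sum_pair hab, Finset.sum_pair hab, Finset.sum_pair hab]
    have na : ∀ z : ℂ, ‖z‖ ^ 2 = z.re ^ 2 + z.im ^ 2 := by
      intro z; rw [← Complex.normSq_eq_norm_sq, Complex.normSq_apply]; ring
    have e1 : ((starRingEnd ℂ) (v a) * (V a a : ℂ) * v a + (starRingEnd ℂ) (v a) * (V a b : ℂ) * v b +
        ((starRingEnd ℂ) (v b) * (V b a : ℂ) * v a +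
          (starRingEnd ℂ) (v b) * (V b b : ℂ) * v b)).re =
        (V a a : ℝ) * ‖v a‖ ^ 2 + (V b b : ℝ) * ‖v b‖ ^ 2 -
          (-(V a b : ℝ) + -(V b a : ℝ)) * ((starRingEnd ℂ) (v a) * v b).re := by
      rw [na, na]
      simp only [Complex.add_re, Complex.mul_re, Complex.mul_im, Complex.conj_re, Complex.conj_im,
        Complex.intCast_re, Complex.intCast_im]
      ring
    have e2 : ((starRingEnd ℂ) (v a) * (V a a : ℂ) * v a + (starRingEnd ℂ) (v a) * (V a b : ℂ) * v b +
        ((starRingEnd ℂ) (v b) * (V b a : ℂ) * v a +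
          (starRingEnd ℂ) (v b) * (V b b : ℂ) * v b)).im =
        (-(V b a : ℝ) - -(V a b : ℝ)) * ((starRingEnd ℂ) (v a) * v b).im := by
      simp only [Complex.add_im, Complex.mul_re, Complex.mul_im, Complex.conj_re, Complex.conj_im,
        Complex.intCast_re, Complex.intCast_im]
      ring
    rw [e1, e2]
    exact key

/-- Log-concavity if every piece has at most two regions. -/
theorem main_of_small (V : Matrix ι ι ℤ) (p h : ι → ℤ) (hS : IsPositiveSeifert V p h)
    (hcard : ∀ c, (Finset.univ.filter (fun i => p i = c)).card ≤ 2) (P : ℤ[X])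
    (hP : IsConwayOf V P) :
    (∀ j : ℤ, cz P (j + 2) * cz P (j - 2) ≤ cz P j ^ 2) ∧
      ∀ z : ℂ, aeval z P = 0 → 3 * z.re ^ 2 ≤ z.im ^ 2 := by
  have hs : (√3 : ℝ) ^ 2 = 3 := Real.sq_sqrt (by norm_num)
  have hs0 : 0 < √3 := Real.sqrt_pos.2 (by norm_num)
  refine main_of_levels V P hP h ?_ (T0 := 1 / √3) (T1 := 1 / √3) (by positivity) (by positivity)
    ?_ ?_
  · intro i j hij
    rcases hS.tri i j hij with h' | h'
    · exact Or.inl (hS.level i j h')
    · exact Or.inr h'
  · rw [div_mul_div_comm, Real.mul_self_sqrt (by norm_num : (0 : ℝ) ≤ 3)]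
    rw [show (1 : ℝ) * 1 / 3 = 1 / 3 by norm_num]
    have : 1 / √3 = √3 / 3 := by
      rw [div_eq_div_iff hs0.ne' (by norm_num), ← sq, hs]; norm_num
    rw [this]
    linarith
  · intro c v hv hv0
    set W := V.map (fun a => (a : ℝ)) with hW
    have hsplit := form_eq_sum_part W p v (by
      intro i j hi hj hij
      have h1 : V i j ≠ 0 := by
        intro h'; apply hij; simp [hW, h']
      rcases hS.tri i j h1 with h' | h'
      · exact h'
      · rw [hv i hi, hv j hj] at h'; omega)
    have hpart : ∀ c', part p v c' ≠ 0 → 0 < (form W (part p v c')).re ∧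
        √3 * |(form W (part p v c')).im| ≤ (form W (part p v c')).re := by
      intro c' hne
      exact piece_bound hS c' (hcard c') _ (by
        intro i hi
        by_contra hcon
        exact hi (by simp [part, hcon])) hne
    have hpart' : ∀ c', 0 ≤ (form W (part p v c')).re ∧
        √3 * |(form W (part p v c')).im| ≤ (form W (part p v c')).re := by
      intro c'
      by_cases hne : part p v c' = 0
      · rw [hne, form_zero]; simp
      · exact ⟨(hpart c' hne).1.le, (hpart c' hne).2⟩
    have hre : 0 < (form W v).re := by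
      rw [hsplit, Complex.re_sum]
      obtain ⟨i0, hi0⟩ := Function.ne_iff.1 hv0
      apply Finset.sum_pos' (fun c' _ => (hpart' c').1)
      refine ⟨p i0, Finset.mem_image_of_mem p (Finset.mem_univ i0), (hpart (p i0) ?_).1⟩
      intro h'
      have := congrFun h' i0
      simp [part] at this
      exact hi0 this
    have him : √3 * |(form W v).im| ≤ (form W v).re := by
      rw [hsplit, Complex.re_sum, Complex.im_sum]
      calc √3 * |∑ c' ∈ Finset.univ.image p, (form W (part p v c')).im|
          ≤ √3 * ∑ c' ∈ Finset.univ.image p, |(form W (part p v c')).im| :=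
            mul_le_mul_of_nonneg_left (Finset.abs_sum_le_sum_abs _ _) hs0.le
        _ = ∑ c' ∈ Finset.univ.image p, √3 * |(form W (part p v c')).im| := Finset.mul_sum _ _ _
        _ ≤ _ := Finset.sum_le_sum fun c' _ => (hpart' c').2
    refine ⟨hre, ?_⟩
    have h3 : |(form W v).im| ≤ 1 / √3 * (form W v).re := by
      rw [div_mul_eq_mul_div, one_mul, le_div_iff₀ hs0]
      linarith
    split_ifs
    · exact h3
    · exact h3

end Pool.Agent.Helper76.Conway
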