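import Mathlib
import Pool.Agent.Helper76.Conway.Pieces

/-!
# The Seifert matrix of a positive braid word (brick diagram)
-/

namespace Pool.Agent.Helper76.Conway

open Matrix Polynomial

/-- A brick of the word `w`: two consecutive occurrences `b.1 < b.2` of the same letter. -/
def IsBrick {L : ℕ} (w : Fin L → ℕ) (b : Fin L × Fin L) : Prop :=
  b.1 < b.2 ∧ w b.2 = w b.1 ∧ ∀ r, b.1 < r → r < b.2 → w r ≠ w b.1

instance {L : ℕ} (w : Fin L → ℕ) : DecidablePred (IsBrick w) := fun b => by
  unfold IsBrick; infer_instance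

/-- The bricks of a word. -/
abbrev Brick {L : ℕ} (w : Fin L → ℕ) : Type := {b : Fin L × Fin L // IsBrick w b}

/-- The Seifert matrix of the closure of the positive braid word `σ_{w 0} σ_{w 1} …`, with respect to
the basis given by the bricks. -/
def brickMatrix {L : ℕ} (w : Fin L → ℕ) : Matrix (Brick w) (Brick w) ℤ := fun b c =>
  if b = c then 1
  else if b.1.2 = c.1.1 then -1
  else if w b.1.1 = w c.1.1 + 1 then
    (if c.1.1 < b.1.1 ∧ b.1.1 < c.1.2 ∧ c.1.2 < b.1.2 then 1
    else if b.1.1 < c.1.1 ∧ c.1.1 < b.1.2 ∧ b.1.2 < c.1.2 then -1 else 0)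
  else 0

variable {L : ℕ} {w : Fin L → ℕ}

theorem brick_ext {b c : Brick w} (h : b.1.1 = c.1.1) : b = c := by
  obtain ⟨⟨b1, b2⟩, hb1, hb2, hb3⟩ := b
  obtain ⟨⟨c1, c2⟩, hc1, hc2, hc3⟩ := c
  simp only at h hb1 hb2 hb3 hc1 hc2 hc3
  subst h
  have : b2 = c2 := by
    rcases lt_trichotomy b2 c2 with h | h | h
    · exact absurd hb2 (hc3 b2 hb1 h)
    · exact h
    · exact absurd hc2 (hb3 c2 hc1 h)
  subst this
  rfl

theorem brick_ext' {b c : Brick w} (h : b.1.2 = c.1.2) : b = c := by
  apply brick_ext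
  obtain ⟨⟨b1, b2⟩, hb1, hb2, hb3⟩ := b
  obtain ⟨⟨c1, c2⟩, hc1, hc2, hc3⟩ := c
  simp only at h hb1 hb2 hb3 hc1 hc2 hc3 ⊢
  subst h
  rcases lt_trichotomy b1 c1 with h | h | h
  · exact absurd (hc2.symm.trans hb2) (hb3 c1 h hc1)
  · exact h
  · exact absurd (hb2.symm.trans hc2) (hc3 b1 h hb1)

/-- entries inside a column -/
theorem brick_same {b c : Brick w} (h : w b.1.1 = w c.1.1) :
    brickMatrix w b c = (if b = c then 1 else 0) - (if b.1.2 = c.1.1 then 1 else 0) := by
  unfold brickMatrix
  by_cases h1 : b = c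
  · subst h1
    have : b.1.2 ≠ b.1.1 := (ne_of_lt b.2.1).symm
    simp [this]
  · rw [if_neg h1, if_neg h1]
    by_cases h2 : b.1.2 = c.1.1
    · simp [h2]
    · rw [if_neg h2, if_neg h2, if_neg (by omega)]
      norm_num

theorem isPositiveSeifert_brick (w : Fin L → ℕ) :
    IsPositiveSeifert (brickMatrix w) (fun b => (w b.1.1 : ℤ)) (fun b => (w b.1.1 : ℤ)) := by
  refine ⟨fun i j h => h, ?_, ?_, ?_, ?_, ?_⟩
  · intro b c hbc
    by_cases h : w b.1.1 = w c.1.1
    · left; exact_mod_cast h
    · right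
      unfold brickMatrix at hbc
      have h1 : b ≠ c := fun h' => h (by rw [h'])
      have h2 : b.1.2 ≠ c.1.1 := by
        intro h'
        apply h
        rw [← h', b.2.2.1]
      rw [if_neg h1, if_neg h2] at hbc
      by_cases h3 : w b.1.1 = w c.1.1 + 1
      · exact_mod_cast h3
      · rw [if_neg h3] at hbc; exact absurd rfl hbc
  · intro b c hbc hp
    have hp' : w b.1.1 = w c.1.1 := by exact_mod_cast hp
    rw [brick_same hp', if_neg hbc]
    split_ifs <;> norm_num
  · intro b
    have h1 : ∀ c ∈ Finset.univ.filter (fun c : Brick w => (w c.1.1 : ℤ) = (w b.1.1 : ℤ)),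
        brickMatrix w b c = (if b = c then 1 else 0) - (if b.1.2 = c.1.1 then 1 else 0) := by
      intro c hc
      apply brick_same
      have := (Finset.mem_filter.1 hc).2
      exact_mod_cast this.symm
    rw [Finset.sum_congr rfl h1, Finset.sum_sub_distrib, Finset.sum_ite_eq]
    rw [if_pos (by simp)]
    have h2 : ∑ c ∈ Finset.univ.filter (fun c : Brick w => (w c.1.1 : ℤ) = (w b.1.1 : ℤ)),
        (if b.1.2 = c.1.1 then (1 : ℤ) else 0) ≤ 1 := by
      rw [← Finset.sum_filter, Finset.sum_const, nsmul_eq_mul, mul_one]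
      have : (Finset.filter (fun c : Brick w => b.1.2 = c.1.1)
          (Finset.univ.filter (fun c : Brick w => (w c.1.1 : ℤ) = (w b.1.1 : ℤ)))).card ≤ 1 := by
        apply Finset.card_le_one.2
        intro c hc d hd
        exact brick_ext ((Finset.mem_filter.1 hc).2.symm.trans (Finset.mem_filter.1 hd).2)
      exact_mod_cast this
    linarith
  · intro c
    have h1 : ∀ b ∈ Finset.univ.filter (fun b : Brick w => (w b.1.1 : ℤ) = (w c.1.1 : ℤ)),
        brickMatrix w b c = (if b = c then 1 else 0) - (if b.1.2 = c.1.1 then 1 else 0) := by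
      intro b hb
      apply brick_same
      have := (Finset.mem_filter.1 hb).2
      exact_mod_cast this
    rw [Finset.sum_congr rfl h1, Finset.sum_sub_distrib, Finset.sum_ite_eq']
    rw [if_pos (by simp)]
    have h2 : ∑ b ∈ Finset.univ.filter (fun b : Brick w => (w b.1.1 : ℤ) = (w c.1.1 : ℤ)),
        (if b.1.2 = c.1.1 then (1 : ℤ) else 0) ≤ 1 := by
      rw [← Finset.sum_filter, Finset.sum_const, nsmul_eq_mul, mul_one]
      have : (Finset.filter (fun b : Brick w => b.1.2 = c.1.1)
          (Finset.univ.filter (fun b : Brick w => (w b.1.1 : ℤ) = (w c.1.1 : ℤ)))).card ≤ 1 := by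
        apply Finset.card_le_one.2
        intro b hb d hd
        exact brick_ext' ((Finset.mem_filter.1 hb).2.trans (Finset.mem_filter.1 hd).2.symm)
      exact_mod_cast this
    linarith
  · intro A hA hsame
    have h1 : ∀ b ∈ A, ∑ c ∈ A, brickMatrix w b c =
        1 - ∑ c ∈ A, (if b.1.2 = c.1.1 then (1 : ℤ) else 0) := by
      intro b hb
      have : ∀ c ∈ A, brickMatrix w b c =
          (if b = c then 1 else 0) - (if b.1.2 = c.1.1 then 1 else 0) := by
        intro c hc
        apply brick_same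
        have := hsame b hb c hc
        exact_mod_cast this
      rw [Finset.sum_congr rfl this, Finset.sum_sub_distrib, Finset.sum_ite_eq, if_pos hb]
    have h2 : ∀ b ∈ A, 0 ≤ ∑ c ∈ A, brickMatrix w b c := by
      intro b hb
      rw [h1 b hb]
      have h2 : ∑ c ∈ A, (if b.1.2 = c.1.1 then (1 : ℤ) else 0) ≤ 1 := by
        rw [← Finset.sum_filter, Finset.sum_const, nsmul_eq_mul, mul_one]
        have : (Finset.filter (fun c : Brick w => b.1.2 = c.1.1) A).card ≤ 1 := by
          apply Finset.card_le_one.2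
          intro c hc d hd
          exact brick_ext ((Finset.mem_filter.1 hc).2.symm.trans (Finset.mem_filter.1 hd).2)
        exact_mod_cast this
      linarith
    obtain ⟨m, hm, hmax⟩ := Finset.exists_max_image A (fun b => b.1.1) hA
    refine Finset.sum_pos' h2 ⟨m, hm, ?_⟩
    rw [h1 m hm]
    have h3 : ∑ c ∈ A, (if m.1.2 = c.1.1 then (1 : ℤ) else 0) = 0 := by
      apply Finset.sum_eq_zero
      intro c hc
      rw [if_neg]
      intro h'
      have h4 := hmax c hc
      have h5 := m.2.1
      rw [h'] at h5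
      exact absurd h4 (not_le.2 h5)
    rw [h3]
    norm_num

theorem card_brick_le (w : Fin L → ℕ)
    (hw : ∀ i, (Finset.univ.filter (fun p => w p = i)).card ≤ 3) (c : ℤ) :
    (Finset.univ.filter (fun b : Brick w => (w b.1.1 : ℤ) = c)).card ≤ 2 := by
  by_contra hcon
  push Not at hcon
  have hne : (Finset.univ.filter (fun b : Brick w => (w b.1.1 : ℤ) = c)).Nonempty := by
    rw [← Finset.card_pos]; omega
  obtain ⟨m, hm, hmax⟩ := Finset.exists_max_image _ (fun b : Brick w => b.1.2) hne
  have hmc : (w m.1.1 : ℤ) = c := (Finset.mem_filter.1 hm).2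
  set S := Finset.univ.filter (fun p => w p = w m.1.1) with hS
  have h1 : ((Finset.univ.filter (fun b : Brick w => (w b.1.1 : ℤ) = c)).image
      (fun b => b.1.1)) ⊆ S.erase m.1.2 := by
    intro p hp
    obtain ⟨b, hb, rfl⟩ := Finset.mem_image.1 hp
    rw [Finset.mem_erase, hS, Finset.mem_filter]
    refine ⟨?_, Finset.mem_univ _, ?_⟩
    · intro h'
      have h2 := hmax b hb
      have h3 := b.2.1
      rw [h'] at h3
      exact absurd h2 (not_le.2 h3)
    · have := (Finset.mem_filter.1 hb).2
      rw [← hmc] at this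
      exact_mod_cast this
  have h2 := Finset.card_le_card h1
  rw [Finset.card_image_of_injective _ (fun b c h => brick_ext h)] at h2
  have h3 : m.1.2 ∈ S := by
    rw [hS, Finset.mem_filter]
    exact ⟨Finset.mem_univ _, m.2.2.1⟩
  rw [Finset.card_erase_of_mem h3] at h2
  have h4 := hw (w m.1.1)
  rw [← hS] at h4
  omega

end Pool.Agent.Helper76.Conway
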