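import Pool.Agent.Helper76.Conway.TopMk

/-!
# Top coefficients of the Conway polynomial of positive braids: the upper bound for an inverse letter

`Mk.split`: connected sums. `Mk.two`: the value at `A * B * s (k+1) * s k * s (k+2) * (s (k+1))⁻¹`.
`Mk.single`: `X * N (x * s i * y * (s i)⁻¹) ≤ 2 * N (x * s i * y)` if `x, y` are positive words without the letter `i`.
`Mk.bound`: `X * N (w * (s i)⁻¹) ≤ 3 * N w` for every positive word `w` containing all generators.
-/

set_option autoImplicit false

namespace Pool.Agent.Helper76.Conway.Top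

open Polynomial

theorem Eqv.shift {n k : ℕ} {u v : List ℕ} (h : Eqv n u v) :
    Eqv (k + n) (u.map (· + k)) (v.map (· + k)) := by
  induction h with
  | refl w => exact Eqv.refl _
  | trans _ _ ih ih' => exact ih.trans ih'
  | symm _ ih => exact ih.symm
  | comm x y a b hab hb =>
    have := Eqv.comm (n := k + n) (x.map (· + k)) (y.map (· + k)) (a + k) (b + k)
      (by omega) (by omega)
    simpa using this
  | braid x y j hj =>
    have := Eqv.braid (n := k + n) (x.map (· + k)) (y.map (· + k)) (j + k) (by omega)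
    have e : j + k + 1 = j + 1 + k := by omega
    rw [e] at this
    simpa using this

theorem mem_shift {m k : ℕ} {B : List ℕ} (hB : ∀ b ∈ B, b < m) :
    ∀ a ∈ B.map (· + k), a < k + m ∧ k ≤ a := by
  intro a ha
  rw [List.mem_map] at ha
  obtain ⟨b, hb, rfl⟩ := ha
  have := hB b hb
  omega

namespace Mk

variable {G : ℕ → Type} [∀ n, Group (G n)] {s : ∀ n, ℕ → G n} {N : ∀ n, G n → ℤ[X]}

theorem N_one (h : Mk G s N) : N 1 (V (s 1) [0]) = 1 := by
  have := h.stab 0 [] (by simp)
  rw [V_nil, one_mul, V_nil, h.one] at this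
  simpa using this

theorem N_two (h : Mk G s N) : N 1 (V (s 1) [0, 0]) = X := by
  have h1 := h.quad_word (n := 1) (j := 0) (by omega) [] []
  have h2 := h.top_zero (n := 0) (u := []) (by simp)
  have h3 := h.N_one
  simp only [List.nil_append] at h1
  rw [h1, h3]
  have h4 : N 1 (V (s 1) []) = 0 := h2
  rw [h4]
  ring

/-- connected sums -/
theorem split (h : Mk G s N) (i : ℕ) : ∀ (m : ℕ) (A B : List ℕ), (∀ a ∈ A, a < i) →
    (∀ b ∈ B, b < m) →
    N (i + 1 + m) (V (s (i + 1 + m)) (A ++ B.map (· + (i + 1))) * s (i + 1 + m) i) =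
      N i (V (s i) A) * N m (V (s m) B) := by
  intro m
  induction m with
  | zero =>
    intro A B hA hB
    have hB0 : B = [] := by
      cases B with
      | nil => rfl
      | cons a u => exact absurd (hB a (by simp)) (by omega)
    subst hB0
    have := h.stab i A hA
    simpa [h.one] using this
  | succ m ihm =>
    intro A B hA hB
    change N (i + 1 + m + 1) (V (s (i + 1 + m + 1)) (A ++ B.map (· + (i + 1))) *
      s (i + 1 + m + 1) i) = _
    have hA' : ∀ a ∈ A, a < i + 1 + m := fun a ha => by have := hA a ha; omega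
    refine word_ind (n := m) (Pr := fun B =>
      N (i + 1 + m + 1) (V (s (i + 1 + m + 1)) (A ++ B.map (· + (i + 1))) *
        s (i + 1 + m + 1) i) = N i (V (s i) A) * N (m + 1) (V (s (m + 1)) B)) ?_ ?_ ?_ ?_ B hB
    · intro u v e hv
      have e1 : V (s (i + 1 + m + 1)) (u.map (· + (i + 1))) =
        V (s (i + 1 + m + 1)) (v.map (· + (i + 1))) := h.V_eqv (e.shift (k := i + 1))
      rw [V_append, e1, ← V_append, h.V_eqv e]
      exact hv
    · intro x j y hb h1 h2
      have hj := hb j (by simp)
      have e1 : A ++ (x ++ j :: j :: y).map (· + (i + 1)) =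
          (A ++ x.map (· + (i + 1))) ++ (j + (i + 1)) :: (j + (i + 1)) ::
            y.map (· + (i + 1)) := by simp
      have e2 : A ++ (x ++ y).map (· + (i + 1)) =
          (A ++ x.map (· + (i + 1))) ++ y.map (· + (i + 1)) := by simp
      have e3 : A ++ (x ++ j :: y).map (· + (i + 1)) =
          (A ++ x.map (· + (i + 1))) ++ (j + (i + 1)) :: y.map (· + (i + 1)) := by simp
      rw [e2] at h1
      rw [e3] at h2
      rw [e1, h.quad_word_right (by omega), h1, h2, h.quad_word hj]
      ring
    · intro u hu
      have e1 : V (s (i + 1 + m + 1)) (A ++ u.map (· + (i + 1))) * s (i + 1 + m + 1) i =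
          V (s (i + 1 + m + 1)) (A ++ u.map (· + (i + 1)) ++ [i]) := by simp [mul_assoc]
      rw [e1]
      have h1 := h.top_zero (n := i + 1 + m) (u := A ++ u.map (· + (i + 1)) ++ [i]) (by
        intro a ha
        simp only [List.mem_append, List.mem_singleton] at ha
        rcases ha with (ha | ha) | ha
        · exact hA' a ha
        · exact (mem_shift hu a ha).1
        · omega)
      rw [h1, h.top_zero hu, mul_zero]
    · intro u v hu hv
      have huv : ∀ b ∈ u ++ v, b < m := by
        intro a ha
        rcases List.mem_append.1 ha with ha | ha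
        · exact hu a ha
        · exact hv a ha
      have e1 : V (s (i + 1 + m + 1)) (A ++ (u ++ m :: v).map (· + (i + 1))) *
          s (i + 1 + m + 1) i = V (s (i + 1 + m + 1)) ((A ++ u.map (· + (i + 1))) ++
            (i + 1 + m) :: (v.map (· + (i + 1)) ++ [i])) := by
        have e0 : m + (i + 1) = i + 1 + m := by omega
        simp [mul_assoc, e0]
      have e2 := h.destab (n := i + 1 + m) (u := A ++ u.map (· + (i + 1)))
        (v := v.map (· + (i + 1)) ++ [i]) (by
          intro a ha
          rcases List.mem_append.1 ha with ha | ha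
          · exact hA' a ha
          · exact (mem_shift hu a ha).1) (by
          intro a ha
          rcases List.mem_append.1 ha with ha | ha
          · exact (mem_shift hv a ha).1
          · rw [List.mem_singleton.1 ha]; omega)
      rw [e1, e2, h.destab hu hv,
        ← ihm A (u ++ v) hA huv]
      congr 1
      simp [mul_assoc]

/-- The value at a word with two letters `k + 1`. -/
theorem two (h : Mk G s N) (k : ℕ) : ∀ (m : ℕ), 1 ≤ m → ∀ (A B : List ℕ), (∀ a ∈ A, a < k + 1) →
    (∀ b ∈ B, b < m) →
    N (k + 2 + m) (V (s (k + 2 + m)) (A ++ B.map (· + (k + 2)) ++ [k + 1, k, k + 2]) *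
        (s (k + 2 + m) (k + 1))⁻¹) =
      N (k + 1) (V (s (k + 1)) A) * N m (V (s m) (B ++ [0])) +
        N (k + 1) (V (s (k + 1)) (A ++ [k])) * N m (V (s m) B) := by
  intro m
  induction m with
  | zero => intro h0; omega
  | succ m ihm =>
    intro _ A B hA hB
    change N (k + 2 + m + 1) (V (s (k + 2 + m + 1)) (A ++ B.map (· + (k + 2)) ++
      [k + 1, k, k + 2]) * (s (k + 2 + m + 1) (k + 1))⁻¹) = _
    have hA' : ∀ a ∈ A, a < k + 2 + m := fun a ha => by have := hA a ha; omega
    refine word_ind (n := m) (Pr := fun B =>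
      N (k + 2 + m + 1) (V (s (k + 2 + m + 1)) (A ++ B.map (· + (k + 2)) ++
        [k + 1, k, k + 2]) * (s (k + 2 + m + 1) (k + 1))⁻¹) =
      N (k + 1) (V (s (k + 1)) A) * N (m + 1) (V (s (m + 1)) (B ++ [0])) +
        N (k + 1) (V (s (k + 1)) (A ++ [k])) * N (m + 1) (V (s (m + 1)) B))
      ?_ ?_ ?_ ?_ B hB
    · intro u v e hv
      have e1 : V (s (k + 2 + m + 1)) (u.map (· + (k + 2))) =
        V (s (k + 2 + m + 1)) (v.map (· + (k + 2))) := h.V_eqv (e.shift (k := k + 2))
      have e2 := h.V_eqv e
      rw [V_append, V_append, e1, ← V_append, ← V_append, V_append (s (m + 1)) u, e2, ← V_append]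
      exact hv
    · intro x j y hb h1 h2
      have hj := hb j (by simp)
      have e1 : A ++ (x ++ j :: j :: y).map (· + (k + 2)) ++ [k + 1, k, k + 2] =
          (A ++ x.map (· + (k + 2))) ++ (j + (k + 2)) :: (j + (k + 2)) ::
            (y.map (· + (k + 2)) ++ [k + 1, k, k + 2]) := by simp
      have e2 : A ++ (x ++ y).map (· + (k + 2)) ++ [k + 1, k, k + 2] =
          (A ++ x.map (· + (k + 2))) ++ (y.map (· + (k + 2)) ++ [k + 1, k, k + 2]) := by simp
      have e3 : A ++ (x ++ j :: y).map (· + (k + 2)) ++ [k + 1, k, k + 2] =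
          (A ++ x.map (· + (k + 2))) ++ (j + (k + 2)) ::
            (y.map (· + (k + 2)) ++ [k + 1, k, k + 2]) := by simp
      rw [e2] at h1
      rw [e3] at h2
      have e4 : x ++ j :: j :: y ++ [0] = x ++ j :: j :: (y ++ [0]) := by simp
      have e5 : x ++ y ++ [0] = x ++ (y ++ [0]) := by simp
      have e6 : x ++ j :: y ++ [0] = x ++ j :: (y ++ [0]) := by simp
      rw [e5] at h1
      rw [e6] at h2
      rw [e1, h.quad_word_right (by omega), h1, h2, e4, h.quad_word hj, h.quad_word hj]
      ring
    · intro u hu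
      cases m with
      | zero =>
        have hu0 : u = [] := by
          cases u with
          | nil => rfl
          | cons a u => exact absurd (hu a (by simp)) (by omega)
        subst hu0
        have h1 := h.destab_inv (n := k + 2) (i := k + 1) (by omega) (u := A ++ [k + 1, k])
          (v := []) (by
            intro a ha
            rcases List.mem_append.1 ha with ha | ha
            · exact hA' a ha
            · simp only [List.mem_cons, List.not_mem_nil, or_false] at ha
              omega) (by simp)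
        have h2 := h.top_inv (k := k) (u := A) (v := []) (w := []) hA (by simp) (by simp)
        have h3 := h.top_zero (n := 0) (u := []) (by simp)
        have h4 := h.N_one
        simp only [List.nil_append, List.append_nil, List.map_nil, zero_add] at h1 h2 h3 ⊢
        rw [h4, h3, mul_one, mul_zero, ← h2]
        rw [show A ++ [k + 1, k, k + 2] = A ++ [k + 1, k] ++ [k + 2] by simp]
        exact h1.trans (add_zero _).symm
      | succ m =>
        have hb : ∀ a ∈ A ++ u.map (· + (k + 2)) ++ [k + 1, k, k + 2], a < k + 2 + (m + 1) := by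
          intro a ha
          simp only [List.mem_append, List.mem_cons, List.not_mem_nil, or_false] at ha
          rcases ha with (ha | ha) | ha | ha | ha
          · exact hA' a ha
          · exact (mem_shift hu a ha).1
          · omega
          · omega
          · omega
        have h1 := h.top_zero hb
        have h2 := h.top_zero (n := k + 2 + (m + 1))
          (u := A ++ u.map (· + (k + 2)) ++ [k + 1, k, k + 2] ++ [k + 1]) (by
            intro a ha
            rcases List.mem_append.1 ha with ha | ha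
            · exact hb a ha
            · rw [List.mem_singleton.1 ha]; omega)
        rw [V_append, V_cons, V_nil, mul_one] at h2
        have h3 := h.top_zero (n := m + 1) (u := u ++ [0]) (by
            intro a ha
            rcases List.mem_append.1 ha with ha | ha
            · exact hu a ha
            · rw [List.mem_singleton.1 ha]; omega)
        have h4 := h.top_zero hu
        rw [h3, h4, mul_zero, mul_zero, add_zero]
        rw [h.inv_eq' (by omega), h1, h2]
        ring
    · intro u v hu hv
      cases m with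
      | zero =>
        have hu0 : u = [] := by
          cases u with
          | nil => rfl
          | cons a u => exact absurd (hu a (by simp)) (by omega)
        have hv0 : v = [] := by
          cases v with
          | nil => rfl
          | cons a v => exact absurd (hv a (by simp)) (by omega)
        subst hu0 hv0
        -- levels k + 3, k + 2, k + 1
        have hAk : ∀ a ∈ A ++ [k], a < k + 1 := by
          intro a ha
          rcases List.mem_append.1 ha with ha | ha
          · exact hA a ha
          · rw [List.mem_singleton.1 ha]; omega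
        have w1 : V (s (k + 3)) (A ++ [k + 2, k + 1, k, k + 2]) * s (k + 3) (k + 1) =
            V (s (k + 3)) ((A ++ [k + 1]) ++ (k + 2) :: [k + 1, k, k + 1]) := by
          have b := h.braid (k + 3) (k + 1) (by omega)
          have c := h.comm (k + 3) k (k + 2) (by omega) (by omega)
          simp only [V_append, V_cons, V_nil, mul_one, mul_assoc] at b c ⊢
          rw [← mul_assoc (s (k + 3) k) (s (k + 3) (k + 2)), c]
          simp only [mul_assoc]
          rw [← mul_assoc (s (k + 3) (k + 1)) (s (k + 3) (k + 2)),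
            ← mul_assoc (s (k + 3) (k + 2)) (s (k + 3) (k + 1) * s (k + 3) (k + 2)), ← b]
          simp only [mul_assoc]
        have w2 : V (s (k + 3)) (A ++ [k + 2, k + 1, k, k + 2]) =
            V (s (k + 3)) ((A ++ [k + 1]) ++ (k + 2) :: [k + 1, k]) := by
          have b := h.braid (k + 3) (k + 1) (by omega)
          have c := h.comm (k + 3) k (k + 2) (by omega) (by omega)
          simp only [V_append, V_cons, V_nil, mul_one, mul_assoc] at b c ⊢
          rw [c, ← mul_assoc (s (k + 3) (k + 1)) (s (k + 3) (k + 2)),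
            ← mul_assoc (s (k + 3) (k + 2)) (s (k + 3) (k + 1) * s (k + 3) (k + 2)), ← b]
          simp only [mul_assoc]
        have w3 : V (s (k + 2)) (A ++ [k + 1, k + 1, k, k + 1]) =
            V (s (k + 2)) ((A ++ [k]) ++ (k + 1) :: [k, k]) := by
          have b := h.braid (k + 2) k (by omega)
          simp only [V_append, V_cons, V_nil, mul_one, mul_assoc] at b ⊢
          rw [← b, ← mul_assoc (s (k + 2) k) (s (k + 2) (k + 1)),
            ← mul_assoc (s (k + 2) (k + 1)) (s (k + 2) k * s (k + 2) (k + 1)), ← b]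
          simp only [mul_assoc]
        have d1 := h.destab (n := k + 2) (u := A ++ [k + 1]) (v := [k + 1, k, k + 1]) (by
          intro a ha
          rcases List.mem_append.1 ha with ha | ha
          · exact hA' a ha
          · rw [List.mem_singleton.1 ha]; omega) (by
          intro a ha
          simp only [List.mem_cons, List.not_mem_nil, or_false] at ha
          omega)
        have d2 := h.destab (n := k + 2) (u := A ++ [k + 1]) (v := [k + 1, k]) (by
          intro a ha
          rcases List.mem_append.1 ha with ha | ha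
          · exact hA' a ha
          · rw [List.mem_singleton.1 ha]; omega) (by
          intro a ha
          simp only [List.mem_cons, List.not_mem_nil, or_false] at ha
          omega)
        have d3 := h.destab (n := k + 1) (u := A ++ [k]) (v := [k, k]) hAk (by
          intro a ha
          simp only [List.mem_cons, List.not_mem_nil, or_false] at ha
          omega)
        have d4 := h.destab (n := k + 1) (u := A) (v := [k]) hA (by
          intro a ha
          simp only [List.mem_cons, List.not_mem_nil, or_false] at ha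
          omega)
        have z := h.top_zero hAk
        have q1 := h.quad_word (n := k + 2) (j := k + 1) (by omega) A [k]
        have q2 := h.quad_word (n := k + 1) (j := k) (by omega) A [k]
        have q3 := h.quad_word (n := k + 1) (j := k) (by omega) A []
        have e1 : A ++ [k + 1] ++ [k + 1, k, k + 1] = A ++ [k + 1, k + 1, k, k + 1] := by simp
        have e2 : A ++ [k + 1] ++ [k + 1, k] = A ++ (k + 1) :: (k + 1) :: [k] := by simp
        have e3 : A ++ [k] ++ [k, k] = A ++ k :: k :: [k] := by simp
        have e4 : A ++ ([] ++ 0 :: []).map (· + (k + 2)) ++ [k + 1, k, k + 2] =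
          A ++ [k + 2, k + 1, k, k + 2] := by simp
        have h4 := h.N_one
        have h5 := h.N_two
        have hl : N (k + 3) (V (s (k + 3)) (A ++ [k + 2, k + 1, k, k + 2]) *
            (s (k + 3) (k + 1))⁻¹) = N (k + 1) (V (s (k + 1)) A) * X +
            N (k + 1) (V (s (k + 1)) (A ++ [k])) := by
          rw [h.inv_eq' (by omega), w1, w2, d1, d2, e1, w3, d3, e2, q1, d4, z, e3, q2, q3]
          simp only [List.append_nil]
          ring
        rw [e4]
        simp only [List.nil_append, List.cons_append, zero_add]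
        rw [h4, h5, mul_one]
        exact hl
      | succ m =>
        have e1 : V (s (k + 2 + (m + 1) + 1)) (A ++ (u ++ (m + 1) :: v).map (· + (k + 2)) ++
            [k + 1, k, k + 2]) = V (s (k + 2 + (m + 1) + 1)) ((A ++ u.map (· + (k + 2))) ++
            (k + 2 + (m + 1)) :: (v.map (· + (k + 2)) ++ [k + 1, k, k + 2])) := by
          have e0 : m + 1 + (k + 2) = k + 2 + (m + 1) := by omega
          simp [mul_assoc, e0]
        have e2 := h.destab_inv (n := k + 2 + (m + 1)) (i := k + 1) (by omega)
          (u := A ++ u.map (· + (k + 2))) (v := v.map (· + (k + 2)) ++ [k + 1, k, k + 2]) (by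
            intro a ha
            rcases List.mem_append.1 ha with ha | ha
            · exact hA' a ha
            · exact (mem_shift hu a ha).1) (by
            intro a ha
            simp only [List.mem_append, List.mem_cons, List.not_mem_nil, or_false] at ha
            rcases ha with ha | ha | ha | ha
            · exact (mem_shift hv a ha).1
            · omega
            · omega
            · omega)
        have e3 := ihm (by omega) A (u ++ v) hA (by
          intro a ha
          rcases List.mem_append.1 ha with ha | ha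
          · exact hu a ha
          · exact hv a ha)
        have e4 := h.destab hu hv
        have e5 := h.destab (u := u) (v := v ++ [0]) hu (by
          intro a ha
          rcases List.mem_append.1 ha with ha | ha
          · exact hv a ha
          · rw [List.mem_singleton.1 ha]; omega)
        have e6 : u ++ (m + 1) :: v ++ [0] = u ++ (m + 1) :: (v ++ [0]) := by simp
        have e7 : u ++ v ++ [0] = u ++ (v ++ [0]) := by simp
        rw [e1, e2, e6, e4, e5, ← e7, ← e3]
        congr 2
        simp

/-- the inequality for one letter `i` -/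
def T (s : ∀ n, ℕ → G n) (N : ∀ n, G n → ℤ[X]) (n i : ℕ) (g k : G n) : Prop :=
  Le (X * N n (g * s n i * k * (s n i)⁻¹)) (2 * N n (g * s n i * k))

theorem T_left (n i : ℕ) {g p k : G n} (hp : p * s n i = s n i * p) (h1 : T s N n i (g * p) k) :
    T s N n i g (p * k) := by
  unfold T at h1 ⊢
  have e : g * s n i * (p * k) = g * p * s n i * k := by
    rw [mul_assoc g p, hp]
    simp only [mul_assoc]
  rw [e]
  exact h1

theorem T_right (h : Mk G s N) (n i : ℕ) {g q k : G n} (hq : q * s n i = s n i * q)
    (h1 : T s N n i (q * g) k) : T s N n i g (k * q) := by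
  unfold T at h1 ⊢
  have e1 : N n (g * s n i * (k * q) * (s n i)⁻¹) = N n (q * g * s n i * k * (s n i)⁻¹) := by
    have e0 : g * s n i * (k * q) * (s n i)⁻¹ = (g * s n i * k * (s n i)⁻¹) * q := by
      have e2 : q * (s n i)⁻¹ = (s n i)⁻¹ * q := by
        rw [mul_inv_eq_iff_eq_mul, mul_assoc, hq]
        group
      simp only [mul_assoc]
      rw [e2]
    rw [e0, h.conj]
    simp only [mul_assoc]
  have e2 : N n (g * s n i * (k * q)) = N n (q * g * s n i * k) := by
    rw [← mul_assoc, h.conj]
    simp only [mul_assoc]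
  rw [e1, e2]
  exact h1

theorem T_lin (h : Mk G s N) {n i j : ℕ} (hj : j < n) {g p q : G n}
    (h1 : T s N n i g (p * q)) (h2 : T s N n i g (p * s n j * q)) :
    T s N n i g (p * s n j * s n j * q) := by
  unfold T at h1 h2 ⊢
  have e1 := h.quad hj (g * s n i * p) (q * (s n i)⁻¹)
  have e2 := h.quad hj (g * s n i * p) q
  have f1 : g * s n i * (p * s n j * s n j * q) * (s n i)⁻¹ =
      g * s n i * p * s n j * s n j * (q * (s n i)⁻¹) := by simp only [mul_assoc]
  have f2 : g * s n i * (p * s n j * s n j * q) = g * s n i * p * s n j * s n j * q := by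
    simp only [mul_assoc]
  have f3 : g * s n i * p * (q * (s n i)⁻¹) = g * s n i * (p * q) * (s n i)⁻¹ := by
    simp only [mul_assoc]
  have f4 : g * s n i * p * s n j * (q * (s n i)⁻¹) =
      g * s n i * (p * s n j * q) * (s n i)⁻¹ := by simp only [mul_assoc]
  have f5 : g * s n i * p * q = g * s n i * (p * q) := by simp only [mul_assoc]
  have f6 : g * s n i * p * s n j * q = g * s n i * (p * s n j * q) := by simp only [mul_assoc]
  rw [f1, f2, e1, e2, f3, f4, f5, f6]
  have h3 := h1.add h2.X_mul
  have e3 : X * (N n (g * s n i * (p * q) * (s n i)⁻¹) +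
      X * N n (g * s n i * (p * s n j * q) * (s n i)⁻¹)) =
      X * N n (g * s n i * (p * q) * (s n i)⁻¹) +
      X * (X * N n (g * s n i * (p * s n j * q) * (s n i)⁻¹)) := by ring
  have e4 : 2 * (N n (g * s n i * (p * q)) + X * N n (g * s n i * (p * s n j * q))) =
      2 * N n (g * s n i * (p * q)) + X * (2 * N n (g * s n i * (p * s n j * q))) := by ring
  rw [e3, e4]
  exact h3

theorem le_two {p : ℤ[X]} (hp : Le 0 p) {q : ℤ[X]} (h : Le q p) : Le q (2 * p) := by
  have h1 := h.add hp
  rw [add_zero] at h1
  rwa [two_mul]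

section single

variable {i m : ℕ}

/-- the words of the lower and the upper part commute -/
theorem comm_AB (h : Mk G s N) {A B : List ℕ} (hA : ∀ a ∈ A, a < i) (hB : ∀ b ∈ B, b < m) :
    V (s (i + 1 + m)) A * V (s (i + 1 + m)) (B.map (· + (i + 1))) =
      V (s (i + 1 + m)) (B.map (· + (i + 1))) * V (s (i + 1 + m)) A := by
  refine h.comm_VV (fun a ha => ?_) (fun b hb => (mem_shift hB b hb).1) (fun a ha b hb => ?_)
  · have := hA a ha; omega
  · have := hA a ha
    have := (mem_shift hB b hb).2
    omega

theorem split' (h : Mk G s N) {A B : List ℕ} (hA : ∀ a ∈ A, a < i) (hB : ∀ b ∈ B, b < m) :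
    N (i + 1 + m) (V (s (i + 1 + m)) A * V (s (i + 1 + m)) (B.map (· + (i + 1))) *
      s (i + 1 + m) i) = N i (V (s i) A) * N m (V (s m) B) := by
  rw [← h.split i m A B hA hB, V_append]

theorem mem_app {n : ℕ} {x y : List ℕ} (hx : ∀ a ∈ x, a < n) (hy : ∀ a ∈ y, a < n) :
    ∀ a ∈ x ++ y, a < n := by
  intro a ha
  rcases List.mem_append.1 ha with ha | ha
  · exact hx a ha
  · exact hy a ha

/-- base case: nothing between -/
theorem T_base0 (h : Mk G s N) {A B : List ℕ} (hA : ∀ a ∈ A, a < i) (hB : ∀ b ∈ B, b < m) :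
    T s N (i + 1 + m) i (V (s (i + 1 + m)) A * V (s (i + 1 + m)) (B.map (· + (i + 1)))) 1 := by
  unfold T
  rw [mul_one, mul_inv_cancel_right, h.split' hA hB, ← V_append]
  have h0 := h.zero_of_missing (i + 1 + m) (A ++ B.map (· + (i + 1))) (mem_app
    (fun a ha => by have := hA a ha; omega) fun a ha => (mem_shift hB a ha).1) i (by omega) (by
      intro hi
      rcases List.mem_append.1 hi with hi | hi
      · exact absurd (hA i hi) (lt_irrefl i)
      · have := (mem_shift hB i hi).2
        omega)
  rw [h0, mul_zero]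
  have h1 := Le.mul_nonneg (h.pos i A hA) (h.pos m B hB)
  exact le_two h1 h1

/-- base case: one letter `i + 1` between -/
theorem T_base1 (h : Mk G s N) {A B : List ℕ} (hA : ∀ a ∈ A, a < i) (hB : ∀ b ∈ B, b < m + 1) :
    T s N (i + 1 + (m + 1)) i (V (s (i + 1 + (m + 1))) A *
      V (s (i + 1 + (m + 1))) (B.map (· + (i + 1)))) (s (i + 1 + (m + 1)) (i + 1)) := by
  obtain ⟨L, hL⟩ : ∃ L, L = i + 1 + (m + 1) := ⟨_, rfl⟩
  have hB0 : ∀ b ∈ 0 :: B, b < m + 1 := by
    intro b hb
    rcases List.mem_cons.1 hb with hb | hb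
    · omega
    · exact hB b hb
  have hB1 : ∀ b ∈ (0 :: B) ++ [0], b < m + 1 := mem_app hB0 (by simp)
  have s1 := h.split' hA hB0
  have s2 := h.split' hA hB1
  have c : V (s (i + 1 + (m + 1))) A * s (i + 1 + (m + 1)) (i + 1) =
      s (i + 1 + (m + 1)) (i + 1) * V (s (i + 1 + (m + 1))) A :=
    h.comm_V (by omega) fun a ha => ⟨by have := hA a ha; omega, Or.inl (by
      have := hA a ha; omega)⟩
  have b := h.braid (i + 1 + (m + 1)) i (by omega)
  simp only [List.map_append, List.map_cons, List.map_nil, List.cons_append, zero_add, V_append,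
    V_cons, V_nil, mul_one] at s1 s2
  rw [← hL] at s1 s2 c b
  unfold T
  rw [← hL]
  rw [h.inv_eq' (by omega)]
  -- the two values
  have e1 : N L (V (s L) A * V (s L) (B.map (· + (i + 1))) * s L i * s L (i + 1)) =
      N i (V (s i) A) * N (m + 1) (V (s (m + 1)) (0 :: B)) := by
    rw [V_cons, ← s1, h.conj]
    congr 1
    simp only [← mul_assoc]
    rw [c]
  have e2 : N L (V (s L) A * V (s L) (B.map (· + (i + 1))) * s L i * s L (i + 1) * s L i) =
      N i (V (s i) A) * N (m + 1) (V (s (m + 1)) (0 :: (B ++ [0]))) := by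
    rw [V_cons, V_append, V_cons, V_nil, mul_one, ← s2, mul_assoc (V (s L) A * _), mul_assoc
      (V (s L) A * _), b, mul_assoc (s L (i + 1)), ← mul_assoc, ← mul_assoc, h.conj]
    congr 1
    simp only [← mul_assoc]
    rw [c]
  rw [e1, e2]
  -- quadratic relation
  have q : N (m + 1) (V (s (m + 1)) (0 :: (B ++ [0]))) =
      N (m + 1) (V (s (m + 1)) B) + X * N (m + 1) (V (s (m + 1)) (0 :: B)) := by
    have q1 := h.quad_word (n := m + 1) (j := 0) (by omega) [] B
    simp only [List.nil_append] at q1
    rw [← q1]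
    simp only [V_cons, V_append, V_nil, mul_one]
    rw [← mul_assoc, h.conj]
  rw [q]
  have e3 : X * (N i (V (s i) A) * (N (m + 1) (V (s (m + 1)) B) +
      X * N (m + 1) (V (s (m + 1)) (0 :: B))) -
      X * (N i (V (s i) A) * N (m + 1) (V (s (m + 1)) (0 :: B)))) =
      N i (V (s i) A) * (X * N (m + 1) (V (s (m + 1)) B)) := by ring
  rw [e3]
  have m1 := h.mono (n := m + 1) (i := 0) (by omega) (x := []) (y := B) (by simp) hB
  simp only [List.nil_append] at m1
  exact le_two (Le.mul_nonneg (h.pos i A hA) (h.pos (m + 1) _ hB0)) (m1.mul_left (h.pos i A hA))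

end single

section single2

variable {k m : ℕ}

/-- base case: one letter `k` between, `i = k + 1` -/
theorem T_base2 (h : Mk G s N) {A B : List ℕ} (hA : ∀ a ∈ A, a < k + 1) (hB : ∀ b ∈ B, b < m) :
    T s N (k + 1 + 1 + m) (k + 1) (V (s (k + 1 + 1 + m)) A *
      V (s (k + 1 + 1 + m)) (B.map (· + (k + 1 + 1)))) (s (k + 1 + 1 + m) k) := by
  obtain ⟨L, hL⟩ : ∃ L, L = k + 1 + 1 + m := ⟨_, rfl⟩
  have hA0 : ∀ b ∈ k :: A, b < k + 1 := by
    intro b hb
    rcases List.mem_cons.1 hb with hb | hb
    · omega
    · exact hA b hb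
  have hA1 : ∀ b ∈ (k :: A) ++ [k], b < k + 1 := mem_app hA0 (by simp)
  have s1 := h.split' hA0 hB
  have s2 := h.split' hA1 hB
  have c : V (s (k + 1 + 1 + m)) (B.map (· + (k + 1 + 1))) * s (k + 1 + 1 + m) k =
      s (k + 1 + 1 + m) k * V (s (k + 1 + 1 + m)) (B.map (· + (k + 1 + 1))) :=
    h.comm_V (by omega) fun a ha => ⟨(mem_shift hB a ha).1, Or.inr (by
      have := (mem_shift hB a ha).2; omega)⟩
  have b := h.braid (k + 1 + 1 + m) k (by omega)
  simp only [List.cons_append, V_append, V_cons, V_nil, mul_one] at s1 s2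
  rw [← hL] at s1 s2 c b
  unfold T
  rw [← hL]
  rw [h.inv_eq' (by omega)]
  have e1 : N L (V (s L) A * V (s L) (B.map (· + (k + 1 + 1))) * s L (k + 1) * s L k) =
      N (k + 1) (V (s (k + 1)) (k :: A)) * N m (V (s m) B) := by
    rw [V_cons, ← s1, h.conj]
    simp only [← mul_assoc]
  have e2 : N L (V (s L) A * V (s L) (B.map (· + (k + 1 + 1))) * s L (k + 1) * s L k *
      s L (k + 1)) = N (k + 1) (V (s (k + 1)) (k :: (A ++ [k]))) * N m (V (s m) B) := by
    rw [V_cons, V_append, V_cons, V_nil, mul_one, ← s2]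
    have e3 : V (s L) A * V (s L) (B.map (· + (k + 1 + 1))) * s L (k + 1) * s L k *
        s L (k + 1) = V (s L) A * s L k * V (s L) (B.map (· + (k + 1 + 1))) * s L (k + 1) *
          s L k := by
      have e4 : s L (k + 1) * (s L k * s L (k + 1)) = s L k * (s L (k + 1) * s L k) := by
        rw [← mul_assoc, ← b, mul_assoc]
      simp only [mul_assoc]
      rw [e4, ← mul_assoc (V (s L) (B.map _)) (s L k), c]
      simp only [mul_assoc]
    rw [e3, h.conj]
    simp only [← mul_assoc]
  rw [e1, e2]
  have q : N (k + 1) (V (s (k + 1)) (k :: (A ++ [k]))) =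
      N (k + 1) (V (s (k + 1)) A) + X * N (k + 1) (V (s (k + 1)) (k :: A)) := by
    have q1 := h.quad_word (n := k + 1) (j := k) (by omega) [] A
    simp only [List.nil_append] at q1
    rw [← q1]
    simp only [V_cons, V_append, V_nil, mul_one]
    rw [← mul_assoc, h.conj]
  rw [q]
  have e3 : X * ((N (k + 1) (V (s (k + 1)) A) + X * N (k + 1) (V (s (k + 1)) (k :: A))) *
      N m (V (s m) B) - X * (N (k + 1) (V (s (k + 1)) (k :: A)) * N m (V (s m) B))) =
      X * N (k + 1) (V (s (k + 1)) A) * N m (V (s m) B) := by ring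
  rw [e3]
  have m1 := h.mono (n := k + 1) (i := k) (by omega) (x := []) (y := A) (by simp) hA
  simp only [List.nil_append] at m1
  exact le_two (Le.mul_nonneg (h.pos (k + 1) _ hA0) (h.pos m _ hB)) (m1.mul_right (h.pos m B hB))

/-- base case: the letters `k` and `k + 2` between, `i = k + 1` -/
theorem T_base3 (h : Mk G s N) {A B : List ℕ} (hA : ∀ a ∈ A, a < k + 1)
    (hB : ∀ b ∈ B, b < m + 1) :
    T s N (k + 1 + 1 + (m + 1)) (k + 1) (V (s (k + 1 + 1 + (m + 1))) A *
      V (s (k + 1 + 1 + (m + 1))) (B.map (· + (k + 1 + 1))))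
      (s (k + 1 + 1 + (m + 1)) k * s (k + 1 + 1 + (m + 1)) (k + 1 + 1)) := by
  obtain ⟨L, hL⟩ : ∃ L, L = k + 1 + 1 + (m + 1) := ⟨_, rfl⟩
  have hA0 : ∀ b ∈ k :: A, b < k + 1 := by
    intro b hb
    rcases List.mem_cons.1 hb with hb | hb
    · omega
    · exact hA b hb
  have hB0 : ∀ b ∈ 0 :: B, b < m + 1 := by
    intro b hb
    rcases List.mem_cons.1 hb with hb | hb
    · omega
    · exact hB b hb
  have t := h.two k (m + 1) (by omega) A B hA hB
  have s1 := h.split' hA0 hB0
  have c : V (s (k + 1 + 1 + (m + 1))) A * s (k + 1 + 1 + (m + 1)) (k + 1 + 1) =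
      s (k + 1 + 1 + (m + 1)) (k + 1 + 1) * V (s (k + 1 + 1 + (m + 1))) A :=
    h.comm_V (by omega) fun a ha => ⟨by have := hA a ha; omega, Or.inl (by
      have := hA a ha; omega)⟩
  change N (k + 1 + 1 + (m + 1)) (V (s (k + 1 + 1 + (m + 1))) (A ++ B.map (· + (k + 1 + 1)) ++
    [k + 1, k, k + 1 + 1]) * (s (k + 1 + 1 + (m + 1)) (k + 1))⁻¹) = _ at t
  simp only [List.map_cons, zero_add, V_append, V_cons, V_nil, mul_one] at s1 t
  rw [← hL] at s1 t c
  unfold T
  rw [← hL]
  have e0 : V (s L) A * V (s L) (B.map (· + (k + 1 + 1))) * s L (k + 1) *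
      (s L k * s L (k + 1 + 1)) * (s L (k + 1))⁻¹ = V (s L) A *
      V (s L) (B.map (· + (k + 1 + 1))) * (s L (k + 1) * (s L k * s L (k + 1 + 1))) *
        (s L (k + 1))⁻¹ := by simp only [mul_assoc]
  have e1 : N L (V (s L) A * V (s L) (B.map (· + (k + 1 + 1))) * s L (k + 1) *
      (s L k * s L (k + 1 + 1))) = N (k + 1) (s (k + 1) k * V (s (k + 1)) A) *
        N (m + 1) (s (m + 1) 0 * V (s (m + 1)) B) := by
    rw [← s1, h.conj]
    congr 1
    simp only [← mul_assoc]
    rw [mul_assoc (s L k) (V (s L) A), c]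
    simp only [← mul_assoc]
  rw [e0, t, e1]
  have m1 := h.mono (n := k + 1) (i := k) (by omega) (x := []) (y := A) (by simp) hA
  have m2 := h.mono (n := m + 1) (i := 0) (by omega) (x := []) (y := B) (by simp) hB
  have p1 := h.pos (k + 1) (k :: A) hA0
  have p2 := h.pos (m + 1) (0 :: B) hB0
  simp only [List.nil_append, V_cons] at m1 m2 p1 p2
  rw [h.conj (m + 1) (V (s (m + 1)) B) (s (m + 1) 0), h.conj (k + 1) (V (s (k + 1)) A)
    (s (k + 1) k)]
  have e2 : X * (N (k + 1) (V (s (k + 1)) A) * N (m + 1) (s (m + 1) 0 * V (s (m + 1)) B) +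
      N (k + 1) (s (k + 1) k * V (s (k + 1)) A) * N (m + 1) (V (s (m + 1)) B)) =
      X * N (k + 1) (V (s (k + 1)) A) * N (m + 1) (s (m + 1) 0 * V (s (m + 1)) B) +
      N (k + 1) (s (k + 1) k * V (s (k + 1)) A) * (X * N (m + 1) (V (s (m + 1)) B)) := by ring
  rw [e2, two_mul]
  exact (m1.mul_right p2).add (m2.mul_left p1)

end single2

/-- Step 2: a general word of the upper part between, nothing or one letter `i - 1` of the lower part. -/
theorem T_upper (h : Mk G s N) (i : ℕ) : ∀ (m : ℕ) (K : List ℕ), (∀ a ∈ K, a < i) →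
    (K = [] ∨ ∃ k, i = k + 1 ∧ K = [k]) →
    ∀ B1 : List ℕ, (∀ b ∈ B1, b < m) → ∀ A B : List ℕ, (∀ a ∈ A, a < i) → (∀ b ∈ B, b < m) →
    T s N (i + 1 + m) i (V (s (i + 1 + m)) A * V (s (i + 1 + m)) (B.map (· + (i + 1))))
      (V (s (i + 1 + m)) K * V (s (i + 1 + m)) (B1.map (· + (i + 1)))) := by
  intro m K hK hK' B1 hB1
  -- the case of an empty upper word
  have base : ∀ A B : List ℕ, (∀ a ∈ A, a < i) → (∀ b ∈ B, b < m) →
      T s N (i + 1 + m) i (V (s (i + 1 + m)) A * V (s (i + 1 + m)) (B.map (· + (i + 1))))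
      (V (s (i + 1 + m)) K) := by
    intro A B hA hB
    rcases hK' with rfl | ⟨k, rfl, rfl⟩
    · exact h.T_base0 hA hB
    · have := h.T_base2 hA hB
      simpa using this
  cases m with
  | zero =>
    intro A B hA hB
    have hB0 : B1 = [] := by
      cases B1 with
      | nil => rfl
      | cons a u => exact absurd (hB1 a (by simp)) (by omega)
    subst hB0
    have := base A B hA hB
    simpa using this
  | succ m =>
    have base1 : ∀ A B : List ℕ, (∀ a ∈ A, a < i) → (∀ b ∈ B, b < m + 1) →
        T s N (i + 1 + (m + 1)) i (V (s (i + 1 + (m + 1))) A *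
          V (s (i + 1 + (m + 1))) (B.map (· + (i + 1))))
          (V (s (i + 1 + (m + 1))) K * s (i + 1 + (m + 1)) (i + 1)) := by
      intro A B hA hB
      rcases hK' with rfl | ⟨k, rfl, rfl⟩
      · have := h.T_base1 hA hB
        simpa using this
      · have := h.T_base3 hA hB
        simpa using this
    obtain ⟨L, hL⟩ : ∃ L, L = i + 1 + (m + 1) := ⟨_, rfl⟩
    refine word_ind_bot (k := m) (Pr := fun B1 => ∀ A B : List ℕ, (∀ a ∈ A, a < i) →
      (∀ b ∈ B, b < m + 1) → T s N (i + 1 + (m + 1)) i (V (s (i + 1 + (m + 1))) A *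
        V (s (i + 1 + (m + 1))) (B.map (· + (i + 1))))
      (V (s (i + 1 + (m + 1))) K * V (s (i + 1 + (m + 1))) (B1.map (· + (i + 1)))))
      ?_ ?_ ?_ ?_ B1 hB1
    · intro u v e hv A B hA hB
      rw [h.V_eqv (e.shift (k := i + 1))]
      exact hv A B hA hB
    · intro x j y hb h1 h2 A B hA hB
      have hj := hb j (by simp)
      have h3 := h1 A B hA hB
      have h4 := h2 A B hA hB
      simp only [List.map_append, List.map_cons, V_append, V_cons] at h3 h4 ⊢
      have h5 := h.T_lin (n := i + 1 + (m + 1)) (i := i) (j := j + (i + 1)) (by omega)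
        (g := V (s (i + 1 + (m + 1))) A * V (s (i + 1 + (m + 1))) (B.map (· + (i + 1))))
        (p := V (s (i + 1 + (m + 1))) K * V (s (i + 1 + (m + 1))) (x.map (· + (i + 1))))
        (q := V (s (i + 1 + (m + 1))) (y.map (· + (i + 1))))
        (by simpa only [mul_assoc] using h3) (by simpa only [mul_assoc] using h4)
      simpa only [mul_assoc] using h5
    · intro u hu A B hA hB
      have hu' : ∀ b ∈ u, b < m + 1 := fun b hb => (hu b hb).1
      have c1 : V (s (i + 1 + (m + 1))) (u.map (· + (i + 1))) * s (i + 1 + (m + 1)) i =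
          s (i + 1 + (m + 1)) i * V (s (i + 1 + (m + 1))) (u.map (· + (i + 1))) :=
        h.comm_V (by omega) fun a ha => ⟨(mem_shift hu' a ha).1, Or.inr (by
          rw [List.mem_map] at ha
          obtain ⟨b, hb, rfl⟩ := ha
          have := (hu b hb).2
          omega)⟩
      rw [h.comm_AB hK hu']
      refine T_left _ _ c1 ?_
      have := base A (B ++ u) hA (mem_app hB hu')
      simpa only [List.map_append, V_append, mul_assoc] using this
    · intro u v hu hv A B hA hB
      have hu' : ∀ b ∈ u, b < m + 1 := fun b hb => (hu b hb).1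
      have hv' : ∀ b ∈ v, b < m + 1 := fun b hb => (hv b hb).1
      have c1 : ∀ u : List ℕ, (∀ a ∈ u, a < m + 1 ∧ 1 ≤ a) →
          V (s (i + 1 + (m + 1))) (u.map (· + (i + 1))) * s (i + 1 + (m + 1)) i =
          s (i + 1 + (m + 1)) i * V (s (i + 1 + (m + 1))) (u.map (· + (i + 1))) := fun u hu =>
        h.comm_V (by omega) fun a ha => ⟨(mem_shift (fun b hb => (hu b hb).1) a ha).1, Or.inr (by
          rw [List.mem_map] at ha
          obtain ⟨b, hb, rfl⟩ := ha
          have := (hu b hb).2
          omega)⟩
      have e1 : V (s (i + 1 + (m + 1))) K * V (s (i + 1 + (m + 1)))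
          ((u ++ 0 :: v).map (· + (i + 1))) = V (s (i + 1 + (m + 1))) (u.map (· + (i + 1))) *
          (V (s (i + 1 + (m + 1))) K * s (i + 1 + (m + 1)) (i + 1) *
            V (s (i + 1 + (m + 1))) (v.map (· + (i + 1)))) := by
        simp only [List.map_append, List.map_cons, V_append, V_cons, zero_add]
        rw [← mul_assoc, h.comm_AB hK hu']
        simp only [mul_assoc]
      rw [e1]
      refine T_left _ _ (c1 u hu) (h.T_right _ _ (c1 v hv) ?_)
      have := base1 A (v ++ B ++ u) hA (mem_app (mem_app hv' hB) hu')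
      have c2 := h.comm_AB hA hv'
      have e2 : V (s (i + 1 + (m + 1))) (v.map (· + (i + 1))) * (V (s (i + 1 + (m + 1))) A *
          V (s (i + 1 + (m + 1))) (B.map (· + (i + 1))) *
          V (s (i + 1 + (m + 1))) (u.map (· + (i + 1)))) = V (s (i + 1 + (m + 1))) A *
          V (s (i + 1 + (m + 1))) ((v ++ B ++ u).map (· + (i + 1))) := by
        simp only [List.map_append, V_append]
        simp only [← mul_assoc]
        rw [c2]
      rw [e2]
      exact this

/-- Step 3: general words. -/
theorem T_all (h : Mk G s N) (i m : ℕ) : ∀ A1 : List ℕ, (∀ a ∈ A1, a < i) →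
    ∀ A B B1 : List ℕ, (∀ a ∈ A, a < i) → (∀ b ∈ B, b < m) → (∀ b ∈ B1, b < m) →
    T s N (i + 1 + m) i (V (s (i + 1 + m)) A * V (s (i + 1 + m)) (B.map (· + (i + 1))))
      (V (s (i + 1 + m)) A1 * V (s (i + 1 + m)) (B1.map (· + (i + 1)))) := by
  intro A1 hA1
  cases i with
  | zero =>
    have h0 : A1 = [] := by
      cases A1 with
      | nil => rfl
      | cons a u => exact absurd (hA1 a (by simp)) (by omega)
    subst h0
    intro A B B1 hA hB hB1
    exact h.T_upper 0 m [] (by simp) (Or.inl rfl) B1 hB1 A B hA hB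
  | succ k =>
    refine word_ind (n := k) (Pr := fun A1 => ∀ A B B1 : List ℕ, (∀ a ∈ A, a < k + 1) →
      (∀ b ∈ B, b < m) → (∀ b ∈ B1, b < m) →
      T s N (k + 1 + 1 + m) (k + 1) (V (s (k + 1 + 1 + m)) A *
        V (s (k + 1 + 1 + m)) (B.map (· + (k + 1 + 1))))
      (V (s (k + 1 + 1 + m)) A1 * V (s (k + 1 + 1 + m)) (B1.map (· + (k + 1 + 1)))))
      ?_ ?_ ?_ ?_ A1 hA1
    · intro u v e hv A B B1 hA hB hB1
      have e1 : V (s (k + 1 + 1 + m)) u = V (s (k + 1 + 1 + m)) v :=
        h.V_eqv (e.liftN (by omega))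
      rw [e1]
      exact hv A B B1 hA hB hB1
    · intro x j y hb h1 h2 A B B1 hA hB hB1
      have hj := hb j (by simp)
      have h3 := h1 A B B1 hA hB hB1
      have h4 := h2 A B B1 hA hB hB1
      simp only [V_append, V_cons] at h3 h4 ⊢
      have h5 := h.T_lin (n := k + 1 + 1 + m) (i := k + 1) (j := j) (by omega)
        (g := V (s (k + 1 + 1 + m)) A * V (s (k + 1 + 1 + m)) (B.map (· + (k + 1 + 1))))
        (p := V (s (k + 1 + 1 + m)) x)
        (q := V (s (k + 1 + 1 + m)) y * V (s (k + 1 + 1 + m)) (B1.map (· + (k + 1 + 1))))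
        (by simpa only [mul_assoc] using h3) (by simpa only [mul_assoc] using h4)
      simpa only [mul_assoc] using h5
    · intro u hu A B B1 hA hB hB1
      have hu' : ∀ b ∈ u, b < k + 1 := fun b hb => by have := hu b hb; omega
      have c1 : V (s (k + 1 + 1 + m)) u * s (k + 1 + 1 + m) (k + 1) =
          s (k + 1 + 1 + m) (k + 1) * V (s (k + 1 + 1 + m)) u :=
        h.comm_V (by omega) fun a ha => ⟨by have := hu a ha; omega, Or.inl (by
          have := hu a ha; omega)⟩
      refine T_left _ _ c1 ?_
      have := h.T_upper (k + 1) m [] (by simp) (Or.inl rfl) B1 hB1 (A ++ u) B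
        (mem_app hA hu') hB
      have c2 := h.comm_AB hu' hB
      have e2 : V (s (k + 1 + 1 + m)) A * V (s (k + 1 + 1 + m)) (B.map (· + (k + 1 + 1))) *
          V (s (k + 1 + 1 + m)) u = V (s (k + 1 + 1 + m)) (A ++ u) *
          V (s (k + 1 + 1 + m)) (B.map (· + (k + 1 + 1))) := by
        rw [V_append, mul_assoc, ← c2, mul_assoc]
      rw [e2]
      simpa using this
    · intro u v hu hv A B B1 hA hB hB1
      have hu' : ∀ b ∈ u, b < k + 1 := fun b hb => by have := hu b hb; omega
      have hv' : ∀ b ∈ v, b < k + 1 := fun b hb => by have := hv b hb; omega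
      have c1 : ∀ u : List ℕ, (∀ a ∈ u, a < k) → V (s (k + 1 + 1 + m)) u *
          s (k + 1 + 1 + m) (k + 1) = s (k + 1 + 1 + m) (k + 1) * V (s (k + 1 + 1 + m)) u :=
        fun u hu => h.comm_V (by omega) fun a ha => ⟨by have := hu a ha; omega, Or.inl (by
          have := hu a ha; omega)⟩
      have e1 : V (s (k + 1 + 1 + m)) (u ++ k :: v) * V (s (k + 1 + 1 + m))
          (B1.map (· + (k + 1 + 1))) = V (s (k + 1 + 1 + m)) u *
          (V (s (k + 1 + 1 + m)) [k] * V (s (k + 1 + 1 + m)) (B1.map (· + (k + 1 + 1))) *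
            V (s (k + 1 + 1 + m)) v) := by
        have c3 := h.comm_AB hv' hB1
        simp only [V_append, V_cons, V_nil, mul_one]
        rw [mul_assoc (s (k + 1 + 1 + m) k), ← c3]
        simp only [mul_assoc]
      rw [e1]
      refine T_left _ _ (c1 u hu) (h.T_right _ _ (c1 v hv) ?_)
      have := h.T_upper (k + 1) m [k] (by simp) (Or.inr ⟨k, rfl, rfl⟩) B1 hB1 (v ++ A ++ u) B
        (mem_app (mem_app hv' hA) hu') hB
      have c2 := h.comm_AB hu' hB
      have e2 : V (s (k + 1 + 1 + m)) v * (V (s (k + 1 + 1 + m)) A *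
          V (s (k + 1 + 1 + m)) (B.map (· + (k + 1 + 1))) * V (s (k + 1 + 1 + m)) u) =
          V (s (k + 1 + 1 + m)) (v ++ A ++ u) *
          V (s (k + 1 + 1 + m)) (B.map (· + (k + 1 + 1))) := by
        simp only [V_append, mul_assoc]
        rw [c2]
      rw [e2]
      exact this

/-- words without the letter `i` -/
theorem sep (h : Mk G s N) {i m : ℕ} {x : List ℕ} (hx : ∀ a ∈ x, a < i + 1 + m) (hi : i ∉ x) :
    ∃ A B : List ℕ, (∀ a ∈ A, a < i) ∧ (∀ b ∈ B, b < m) ∧
      V (s (i + 1 + m)) x = V (s (i + 1 + m)) A * V (s (i + 1 + m)) (B.map (· + (i + 1))) := by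
  induction x with
  | nil => exact ⟨[], [], by simp, by simp, by simp⟩
  | cons a x ih =>
    obtain ⟨A, B, hA, hB, e⟩ := ih (fun b hb => hx b (List.mem_cons_of_mem _ hb))
      (fun h => hi (List.mem_cons_of_mem _ h))
    have ha : a ≠ i := fun h => hi (by simp [h])
    rcases lt_or_gt_of_ne ha with h1 | h1
    · refine ⟨a :: A, B, ?_, hB, ?_⟩
      · intro b hb
        rcases List.mem_cons.1 hb with hb | hb
        · omega
        · exact hA b hb
      · rw [V_cons, e, V_cons, mul_assoc]
    · have ha' := hx a (by simp)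
      have hB' : ∀ b ∈ (a - (i + 1)) :: B, b < m := by
        intro b hb
        rcases List.mem_cons.1 hb with hb | hb
        · omega
        · exact hB b hb
      refine ⟨A, (a - (i + 1)) :: B, hA, hB', ?_⟩
      have c : V (s (i + 1 + m)) A * s (i + 1 + m) a = s (i + 1 + m) a * V (s (i + 1 + m)) A :=
        h.comm_V (by omega) fun b hb => ⟨by have := hA b hb; omega, Or.inl (by
          have := hA b hb; omega)⟩
      have e1 : a - (i + 1) + (i + 1) = a := by omega
      rw [V_cons, e, List.map_cons, V_cons, e1, ← mul_assoc, ← mul_assoc, c]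

/-- `X * N (x * s i * y * (s i)⁻¹) ≤ 2 * N (x * s i * y)` if the letter `i` is missing in `x`, `y` -/
theorem single (h : Mk G s N) {n i : ℕ} (hi : i < n) {x y : List ℕ} (hx : ∀ a ∈ x, a < n)
    (hy : ∀ a ∈ y, a < n) (hxi : i ∉ x) (hyi : i ∉ y) :
    Le (X * N n (V (s n) (x ++ i :: y) * (s n i)⁻¹)) (2 * N n (V (s n) (x ++ i :: y))) := by
  obtain ⟨m, rfl⟩ : ∃ m, n = i + 1 + m := ⟨n - (i + 1), by omega⟩
  obtain ⟨A, B, hA, hB, e1⟩ := h.sep hx hxi
  obtain ⟨A1, B1, hA1, hB1, e2⟩ := h.sep hy hyi
  have := h.T_all i m A1 hA1 A B B1 hA hB hB1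
  unfold T at this
  rw [← e1, ← e2] at this
  have e3 : V (s (i + 1 + m)) (x ++ i :: y) =
      V (s (i + 1 + m)) x * s (i + 1 + m) i * V (s (i + 1 + m)) y := by
    rw [V_append, V_cons, mul_assoc]
  rw [e3]
  exact this

theorem swap1 (h : Mk G s N) {n i : ℕ} (hi : i < n) {x y : List ℕ} (hx : ∀ a ∈ x, a < n)
    (hy : ∀ a ∈ y, a < n) (hxi : i ∉ x) (hyi : i ∉ y) :
    N n (V (s n) (x ++ y) * s n i) = N n (V (s n) (x ++ i :: y)) := by
  obtain ⟨m, rfl⟩ : ∃ m, n = i + 1 + m := ⟨n - (i + 1), by omega⟩
  obtain ⟨A, B, hA, hB, e1⟩ := h.sep hx hxi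
  obtain ⟨A1, B1, hA1, hB1, e2⟩ := h.sep hy hyi
  have s1 := h.split' (mem_app hA hA1) (mem_app hB hB1)
  have s2 := h.split' (mem_app hA1 hA) (mem_app hB1 hB)
  have c1 := h.comm_AB hA1 hB
  have c2 := h.comm_AB hA hB1
  have e3 : V (s (i + 1 + m)) (x ++ y) = V (s (i + 1 + m)) (A ++ A1) *
      V (s (i + 1 + m)) ((B ++ B1).map (· + (i + 1))) := by
    rw [V_append, e1, e2, V_append, List.map_append, V_append]
    simp only [mul_assoc]
    rw [← mul_assoc (V (s (i + 1 + m)) (B.map _)) (V (s (i + 1 + m)) A1), ← c1]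
    simp only [mul_assoc]
  have e4 : V (s (i + 1 + m)) y * V (s (i + 1 + m)) x = V (s (i + 1 + m)) (A1 ++ A) *
      V (s (i + 1 + m)) ((B1 ++ B).map (· + (i + 1))) := by
    rw [e1, e2, V_append, List.map_append, V_append]
    simp only [mul_assoc]
    rw [← mul_assoc (V (s (i + 1 + m)) (B1.map _)) (V (s (i + 1 + m)) A), ← c2]
    simp only [mul_assoc]
  have e5 : N (i + 1 + m) (V (s (i + 1 + m)) (x ++ i :: y)) =
      N (i + 1 + m) (V (s (i + 1 + m)) y * V (s (i + 1 + m)) x * s (i + 1 + m) i) := by
    rw [V_append, V_cons, ← mul_assoc, h.conj, mul_assoc]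
  rw [e3, s1, e5, e4, s2, V_append, V_append, V_append, V_append, h.conj i, h.conj m]

/-- **The upper bound for an inverse letter.** -/
theorem bound (h : Mk G s N) : ∀ (n : ℕ) (w : List ℕ), (∀ a ∈ w, a < n) →
    (∀ a < n, a ∈ w) → ∀ i < n,
    Le (X * N n (V (s n) w * (s n i)⁻¹)) (3 * N n (V (s n) w)) := by
  intro n
  induction n with
  | zero => intro w _ _ i hi; omega
  | succ n ihn =>
    intro w hw hf i hi
    refine word_ind (Pr := fun w => (∀ a < n + 1, a ∈ w) →
      Le (X * N (n + 1) (V (s (n + 1)) w * (s (n + 1) i)⁻¹))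
        (3 * N (n + 1) (V (s (n + 1)) w))) ?_ ?_ ?_ ?_ w hw hf
    · intro u v e hv hu
      rw [h.V_eqv e]
      exact hv fun a ha => (e.mem_iff a).1 (hu a ha)
    · intro x j y hb h1 h2 h3
      have hj := hb j (by simp)
      have hx : ∀ a ∈ x, a < n + 1 := fun a ha => hb a (by simp [ha])
      have hy : ∀ a ∈ y, a < n + 1 := fun a ha => hb a (by simp [ha])
      have hf1 : ∀ a < n + 1, a ∈ x ++ j :: y := by
        intro a ha
        have := h3 a ha
        simp only [List.mem_append, List.mem_cons] at this ⊢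
        tauto
      have h2' := h2 hf1
      rw [h.quad_word_right hj, h.quad_word hj]
      by_cases hjm : j ∈ x ++ y
      · have hf2 : ∀ a < n + 1, a ∈ x ++ y := by
          intro a ha
          by_cases haj : a = j
          · rw [haj]; exact hjm
          · have := h3 a ha
            simp only [List.mem_append, List.mem_cons] at this ⊢
            tauto
        have h4 := (h1 hf2).add h2'.X_mul
        have e1 : X * (N (n + 1) (V (s (n + 1)) (x ++ y) * (s (n + 1) i)⁻¹) +
            X * N (n + 1) (V (s (n + 1)) (x ++ j :: y) * (s (n + 1) i)⁻¹)) =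
            X * N (n + 1) (V (s (n + 1)) (x ++ y) * (s (n + 1) i)⁻¹) +
            X * (X * N (n + 1) (V (s (n + 1)) (x ++ j :: y) * (s (n + 1) i)⁻¹)) := by ring
        have e2 : 3 * (N (n + 1) (V (s (n + 1)) (x ++ y)) +
            X * N (n + 1) (V (s (n + 1)) (x ++ j :: y))) =
            3 * N (n + 1) (V (s (n + 1)) (x ++ y)) +
            X * (3 * N (n + 1) (V (s (n + 1)) (x ++ j :: y))) := by ring
        rw [e1, e2]
        exact h4
      · have hjx : j ∉ x := fun h => hjm (List.mem_append_left _ h)
        have hjy : j ∉ y := fun h => hjm (List.mem_append_right _ h)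
        have z := h.zero_of_missing (n + 1) (x ++ y) (mem_app hx hy) j hj hjm
        rw [z, zero_add]
        by_cases hji : j = i
        · subst hji
          have e1 : N (n + 1) (V (s (n + 1)) (x ++ y) * (s (n + 1) j)⁻¹) =
              N (n + 1) (V (s (n + 1)) (x ++ j :: y)) := by
            rw [h.inv_eq' hj, z, mul_zero, sub_zero, h.swap1 hj hx hy hjx hjy]
          have h5 := (h.single hj hx hy hjx hjy).X_mul
          have h6 := (Le.refl (X * N (n + 1) (V (s (n + 1)) (x ++ j :: y)))).add h5
          rw [e1]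
          have e2 : X * (N (n + 1) (V (s (n + 1)) (x ++ j :: y)) +
              X * N (n + 1) (V (s (n + 1)) (x ++ j :: y) * (s (n + 1) j)⁻¹)) =
              X * N (n + 1) (V (s (n + 1)) (x ++ j :: y)) +
              X * (X * N (n + 1) (V (s (n + 1)) (x ++ j :: y) * (s (n + 1) j)⁻¹)) := by ring
          have e3 : 3 * (X * N (n + 1) (V (s (n + 1)) (x ++ j :: y))) =
              X * N (n + 1) (V (s (n + 1)) (x ++ j :: y)) +
              X * (2 * N (n + 1) (V (s (n + 1)) (x ++ j :: y))) := by ring
          rw [e2, e3]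
          exact h6
        · have e1 : N (n + 1) (V (s (n + 1)) (x ++ y) * (s (n + 1) i)⁻¹) = 0 := by
            have z2 := h.zero_of_missing (n + 1) (x ++ y ++ [i])
              (mem_app (mem_app hx hy) (by simpa using hi)) j hj (by
                rw [List.mem_append, not_or]
                exact ⟨hjm, by simpa using hji⟩)
            rw [V_append, V_cons, V_nil, mul_one] at z2
            rw [h.inv_eq' hi, z2, z, mul_zero, sub_zero]
          rw [e1, zero_add]
          have e3 : 3 * (X * N (n + 1) (V (s (n + 1)) (x ++ j :: y))) =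
              X * (3 * N (n + 1) (V (s (n + 1)) (x ++ j :: y))) := by ring
          rw [e3]
          exact h2'.X_mul
    · intro u hu hf
      exact absurd (hu n (hf n (Nat.lt_succ_self n))) (lt_irrefl n)
    · intro u v hu hv hf
      by_cases hin : i = n
      · subst hin
        have h5 := h.single hi (x := u) (y := v) (fun a ha => by have := hu a ha; omega)
          (fun a ha => by have := hv a ha; omega) (fun h => absurd (hu i h) (lt_irrefl i))
          (fun h => absurd (hv i h) (lt_irrefl i))
        have h6 := h.pos (i + 1) (u ++ i :: v) (by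
          intro a ha
          simp only [List.mem_append, List.mem_cons] at ha
          rcases ha with ha | ha | ha
          · have := hu a ha; omega
          · omega
          · have := hv a ha; omega)
        have h7 := h5.add h6
        rw [add_zero] at h7
        have e3 : 3 * N (i + 1) (V (s (i + 1)) (u ++ i :: v)) =
            2 * N (i + 1) (V (s (i + 1)) (u ++ i :: v)) +
              N (i + 1) (V (s (i + 1)) (u ++ i :: v)) := by ring
        rw [e3]
        exact h7
      · rw [h.destab_inv (by omega) hu hv, h.destab hu hv]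
        refine ihn _ (mem_app hu hv) ?_ i (by omega)
        intro a ha
        have := hf a (by omega)
        simp only [List.mem_append, List.mem_cons] at this ⊢
        rcases this with h1 | h1 | h1
        · exact Or.inl h1
        · omega
        · exact Or.inr h1

end Mk

end Pool.Agent.Helper76.Conway.Top
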