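import Mathlib

/-!
# Top coefficients of the Conway polynomial of positive braids: combinatorics of words

Words over `ℕ`; `Eqv n` is the congruence generated by the far commutations and the braid relations with letters
smaller than `n`. `FF n w` is the number of the second coefficient: the sum of the numbers `count i w - 2` (truncated)
and of the number of `i` for which `i, i+1, i, i+1` or `i+1, i, i+1, i` is a subword.
-/

set_option autoImplicit false

namespace Pool.Agent.Helper76.Conway.Top

/-- the letters `a` and `b` alternate four times -/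
def Alt {α : Type} (a b : α) (w : List α) : Prop :=
  List.Sublist [a, b, a, b] w ∨ List.Sublist [b, a, b, a] w

section alt

variable {α : Type} {a b c d : α} {w u x y : List α}

theorem Alt.symm (h : Alt a b w) : Alt b a w := Or.symm h

theorem alt_comm : Alt a b w ↔ Alt b a w := ⟨Alt.symm, Alt.symm⟩

theorem Alt.mono (h : Alt a b w) (hu : w.Sublist u) : Alt a b u :=
  h.imp (fun h => h.trans hu) (fun h => h.trans hu)

theorem Alt.rot (h : Alt a b (c :: u)) : Alt a b (u ++ [c]) := by
  rcases h with h | h
  · rcases List.cons_sublist_cons'.1 h with h' | ⟨h1, h'⟩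
    · exact Or.inl (h'.trans (List.sublist_append_left _ _))
    · rw [← h1]
      exact Or.inr (h'.append (List.Sublist.refl [a]))
  · rcases List.cons_sublist_cons'.1 h with h' | ⟨h1, h'⟩
    · exact Or.inr (h'.trans (List.sublist_append_left _ _))
    · rw [← h1]
      exact Or.inl (h'.append (List.Sublist.refl [b]))

theorem Alt.rev (h : Alt a b w) : Alt a b w.reverse := by
  rcases h with h | h
  · exact Or.inr h.reverse
  · exact Or.inl h.reverse

theorem alt_rot : Alt a b (c :: u) ↔ Alt a b (u ++ [c]) := by
  refine ⟨Alt.rot, fun h => ?_⟩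
  have h1 : Alt a b (c :: u.reverse) := by
    have := h.rev
    rwa [List.reverse_append] at this
  have h2 := h1.rot.rev
  rwa [List.reverse_append, List.reverse_reverse] at h2

theorem alt_append : Alt a b (x ++ y) ↔ Alt a b (y ++ x) := by
  induction x generalizing y with
  | nil => simp
  | cons c x ih =>
    rw [List.cons_append, alt_rot, List.append_assoc, ih, List.append_assoc]
    rfl

theorem alt_dup (hab : a ≠ b) : Alt a b (c :: c :: u) ↔ Alt a b (c :: u) := by
  constructor
  · rintro (h | h)
    · rcases List.cons_sublist_cons'.1 h with h' | ⟨h1, h'⟩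
      · exact Or.inl h'
      · rcases List.cons_sublist_cons'.1 h' with h' | ⟨h2, h'⟩
        · rw [← h1]
          exact Or.inl (h'.cons_cons a)
        · exact absurd (h1.trans h2.symm) hab
    · rcases List.cons_sublist_cons'.1 h with h' | ⟨h1, h'⟩
      · exact Or.inr h'
      · rcases List.cons_sublist_cons'.1 h' with h' | ⟨h2, h'⟩
        · rw [← h1]
          exact Or.inr (h'.cons_cons b)
        · exact absurd (h2.trans h1.symm) hab
  · intro h
    exact h.mono (List.sublist_cons_self _ _)

theorem alt_remove (h1 : c ≠ a) (h2 : c ≠ b) : Alt a b (c :: u) ↔ Alt a b u := by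
  constructor
  · rintro (h | h)
    · rcases List.cons_sublist_cons'.1 h with h | ⟨h3, _⟩
      · exact Or.inl h
      · exact absurd h3.symm h1
    · rcases List.cons_sublist_cons'.1 h with h | ⟨h3, _⟩
      · exact Or.inr h
      · exact absurd h3.symm h2
  · intro h
    exact h.mono (List.sublist_cons_self _ _)

theorem Alt.count_left [DecidableEq α] (h : Alt a b w) : 2 ≤ w.count a := by
  rcases h with h | h
  · have := h.count_le a
    refine le_trans ?_ this
    simp [List.count_cons]
    omega
  · have := h.count_le a
    refine le_trans ?_ this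
    simp [List.count_cons]
    omega

theorem Alt.count_right [DecidableEq α] (h : Alt a b w) : 2 ≤ w.count b := h.symm.count_left

theorem alt_swap (h : c ≠ a ∧ c ≠ b ∨ d ≠ a ∧ d ≠ b) :
    Alt a b (c :: d :: u) ↔ Alt a b (d :: c :: u) := by
  rcases h with ⟨h1, h2⟩ | ⟨h1, h2⟩
  · rw [alt_remove h1 h2, alt_rot (c := d) (u := c :: u), List.cons_append,
      alt_remove h1 h2, ← alt_rot]
  · rw [alt_remove (c := d) (u := c :: u) h1 h2, alt_rot (c := c) (u := d :: u),
      List.cons_append, alt_remove h1 h2, ← alt_rot]

end alt

open Classical in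
/-- one if `i` and `i + 1` alternate four times, zero otherwise -/
noncomputable def al (i : ℕ) (w : List ℕ) : ℕ := if Alt i (i + 1) w then 1 else 0

theorem al_congr {i : ℕ} {w w' : List ℕ} (h : Alt i (i + 1) w ↔ Alt i (i + 1) w') :
    al i w = al i w' := by
  unfold al
  by_cases h1 : Alt i (i + 1) w
  · rw [if_pos h1, if_pos (h.1 h1)]
  · rw [if_neg h1, if_neg fun h2 => h1 (h.2 h2)]

theorem al_pos {i : ℕ} {w : List ℕ} (h : Alt i (i + 1) w) : al i w = 1 := if_pos h

theorem al_neg {i : ℕ} {w : List ℕ} (h : ¬ Alt i (i + 1) w) : al i w = 0 := if_neg h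

/-- the second coefficient -/
noncomputable def FF (n : ℕ) (w : List ℕ) : ℕ :=
  ∑ i ∈ Finset.range n, ((w.count i - 2) + al i w)

theorem FF_append (n : ℕ) (x y : List ℕ) : FF n (x ++ y) = FF n (y ++ x) := by
  unfold FF
  refine Finset.sum_congr rfl fun i _ => ?_
  rw [List.count_append, List.count_append, add_comm (x.count i), al_congr alt_append]

theorem FF_mono (n : ℕ) {x y : List ℕ} (h : x.Sublist y) : FF n x ≤ FF n y := by
  unfold FF
  refine Finset.sum_le_sum fun i _ => ?_
  have h1 := h.count_le i
  by_cases h2 : Alt i (i + 1) x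
  · rw [al_pos h2, al_pos (h2.mono h)]
    omega
  · rw [al_neg h2]
    omega

theorem FF_dup (n : ℕ) {i : ℕ} (hi : i < n) (u : List ℕ) :
    FF n (i :: i :: u) = FF n (i :: u) + if i ∈ u then 1 else 0 := by
  unfold FF
  have h1 : ∀ j, al j (i :: i :: u) = al j (i :: u) :=
    fun j => al_congr (alt_dup (Nat.ne_of_lt (Nat.lt_succ_self j)))
  simp only [h1, Finset.sum_add_distrib]
  have h2 : ∑ j ∈ Finset.range n, ((i :: i :: u).count j - 2) =
      ∑ j ∈ Finset.range n, ((i :: u).count j - 2) + if i ∈ u then 1 else 0 := by
    rw [← Finset.add_sum_erase _ _ (Finset.mem_range.2 hi),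
      ← Finset.add_sum_erase _ (fun j => (i :: u).count j - 2) (Finset.mem_range.2 hi)]
    have h3 : ∑ j ∈ (Finset.range n).erase i, ((i :: i :: u).count j - 2) =
        ∑ j ∈ (Finset.range n).erase i, ((i :: u).count j - 2) := by
      refine Finset.sum_congr rfl fun j hj => ?_
      have hij : i ≠ j := (Finset.ne_of_mem_erase hj).symm
      rw [List.count_cons_of_ne hij, List.count_cons_of_ne hij]
    rw [h3, List.count_cons_self, List.count_cons_self]
    by_cases h4 : i ∈ u
    · rw [if_pos h4]
      have := List.count_pos_iff.2 h4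
      omega
    · rw [if_neg h4, List.count_eq_zero.2 h4]
      omega
  rw [h2]
  ring

private theorem sum_two {n j : ℕ} (hj : j + 1 < n) (f g : ℕ → ℕ)
    (h : ∀ i, i ≠ j → i ≠ j + 1 → f i = g i) (h2 : f j + f (j + 1) = g j + g (j + 1)) :
    ∑ i ∈ Finset.range n, f i = ∑ i ∈ Finset.range n, g i := by
  have hj1 : j ∈ Finset.range n := Finset.mem_range.2 (by omega)
  have hj2 : j + 1 ∈ (Finset.range n).erase j :=
    Finset.mem_erase.2 ⟨by omega, Finset.mem_range.2 hj⟩
  rw [← Finset.add_sum_erase _ f hj1, ← Finset.add_sum_erase _ g hj1,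
    ← Finset.add_sum_erase _ f hj2, ← Finset.add_sum_erase _ g hj2, ← add_assoc, ← add_assoc, h2]
  congr 1
  refine Finset.sum_congr rfl fun i hi => ?_
  rw [Finset.mem_erase, Finset.mem_erase] at hi
  exact h i hi.2.1 hi.1

theorem FF_braid {n j : ℕ} (hj : j + 1 < n) (u : List ℕ) :
    FF n (j :: (j + 1) :: j :: u) = FF n ((j + 1) :: j :: (j + 1) :: u) := by
  unfold FF
  -- alternation of the other pairs
  have halt : ∀ i, i ≠ j → (Alt i (i + 1) (j :: (j + 1) :: j :: u) ↔
      Alt i (i + 1) ((j + 1) :: j :: (j + 1) :: u)) := by
    intro i hi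
    by_cases h1 : i + 1 = j
    · subst h1
      have e1 : Alt i (i + 1) ((i + 1) :: (i + 1 + 1) :: (i + 1) :: u) ↔
          Alt i (i + 1) ((i + 1) :: u) := by
        rw [alt_swap (c := i + 1) (d := i + 1 + 1) (Or.inr ⟨by omega, by omega⟩),
          alt_remove (by omega) (by omega), alt_dup (by omega)]
      have e2 : Alt i (i + 1) ((i + 1 + 1) :: (i + 1) :: (i + 1 + 1) :: u) ↔
          Alt i (i + 1) ((i + 1) :: u) := by
        rw [alt_remove (by omega) (by omega),
          alt_swap (c := i + 1) (d := i + 1 + 1) (Or.inr ⟨by omega, by omega⟩),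
          alt_remove (by omega) (by omega)]
      rw [e1, e2]
    · by_cases h2 : i = j + 1
      · subst h2
        have e1 : Alt (j + 1) (j + 1 + 1) (j :: (j + 1) :: j :: u) ↔
            Alt (j + 1) (j + 1 + 1) ((j + 1) :: u) := by
          rw [alt_remove (by omega) (by omega),
            alt_swap (c := j + 1) (d := j) (Or.inr ⟨by omega, by omega⟩),
            alt_remove (by omega) (by omega)]
        have e2 : Alt (j + 1) (j + 1 + 1) ((j + 1) :: j :: (j + 1) :: u) ↔
            Alt (j + 1) (j + 1 + 1) ((j + 1) :: u) := by
          rw [alt_swap (c := j + 1) (d := j) (Or.inr ⟨by omega, by omega⟩),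
            alt_remove (by omega) (by omega), alt_dup (by omega)]
        rw [e1, e2]
      · rw [alt_remove (by omega) (by omega), alt_remove (by omega) (by omega),
          alt_remove (by omega) (by omega), alt_remove (by omega) (by omega),
          alt_remove (by omega) (by omega), alt_remove (by omega) (by omega)]
  have hA : Alt j (j + 1) (j :: (j + 1) :: j :: u) ↔ j + 1 ∈ u := by
    constructor
    · intro h
      have h1 := h.count_right
      by_contra h2
      rw [List.count_cons_of_ne (by omega), List.count_cons_self,
        List.count_cons_of_ne (by omega), List.count_eq_zero.2 h2] at h1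
      omega
    · intro h
      refine Or.inl ?_
      have h1 : List.Sublist [j + 1] u := List.singleton_sublist.2 h
      exact ((h1.cons_cons j).cons_cons (j + 1)).cons_cons j
  have hB : Alt j (j + 1) ((j + 1) :: j :: (j + 1) :: u) ↔ j ∈ u := by
    constructor
    · intro h
      have h1 := h.count_left
      by_contra h2
      rw [List.count_cons_of_ne (by omega), List.count_cons_self,
        List.count_cons_of_ne (by omega), List.count_eq_zero.2 h2] at h1
      omega
    · intro h
      refine Or.inr ?_
      have h1 : List.Sublist [j] u := List.singleton_sublist.2 h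
      exact ((h1.cons_cons (j + 1)).cons_cons j).cons_cons (j + 1)
  refine sum_two hj _ _ ?_ ?_
  · intro i hi hi'
    rw [al_congr (halt i hi)]
    congr 2
    rw [List.count_cons_of_ne (Ne.symm hi), List.count_cons_of_ne (Ne.symm hi'),
      List.count_cons_of_ne (Ne.symm hi), List.count_cons_of_ne (Ne.symm hi'),
      List.count_cons_of_ne (Ne.symm hi), List.count_cons_of_ne (Ne.symm hi')]
  · rw [al_congr (halt (j + 1) (by omega))]
    have c1 : (j :: (j + 1) :: j :: u).count j = u.count j + 2 := by
      rw [List.count_cons_self, List.count_cons_of_ne (by omega), List.count_cons_self]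
    have c2 : (j :: (j + 1) :: j :: u).count (j + 1) = u.count (j + 1) + 1 := by
      rw [List.count_cons_of_ne (by omega), List.count_cons_self, List.count_cons_of_ne (by omega)]
    have c3 : ((j + 1) :: j :: (j + 1) :: u).count j = u.count j + 1 := by
      rw [List.count_cons_of_ne (by omega), List.count_cons_self, List.count_cons_of_ne (by omega)]
    have c4 : ((j + 1) :: j :: (j + 1) :: u).count (j + 1) = u.count (j + 1) + 2 := by
      rw [List.count_cons_self, List.count_cons_of_ne (by omega), List.count_cons_self]
    rw [c1, c2, c3, c4]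
    have d1 : j ∈ u ↔ 0 < u.count j := List.count_pos_iff.symm
    have d2 : j + 1 ∈ u ↔ 0 < u.count (j + 1) := List.count_pos_iff.symm
    rw [d2] at hA
    rw [d1] at hB
    by_cases e1 : 0 < u.count (j + 1)
    · rw [al_pos (hA.2 e1)]
      by_cases e2 : 0 < u.count j
      · rw [al_pos (hB.2 e2)]
        omega
      · rw [al_neg fun h => e2 (hB.1 h)]
        omega
    · rw [al_neg fun h => e1 (hA.1 h)]
      by_cases e2 : 0 < u.count j
      · rw [al_pos (hB.2 e2)]
        omega
      · rw [al_neg fun h => e2 (hB.1 h)]
        omega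

theorem FF_swap {n a b : ℕ} (hab : a + 2 ≤ b) (u : List ℕ) :
    FF n (a :: b :: u) = FF n (b :: a :: u) := by
  unfold FF
  refine Finset.sum_congr rfl fun i _ => ?_
  have h1 : Alt i (i + 1) (a :: b :: u) ↔ Alt i (i + 1) (b :: a :: u) := by
    apply alt_swap
    by_cases h : a = i ∨ a = i + 1
    · exact Or.inr ⟨by omega, by omega⟩
    · exact Or.inl ⟨by omega, by omega⟩
  have h2 : (a :: b :: u).count i = (b :: a :: u).count i := by
    simp only [List.count_cons]
    omega
  rw [h2, al_congr h1]

theorem FF_destab {n : ℕ} {u : List ℕ} (hu : ∀ a ∈ u, a < n) : FF (n + 1) (n :: u) = FF n u := by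
  unfold FF
  have hn : u.count n = 0 := List.count_eq_zero.2 fun h => absurd (hu n h) (lt_irrefl n)
  have hn1 : ∀ m, n < m → u.count m = 0 := fun m hm =>
    List.count_eq_zero.2 fun h => absurd (hu m h) (by omega)
  rw [Finset.sum_range_succ]
  have h0 : ¬ Alt n (n + 1) (n :: u) := by
    intro h
    have h1 := h.count_right
    rw [List.count_cons_of_ne (by omega), hn1 (n + 1) (by omega)] at h1
    omega
  rw [al_neg h0, List.count_cons_self, hn]
  have h1 : ∀ i ∈ Finset.range n, ((n :: u).count i - 2) + al i (n :: u) =
      (u.count i - 2) + al i u := by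
    intro i hi
    rw [Finset.mem_range] at hi
    rw [List.count_cons_of_ne (by omega)]
    by_cases h2 : i + 1 = n
    · have h3 : ¬ Alt i (i + 1) (n :: u) := by
        intro h
        have h4 := h.count_right
        rw [h2, List.count_cons_self, hn] at h4
        omega
      have h4 : ¬ Alt i (i + 1) u := fun h => h3 (h.mono (List.sublist_cons_self _ _))
      rw [al_neg h3, al_neg h4]
    · rw [al_congr (alt_remove (a := i) (b := i + 1) (c := n) (u := u) (by omega) (by omega))]
  rw [Finset.sum_congr rfl h1]
  simp

/-! ### the congruence -/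

/-- far commutations and braid relations -/
inductive Eqv (n : ℕ) : List ℕ → List ℕ → Prop
  | refl (w : List ℕ) : Eqv n w w
  | trans {u v w : List ℕ} (h : Eqv n u v) (h' : Eqv n v w) : Eqv n u w
  | symm {u v : List ℕ} (h : Eqv n u v) : Eqv n v u
  | comm (x y : List ℕ) (a b : ℕ) (hab : a + 2 ≤ b) (hb : b < n) :
      Eqv n (x ++ a :: b :: y) (x ++ b :: a :: y)
  | braid (x y : List ℕ) (j : ℕ) (hj : j + 1 < n) :
      Eqv n (x ++ j :: (j + 1) :: j :: y) (x ++ (j + 1) :: j :: (j + 1) :: y)

namespace Eqv

variable {n : ℕ} {u v : List ℕ}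

theorem ctx (h : Eqv n u v) (x y : List ℕ) : Eqv n (x ++ (u ++ y)) (x ++ (v ++ y)) := by
  induction h with
  | refl w => exact refl _
  | trans _ _ ih ih' => exact ih.trans ih'
  | symm _ ih => exact ih.symm
  | comm x' y' a b hab hb =>
    have := comm (x ++ x') (y' ++ y) a b hab hb
    simpa using this
  | braid x' y' j hj =>
    have := braid (x ++ x') (y' ++ y) j hj
    simpa using this

theorem lift (h : Eqv n u v) : Eqv (n + 1) u v := by
  induction h with
  | refl w => exact refl _
  | trans _ _ ih ih' => exact ih.trans ih'
  | symm _ ih => exact ih.symm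
  | comm x y a b hab hb => exact comm x y a b hab (by omega)
  | braid x y j hj => exact braid x y j (by omega)

theorem liftN (h : Eqv n u v) {k : ℕ} (hk : n ≤ k) : Eqv k u v := by
  induction hk with
  | refl => exact h
  | step _ ih => exact ih.lift

theorem length_eq (h : Eqv n u v) : u.length = v.length := by
  induction h with
  | refl w => rfl
  | trans _ _ ih ih' => exact ih.trans ih'
  | symm _ ih => exact ih.symm
  | comm x' y' a b hab hb => simp
  | braid x' y' j hj => simp

theorem mem_iff (h : Eqv n u v) (a : ℕ) : a ∈ u ↔ a ∈ v := by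
  induction h with
  | refl w => rfl
  | trans _ _ ih ih' => exact ih.trans ih'
  | symm _ ih => exact ih.symm
  | comm x' y' a b hab hb => simp only [List.mem_append, List.mem_cons]; tauto
  | braid x' y' j hj => simp only [List.mem_append, List.mem_cons]; tauto

theorem FF_eq (h : Eqv n u v) : FF n u = FF n v := by
  induction h with
  | refl w => rfl
  | trans _ _ ih ih' => exact ih.trans ih'
  | symm _ ih => exact ih.symm
  | comm x' y' a b hab hb =>
    rw [FF_append, FF_append n x']
    exact FF_swap hab _
  | braid x' y' j hj =>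
    rw [FF_append, FF_append n x']
    exact FF_braid hj _

end Eqv

/-- a letter commutes with smaller letters -/
theorem eqv_pass {n j : ℕ} (hj : j < n) (u : List ℕ) (hu : ∀ a ∈ u, a + 2 ≤ j) :
    Eqv n (j :: u) (u ++ [j]) := by
  induction u with
  | nil => exact Eqv.refl _
  | cons a u ih =>
    have h1 := (Eqv.comm [] u a j (hu a (by simp)) hj).symm
    have h2 := (ih (fun b hb => hu b (by simp [hb]))).ctx [a] []
    simp only [List.append_nil, List.singleton_append] at h2
    exact h1.trans h2

/-- a word with two equal adjacent letters -/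
def HasSq (w : List ℕ) : Prop := ∃ x i y, w = x ++ i :: i :: y

theorem HasSq.ctx {v : List ℕ} (h : HasSq v) (x y : List ℕ) : HasSq (x ++ (v ++ y)) := by
  obtain ⟨x', i, y', rfl⟩ := h
  exact ⟨x ++ x', i, y' ++ y, by simp⟩

/-- splitting off the first occurrence -/
theorem split_first {k : ℕ} {u : List ℕ} (h : k ∈ u) :
    ∃ u1 u2, u = u1 ++ k :: u2 ∧ k ∉ u1 := by
  induction u with
  | nil => simp at h
  | cons a u ih =>
    by_cases ha : a = k
    · exact ⟨[], u, by simp [ha], by simp⟩
    · have h1 : k ∈ u := by
        rcases List.mem_cons.1 h with h | h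
        · exact absurd h.symm ha
        · exact h
      obtain ⟨u1, u2, h2, h3⟩ := ih h1
      refine ⟨a :: u1, u2, by simp [h2], ?_⟩
      rw [List.mem_cons]
      rintro (h4 | h4)
      · exact ha h4.symm
      · exact h3 h4

/-- The reduction lemma. -/
theorem reduce {n : ℕ} : ∀ j, j < n → ∀ u : List ℕ, (∀ a ∈ u, a < j) →
    ∃ v, Eqv n (j :: (u ++ [j])) v ∧ (HasSq v ∨ (v.count j = 1 ∧ ∀ a ∈ v, a ≤ j)) := by
  intro j
  induction j with
  | zero =>
    intro _ u hu
    have hu0 : u = [] := by
      cases u with
      | nil => rfl
      | cons a u => exact absurd (hu a (by simp)) (by omega)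
    subst hu0
    exact ⟨_, Eqv.refl _, Or.inl ⟨[], 0, [], rfl⟩⟩
  | succ k ihk =>
    intro hj u hu
    obtain ⟨c, hc⟩ : ∃ c, c = u.count k := ⟨_, rfl⟩
    induction c using Nat.strong_induction_on generalizing u with
    | _ c ihc =>
      by_cases h0 : k ∈ u
      · obtain ⟨u1, u2, rfl, h1⟩ := split_first h0
        by_cases h2 : k ∈ u2
        · -- two letters `k`
          obtain ⟨u3, u4, rfl, h3⟩ := split_first h2
          have hu3 : ∀ a ∈ u3, a < k := by
            intro a ha
            have h4 := hu a (by simp [ha])
            have h5 : a ≠ k := fun h => h3 (h ▸ ha)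
            omega
          obtain ⟨v, hv, hv'⟩ := ihk (by omega) u3 hu3
          have e : Eqv n ((k + 1) :: (u1 ++ k :: (u3 ++ k :: u4) ++ [k + 1]))
              ((k + 1) :: (u1 ++ v ++ u4 ++ [k + 1])) := by
            have h4 := hv.ctx ((k + 1) :: u1) (u4 ++ [k + 1])
            simpa using h4
          rcases hv' with hv' | ⟨hv1, hv2⟩
          · refine ⟨_, e, Or.inl ?_⟩
            have h4 := hv'.ctx ((k + 1) :: u1) (u4 ++ [k + 1])
            simpa using h4
          · have h5 : (u1 ++ v ++ u4).count k < c := by
              rw [hc]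
              simp only [List.count_append, List.count_cons_self, hv1]
              omega
            obtain ⟨w, hw, hw'⟩ := ihc _ h5 (u1 ++ v ++ u4) (by
              intro a ha
              simp only [List.mem_append] at ha
              rcases ha with (ha | ha) | ha
              · exact hu a (by simp [ha])
              · have := hv2 a ha
                omega
              · exact hu a (by simp [ha])) rfl
            exact ⟨w, e.trans hw, hw'⟩
        · -- one letter `k`
          have hu1 : ∀ a ∈ u1, a + 2 ≤ k + 1 := by
            intro a ha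
            have h4 := hu a (by simp [ha])
            have h5 : a ≠ k := fun h => h1 (h ▸ ha)
            omega
          have hu2 : ∀ a ∈ u2, a + 2 ≤ k + 1 := by
            intro a ha
            have h4 := hu a (by simp [ha])
            have h5 : a ≠ k := fun h => h2 (h ▸ ha)
            omega
          refine ⟨u1 ++ k :: (k + 1) :: k :: u2, ?_, Or.inr ⟨?_, ?_⟩⟩
          · have e1 := (eqv_pass hj u1 hu1).ctx [] (k :: (u2 ++ [k + 1]))
            have e2 := (eqv_pass hj u2 hu2).symm.ctx (u1 ++ [k + 1, k]) []
            have e3 := (Eqv.braid (n := n) u1 u2 k hj).symm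
            simp only [List.nil_append, List.append_nil, List.append_assoc, List.cons_append,
              List.singleton_append] at e1 e2 e3 ⊢
            exact e1.trans (e2.trans e3)
          · have c1 : u1.count (k + 1) = 0 := List.count_eq_zero.2 fun h => by
              have := hu1 _ h
              omega
            have c2 : u2.count (k + 1) = 0 := List.count_eq_zero.2 fun h => by
              have := hu2 _ h
              omega
            rw [List.count_append, List.count_cons_of_ne (by omega), List.count_cons_self,
              List.count_cons_of_ne (by omega), c1, c2]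
          · intro a ha
            simp only [List.mem_append, List.mem_cons] at ha
            rcases ha with ha | ha | ha | ha | ha
            · have := hu1 a ha
              omega
            · omega
            · omega
            · omega
            · have := hu2 a ha
              omega
      · -- no letter `k`
        have hu1 : ∀ a ∈ u, a + 2 ≤ k + 1 := by
          intro a ha
          have h4 := hu a ha
          have h5 : a ≠ k := fun h => h0 (h ▸ ha)
          omega
        refine ⟨u ++ [k + 1, k + 1], ?_, Or.inl ⟨u, k + 1, [], rfl⟩⟩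
        have e1 := (eqv_pass hj u hu1).ctx [] [k + 1]
        simpa using e1

theorem reduce_top {n : ℕ} (w : List ℕ) (hw : ∀ a ∈ w, a < n + 1) :
    ∃ v, Eqv (n + 1) w v ∧ (HasSq v ∨ v.count n ≤ 1) := by
  obtain ⟨c, hc⟩ : ∃ c, c = w.count n := ⟨_, rfl⟩
  induction c using Nat.strong_induction_on generalizing w with
  | _ c ih =>
    by_cases h0 : n ∈ w
    · obtain ⟨x, w', rfl, h1⟩ := split_first h0
      by_cases h2 : n ∈ w'
      · obtain ⟨u, y, rfl, h3⟩ := split_first h2
        have hu : ∀ a ∈ u, a < n := by
          intro a ha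
          have h4 := hw a (by simp [ha])
          have h5 : a ≠ n := fun h => h3 (h ▸ ha)
          omega
        obtain ⟨v, hv, hv'⟩ := reduce (n := n + 1) n (by omega) u hu
        have e : Eqv (n + 1) (x ++ n :: (u ++ n :: y)) (x ++ (v ++ y)) := by
          have h4 := hv.ctx x y
          simpa using h4
        rcases hv' with hv' | ⟨hv1, hv2⟩
        · exact ⟨_, e, Or.inl (hv'.ctx x y)⟩
        · obtain ⟨v', hv3, hv4⟩ := ih ((x ++ (v ++ y)).count n) (by
            rw [hc]
            simp only [List.count_append, List.count_cons_self, hv1]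
            omega) (x ++ (v ++ y)) (by
            intro a ha
            exact hw a ((e.mem_iff a).2 ha)) rfl
          exact ⟨v', e.trans hv3, hv4⟩
      · refine ⟨_, Eqv.refl _, Or.inr ?_⟩
        rw [List.count_append, List.count_cons_self, List.count_eq_zero.2 h1,
          List.count_eq_zero.2 h2]
    · refine ⟨_, Eqv.refl _, Or.inr ?_⟩
      rw [List.count_eq_zero.2 h0]
      omega

/-- Induction over positive words: it suffices to treat words with at most one letter `n` and to pass from
`x ++ y` and `x ++ j :: y` to `x ++ j :: j :: y`. -/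
theorem word_ind {n : ℕ} {Pr : List ℕ → Prop} (hE : ∀ u v, Eqv (n + 1) u v → Pr v → Pr u)
    (hsq : ∀ x j y, (∀ a ∈ x ++ j :: j :: y, a < n + 1) → Pr (x ++ y) → Pr (x ++ j :: y) →
      Pr (x ++ j :: j :: y))
    (h0 : ∀ u, (∀ a ∈ u, a < n) → Pr u)
    (h1 : ∀ u v, (∀ a ∈ u, a < n) → (∀ a ∈ v, a < n) → Pr (u ++ n :: v))
    (w : List ℕ) (hw : ∀ a ∈ w, a < n + 1) : Pr w := by
  obtain ⟨l, hl⟩ : ∃ l, l = w.length := ⟨_, rfl⟩
  induction l using Nat.strong_induction_on generalizing w with
  | _ l ih =>
    obtain ⟨v, hv, hv'⟩ := reduce_top w hw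
    apply hE w v hv
    have hvl := hv.length_eq
    have hvb : ∀ a ∈ v, a < n + 1 := fun a ha => hw a ((hv.mem_iff a).2 ha)
    rcases hv' with ⟨x, j, y, rfl⟩ | hv'
    · simp only [List.length_append, List.length_cons] at hvl
      refine hsq x j y hvb (ih (x ++ y).length (by simp; omega) _ ?_ rfl)
        (ih (x ++ j :: y).length (by simp; omega) _ ?_ rfl)
      · intro a ha
        rw [List.mem_append] at ha
        exact hvb a (by simp only [List.mem_append, List.mem_cons]; tauto)
      · intro a ha
        simp only [List.mem_append, List.mem_cons] at ha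
        exact hvb a (by simp only [List.mem_append, List.mem_cons]; tauto)
    · by_cases h2 : n ∈ v
      · obtain ⟨x, y, rfl, h3⟩ := split_first h2
        have h4 : n ∉ y := by
          intro h4
          have h5 := List.count_pos_iff.2 h4
          rw [List.count_append, List.count_cons_self] at hv'
          omega
        refine h1 x y (fun a ha => ?_) (fun a ha => ?_)
        · have h5 := hvb a (by simp [ha])
          have h6 : a ≠ n := fun h => h3 (h ▸ ha)
          omega
        · have h5 := hvb a (by simp [ha])
          have h6 : a ≠ n := fun h => h4 (h ▸ ha)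
          omega
      · refine h0 v fun a ha => ?_
        have h5 := hvb a ha
        have h6 : a ≠ n := fun h => h2 (h ▸ ha)
        omega

theorem Eqv.mir {k : ℕ} {u v : List ℕ} (h : Eqv (k + 1) u v) :
    Eqv (k + 1) (u.map fun a => k - a) (v.map fun a => k - a) := by
  induction h with
  | refl w => exact Eqv.refl _
  | trans _ _ ih ih' => exact ih.trans ih'
  | symm _ ih => exact ih.symm
  | comm x y a b hab hb =>
    have := (Eqv.comm (n := k + 1) (x.map fun a => k - a) (y.map fun a => k - a) (k - b) (k - a)
      (by omega) (by omega)).symm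
    simpa using this
  | braid x y j hj =>
    have := (Eqv.braid (n := k + 1) (x.map fun a => k - a) (y.map fun a => k - a) (k - (j + 1))
      (by omega)).symm
    have e : k - (j + 1) + 1 = k - j := by omega
    rw [e] at this
    simpa using this

theorem map_mir {k : ℕ} {w : List ℕ} (hw : ∀ a ∈ w, a < k + 1) :
    (w.map fun a => k - a).map (fun a => k - a) = w := by
  rw [List.map_map]
  conv_rhs => rw [← List.map_id w]
  apply List.map_congr_left
  intro a ha
  have := hw a ha
  change k - (k - a) = a
  omega

/-- The same induction with respect to the letter `0`. -/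
theorem word_ind_bot {k : ℕ} {Pr : List ℕ → Prop} (hE : ∀ u v, Eqv (k + 1) u v → Pr v → Pr u)
    (hsq : ∀ x j y, (∀ a ∈ x ++ j :: j :: y, a < k + 1) → Pr (x ++ y) → Pr (x ++ j :: y) →
      Pr (x ++ j :: j :: y))
    (h0 : ∀ u, (∀ a ∈ u, a < k + 1 ∧ 1 ≤ a) → Pr u)
    (h1 : ∀ u v, (∀ a ∈ u, a < k + 1 ∧ 1 ≤ a) → (∀ a ∈ v, a < k + 1 ∧ 1 ≤ a) →
      Pr (u ++ 0 :: v))
    (w : List ℕ) (hw : ∀ a ∈ w, a < k + 1) : Pr w := by
  have key : ∀ w : List ℕ, (∀ a ∈ w, a < k + 1) → Pr (w.map fun a => k - a) := by
    refine word_ind (Pr := fun w => Pr (w.map fun a => k - a)) ?_ ?_ ?_ ?_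
    · intro u v h hv
      exact hE _ _ h.mir hv
    · intro x j y h hx hy
      have := hsq (x.map fun a => k - a) (k - j) (y.map fun a => k - a) (by
        intro a ha
        rw [← List.map_cons (f := fun a => k - a), ← List.map_cons (f := fun a => k - a),
          ← List.map_append, List.mem_map] at ha
        obtain ⟨b, _, rfl⟩ := ha
        omega) (by simpa using hx) (by simpa using hy)
      simpa using this
    · intro u hu
      refine h0 _ fun a ha => ?_
      rw [List.mem_map] at ha
      obtain ⟨b, hb, rfl⟩ := ha
      have := hu b hb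
      omega
    · intro u v hu hv
      have := h1 (u.map fun a => k - a) (v.map fun a => k - a) (by
        intro a ha
        rw [List.mem_map] at ha
        obtain ⟨b, hb, rfl⟩ := ha
        have := hu b hb
        omega) (by
        intro a ha
        rw [List.mem_map] at ha
        obtain ⟨b, hb, rfl⟩ := ha
        have := hv b hb
        omega)
      simpa using this
  have := key (w.map fun a => k - a) (by
    intro a ha
    rw [List.mem_map] at ha
    obtain ⟨b, _, rfl⟩ := ha
    omega)
  rwa [map_mir hw] at this

end Pool.Agent.Helper76.Conway.Top
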